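import Pool.Agent.Lib.MP_7a0cb1_an.Tk

/-!
# Analyticity of the extension
-/

open MeasureTheory AddCircle Filter Topology Metric
open scoped ENNReal ComplexConjugate

namespace Pool.Agent.Lib.MP_7a0cb1_an

lemma norm_coeff_le {f : Circ → ℂ} {C : ℝ} (hC : ∀ᵐ x ∂mes, ‖f x‖ ≤ C) (n : ℤ) :
    ‖fourierCoeff f n‖ ≤ C := by
  unfold fourierCoeff
  calc ‖∫ x, fourier (-n) x • f x ∂mes‖ ≤ ∫ x, C ∂mes := by
        apply norm_integral_le_of_norm_le (integrable_const _)
        filter_upwards [hC] with x hx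
        rw [norm_smul]
        have : ‖(fourier (-n) x : ℂ)‖ = 1 := by
          rw [fourier_apply]; exact Circle.norm_coe _
        rw [this, one_mul]
        exact hx
    _ = C := by simp

lemma hasFPowerSeries_ext {f : Circ → ℂ} (hf : InLinf f) :
    HasFPowerSeriesOnBall (ext f)
      (FormalMultilinearSeries.ofScalars ℂ (fun n : ℕ => fourierCoeff f (n : ℤ))) 0 1 := by
  obtain ⟨C, hC0, hC⟩ := hf.bound
  refine ⟨?_, by norm_num, ?_⟩
  · apply FormalMultilinearSeries.le_radius_of_bound _ C (r := 1)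
    intro n
    rw [FormalMultilinearSeries.ofScalars_norm]
    simpa using norm_coeff_le hC n
  · intro y hy
    have hy' : ‖y‖ < 1 := by
      have : y ∈ Metric.ball (0 : ℂ) 1 := by
        rw [← Metric.eball_ofReal] at *
        simpa using hy
      simpa using this
    rw [zero_add, ext_eq hf hy']
    have h := hasSum_ext hf hy'
    simp only [FormalMultilinearSeries.ofScalars_apply_eq, smul_eq_mul]
    exact h

lemma eball_one : Metric.eball (0 : ℂ) 1 = Metric.ball (0 : ℂ) 1 := by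
  have := Metric.eball_ofReal (x := (0 : ℂ)) (ε := 1)
  simpa using this

lemma differentiableOn_ext {f : Circ → ℂ} (hf : InLinf f) :
    DifferentiableOn ℂ (ext f) (ball 0 1) := by
  have := (hasFPowerSeries_ext hf).differentiableOn
  rwa [eball_one] at this

lemma coeff_zero_of_ext_zero {f : Circ → ℂ} (hf : InLinf f) (h : ∀ w, ‖w‖ < 1 → ext f w = 0)
    (n : ℕ) : fourierCoeff f (n : ℤ) = 0 := by
  have h1 := (hasFPowerSeries_ext hf).hasFPowerSeriesAt.eq_zero_of_eventually (by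
    filter_upwards [Metric.ball_mem_nhds (0 : ℂ) one_pos] with w hw
    exact h w (by simpa using hw))
  rw [FormalMultilinearSeries.ofScalars_series_eq_zero] at h1
  exact congrFun h1 n

lemma hasSum_normSq_coeff {I : Circ → ℂ} (hI : InHinf I) :
    HasSum (fun n : ℕ => ‖fourierCoeff I (n : ℤ)‖ ^ 2) (∫ x, ‖I x‖ ^ 2 ∂mes) := by
  have h1 := parseval hI.1.cj hI.1
  have h2 : (∫ x, cj I x * I x ∂mes) = ((∫ x, ‖I x‖ ^ 2 ∂mes : ℝ) : ℂ) := by
    rw [← integral_complex_ofReal]
    congr 1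
    ext x
    unfold cj
    rw [mul_comm, Complex.mul_conj, Complex.normSq_eq_norm_sq]
  have h3 : (fun i : ℤ => fourierCoeff (cj I) (-i) * fourierCoeff I i) =
      fun i : ℤ => ((‖fourierCoeff I i‖ ^ 2 : ℝ) : ℂ) := by
    funext i
    rw [fourierCoeff_cj, neg_neg, mul_comm, Complex.mul_conj, Complex.normSq_eq_norm_sq]
  rw [h2, h3] at h1
  have h4 := Complex.hasSum_ofReal.mp h1
  have h5 : Function.Injective (fun n : ℕ => (n : ℤ)) := Nat.cast_injective
  have h6 := (h5.hasSum_iff (f := fun i : ℤ => ‖fourierCoeff I i‖ ^ 2) (by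
    intro x hx
    have : x < 0 := by
      by_contra hcon
      push Not at hcon
      exact hx ⟨x.toNat, by simp [hcon]⟩
    rw [hI.2 x this]
    simp)).mpr h4
  exact h6

lemma IsInner.integral_eq {I : Circ → ℂ} (hI : IsInner I) : ∫ x, ‖I x‖ ^ 2 ∂mes = 1 := by
  have : ∫ x, ‖I x‖ ^ 2 ∂mes = ∫ x, (1 : ℝ) ∂mes := by
    apply integral_congr_ae
    filter_upwards [hI.2] with x hx
    rw [hx]; norm_num
  rw [this]; simp

lemma exists_ext_ne_zero {I : Circ → ℂ} (hI : IsInner I) : ∃ w, ‖w‖ < 1 ∧ ext I w ≠ 0 := by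
  by_contra hcon
  push Not at hcon
  have h1 := hasSum_normSq_coeff hI.1
  rw [hI.integral_eq] at h1
  have h2 : (fun n : ℕ => ‖fourierCoeff I (n : ℤ)‖ ^ 2) = fun _ => 0 := by
    funext n
    rw [coeff_zero_of_ext_zero hI.1.1 hcon n]
    simp
  rw [h2] at h1
  have := h1.unique hasSum_zero
  norm_num at this

/-- `|b_a(w)| < 1`. -/
lemma norm_bd_lt {a w : ℂ} (ha : ‖a‖ < 1) (hw : ‖w‖ < 1) : ‖bd a w‖ < 1 := by
  have hne : (1 : ℂ) - conj a * w ≠ 0 := one_sub_ne (norm_conj_lt ha) hw.le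
  unfold bd
  rw [norm_div, div_lt_one (norm_pos_iff.mpr hne)]
  rw [← abs_of_nonneg (norm_nonneg (w - a)), ← abs_of_nonneg (norm_nonneg (1 - conj a * w))]
  apply sq_lt_sq.mp
  rw [← Complex.normSq_eq_norm_sq, ← Complex.normSq_eq_norm_sq]
  have h3 : Complex.normSq (1 - conj a * w) - Complex.normSq (w - a) =
      (1 - Complex.normSq a) * (1 - Complex.normSq w) := by
    simp only [Complex.normSq_apply, Complex.sub_re, Complex.sub_im, Complex.mul_re,
      Complex.mul_im, Complex.conj_re, Complex.conj_im, Complex.one_re, Complex.one_im]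
    ring
  have h4 : 0 < (1 - Complex.normSq a) * (1 - Complex.normSq w) := by
    rw [Complex.normSq_eq_norm_sq, Complex.normSq_eq_norm_sq]
    apply mul_pos
    · nlinarith [norm_nonneg a]
    · nlinarith [norm_nonneg w]
  linarith

/-- Small coefficients at points not tending to the circle are impossible. -/
lemma bd_close {I : Circ → ℂ} (hI : IsInner I) {w : ℂ} (hw : ‖w‖ < 1) (hw0 : ext I w ≠ 0) {r : ℝ}
    (hr0 : 0 ≤ r) (hr : r < 1) : ∃ (J : ℕ) (δ : ℝ), 0 < δ ∧ ∀ a : ℂ, ‖a‖ < 1 →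
      (∀ j < J, ‖tc a I j‖ ≤ δ) → r < ‖bd a w‖ := by
  set η := ‖ext I w‖ with hηdef
  have hη : 0 < η := norm_pos_iff.mpr hw0
  obtain ⟨K, hK⟩ := exists_pow_lt_of_lt_one (show 0 < η / 4 by positivity) hr
  refine ⟨K, min (1 / (K + 1)) (η / 4 / (K + 1)), by positivity, ?_⟩
  intro a ha hc
  by_contra hcon
  push Not at hcon
  have h1 : ∑ i ∈ Finset.range K, ‖tc a I i‖ ≤ K * min (1 / (K + 1 : ℝ)) (η / 4 / (K + 1)) := by
    calc ∑ i ∈ Finset.range K, ‖tc a I i‖ ≤
        ∑ i ∈ Finset.range K, min (1 / (K + 1 : ℝ)) (η / 4 / (K + 1)) :=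
          Finset.sum_le_sum fun i hi => hc i (Finset.mem_range.mp hi)
      _ = _ := by rw [Finset.sum_const, Finset.card_range, nsmul_eq_mul]
  have hK0 : (0 : ℝ) ≤ K := Nat.cast_nonneg K
  have h2 : ∑ i ∈ Finset.range K, ‖tc a I i‖ ≤ 1 := by
    refine h1.trans ?_
    calc (K : ℝ) * min (1 / (K + 1 : ℝ)) (η / 4 / (K + 1)) ≤ K * (1 / (K + 1)) := by
          gcongr; exact min_le_left _ _
      _ ≤ 1 := by rw [mul_one_div, div_le_one (by positivity)]; linarith
  have h3 : ∑ i ∈ Finset.range K, ‖tc a I i‖ ≤ η / 4 := by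
    refine h1.trans ?_
    calc (K : ℝ) * min (1 / (K + 1 : ℝ)) (η / 4 / (K + 1)) ≤ K * (η / 4 / (K + 1)) := by
          gcongr; exact min_le_right _ _
      _ = (K / (K + 1)) * (η / 4) := by ring
      _ ≤ 1 * (η / 4) := by
          gcongr
          rw [div_le_one (by positivity)]; linarith
      _ = η / 4 := one_mul _
  have h4 : ‖ext (tk a I K) w‖ ≤ 2 := by
    apply norm_ext_le (tk_inHinf ha hI.1 K) _ hw
    filter_upwards [hI.2] with x hx
    have := norm_tk_le ha I K x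
    rw [hx] at this
    linarith
  have h5 := ext_expand ha hw hI.1 K
  have h6 : ‖ext I w‖ ≤ ∑ i ∈ Finset.range K, ‖tc a I i‖ + r ^ K * 2 := by
    rw [h5]
    refine (norm_add_le _ _).trans (add_le_add ?_ ?_)
    · refine (norm_sum_le _ _).trans (Finset.sum_le_sum fun i _ => ?_)
      rw [norm_mul, norm_pow]
      have := pow_le_one₀ (norm_nonneg (bd a w)) (norm_bd_lt ha hw).le (n := i)
      have := norm_nonneg (tc a I i)
      nlinarith
    · rw [norm_mul, norm_pow]
      apply mul_le_mul (pow_le_pow_left₀ (norm_nonneg _) hcon K) h4 (norm_nonneg _) (by positivity)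
  linarith

end Pool.Agent.Lib.MP_7a0cb1_an
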