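import Pool.Agent.Lib.MP_7a0cb1_an.Harn

/-!
# Averages over circles
-/

open MeasureTheory AddCircle Filter Topology Metric
open scoped ENNReal ComplexConjugate

namespace Pool.Agent.Lib.MP_7a0cb1_an

lemma coeff_ee_pow (n : ℕ) (m : ℤ) :
    fourierCoeff (fun x => ee x ^ n) m = if m = n then 1 else 0 := by
  have h := fourierCoeff_shift (fun _ => (1 : ℂ)) n m
  have h2 : (fun x : Circ => fourier (n : ℤ) x * (1 : ℂ)) = fun x => ee x ^ n := by
    ext x; rw [fourier_nat, mul_one]
  rw [h2] at h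
  rw [h, fourierCoeff_const]
  congr 1
  simp [sub_eq_zero]

/-- Fourier coefficients of a power series on a circle. -/
lemma coeff_dil {c : ℕ → ℂ} {r : ℝ} (hr0 : 0 ≤ r) {F : ℂ → ℂ}
    (hF : ∀ x : Circ, HasSum (fun n => c n * (r * ee x) ^ n) (F (r * ee x))) (m : ℤ) :
    HasSum (fun n : ℕ => c n * r ^ n * (if m = n then 1 else 0))
      (fourierCoeff (fun x => F (r * ee x)) m) := by
  have hsum : Summable (fun n => ‖c n‖ * r ^ n) := by
    have := (hF 0).summable.norm
    refine this.congr fun n => ?_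
    rw [norm_mul, norm_pow, norm_mul, norm_ee, mul_one, Complex.norm_real, Real.norm_of_nonneg hr0]
  have hcont : ∀ n : ℕ, Continuous (fun x : Circ => fourier (-m) x • (c n * (r * ee x) ^ n)) := by
    intro n
    exact (fourier (-m)).continuous.smul
      (continuous_const.mul ((continuous_const.mul ee_continuous).pow n))
  have h1 : ∀ n : ℕ, Integrable (fun x : Circ => fourier (-m) x • (c n * (r * ee x) ^ n)) mes :=
    fun n => (InLinf.of_continuous (hcont n)).integrable
  have hnorm : ∀ n : ℕ, ∀ x : Circ, ‖fourier (-m) x • (c n * (r * ee x) ^ n)‖ = ‖c n‖ * r ^ n := by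
    intro n x
    rw [norm_smul]
    have : ‖(fourier (-m) x : ℂ)‖ = 1 := by
      rw [fourier_apply]; exact Circle.norm_coe _
    rw [this, one_mul, norm_mul, norm_pow, norm_mul, norm_ee, mul_one, Complex.norm_real,
      Real.norm_of_nonneg hr0]
  have h2 : Summable (fun n : ℕ => ∫ x, ‖fourier (-m) x • (c n * (r * ee x) ^ n)‖ ∂mes) := by
    refine hsum.congr fun n => ?_
    simp only [hnorm]
    simp
  have h3 := hasSum_integral_of_summable_integral_norm h1 h2
  have h4 : (∫ x, ∑' n : ℕ, fourier (-m) x • (c n * (r * ee x) ^ n) ∂mes) =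
      fourierCoeff (fun x => F (r * ee x)) m := by
    unfold fourierCoeff
    congr 1
    ext x
    exact ((hF x).const_smul (fourier (-m) x)).tsum_eq
  rw [h4] at h3
  have h5 : (fun n : ℕ => ∫ x, fourier (-m) x • (c n * (r * ee x) ^ n) ∂mes) =
      fun n : ℕ => c n * r ^ n * (if m = n then 1 else 0) := by
    funext n
    rw [← coeff_ee_pow n m, ← fourierCoeff_const_mul']
    unfold fourierCoeff
    congr 1
    ext x
    rw [mul_pow]
    simp only [smul_eq_mul]
    ring
  rw [h5] at h3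
  exact h3

lemma dil_mem {r : ℝ} (hr0 : 0 ≤ r) (hr : r < 1) (x : Circ) : (r : ℂ) * ee x ∈ ball (0 : ℂ) 1 := by
  rw [mem_ball_zero_iff, norm_mul, norm_ee, mul_one, Complex.norm_real, Real.norm_of_nonneg hr0]
  exact hr

lemma dil_continuous {F : ℂ → ℂ} (hF : DifferentiableOn ℂ F (ball 0 1)) {r : ℝ} (hr0 : 0 ≤ r)
    (hr : r < 1) : Continuous (fun x : Circ => F (r * ee x)) :=
  hF.continuousOn.comp_continuous (continuous_const.mul ee_continuous) (dil_mem hr0 hr)

/-- The mean value property. -/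
lemma integral_dil {F : ℂ → ℂ} (hF : DifferentiableOn ℂ F (ball 0 1)) {r : ℝ} (hr0 : 0 ≤ r)
    (hr : r < 1) : ∫ x : Circ, F (r * ee x) ∂mes = F 0 := by
  obtain ⟨R, hR1, hR2⟩ := exists_between hr
  have hR0 : 0 < R := hr0.trans_lt hR1
  lift R to NNReal using hR0.le
  have hd : DifferentiableOn ℂ F (closedBall 0 R) := hF.mono (closedBall_subset_ball hR2)
  have hp := hd.hasFPowerSeriesOnBall (by exact_mod_cast hR0)
  set p := cauchyPowerSeries F 0 R with hpdef
  have hsum : ∀ x : Circ, HasSum (fun n => p.coeff n * (r * ee x) ^ n) (F (r * ee x)) := by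
    intro x
    have hmem : (r : ℂ) * ee x ∈ Metric.eball (0 : ℂ) R := by
      rw [mem_eball_zero_iff, ← ofReal_norm, norm_mul, norm_ee, mul_one, Complex.norm_real,
        Real.norm_of_nonneg hr0]
      rw [← ENNReal.ofReal_coe_nnreal]
      exact (ENNReal.ofReal_lt_ofReal_iff hR0).mpr hR1
    have h := hp.hasSum hmem
    rw [zero_add] at h
    simp only [FormalMultilinearSeries.apply_eq_pow_smul_coeff, smul_eq_mul] at h
    simp only [mul_comm (p.coeff _)]
    exact h
  have h1 := coeff_dil hr0 hsum 0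
  have h2 : (fun n : ℕ => p.coeff n * (r : ℂ) ^ n * (if (0 : ℤ) = n then 1 else 0)) =
      fun n => if n = 0 then p.coeff 0 else 0 := by
    funext n
    by_cases hn : n = 0
    · subst hn; simp
    · have : ¬ ((0 : ℤ) = (n : ℤ)) := by exact_mod_cast (Ne.symm hn)
      rw [if_neg this, if_neg hn, mul_zero]
  rw [h2] at h1
  have h3 : HasSum (fun n : ℕ => if n = 0 then p.coeff 0 else 0) (p.coeff 0) := hasSum_ite_eq 0 _
  have h4 := h1.unique h3
  rw [integral_eq_coeff, h4]
  exact hp.coeff_zero _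

lemma integral_normSq_ext {I : Circ → ℂ} (hI : InHinf I) {r : ℝ} (hr0 : 0 ≤ r) (hr : r < 1) :
    HasSum (fun n : ℕ => ‖fourierCoeff I (n : ℤ)‖ ^ 2 * r ^ (2 * n))
      (∫ x : Circ, ‖ext I (r * ee x)‖ ^ 2 ∂mes) := by
  have hsum : ∀ x : Circ, HasSum (fun n => fourierCoeff I ((n : ℕ) : ℤ) * (r * ee x) ^ n)
      (ext I (r * ee x)) := by
    intro x
    have hx := dil_mem hr0 hr x
    rw [mem_ball_zero_iff] at hx
    rw [ext_eq hI.1 hx]
    exact hasSum_ext hI.1 hx
  have hcoef := coeff_dil hr0 hsum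
  have hcont := dil_continuous (differentiableOn_ext hI.1) hr0 hr
  have hneg : ∀ m : ℤ, m < 0 → fourierCoeff (fun x : Circ => ext I (r * ee x)) m = 0 := by
    intro m hm
    have h1 := hcoef m
    have h2 : (fun n : ℕ => fourierCoeff I (n : ℤ) * (r : ℂ) ^ n * (if m = n then 1 else 0)) =
        fun _ => 0 := by
      funext n
      have : ¬ (m = (n : ℤ)) := by omega
      rw [if_neg this, mul_zero]
    rw [h2] at h1
    exact h1.unique hasSum_zero
  have hpos : ∀ k : ℕ, fourierCoeff (fun x : Circ => ext I (r * ee x)) (k : ℤ) =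
      fourierCoeff I (k : ℤ) * (r : ℂ) ^ k := by
    intro k
    have h1 := hcoef k
    have h2 : (fun n : ℕ => fourierCoeff I (n : ℤ) * (r : ℂ) ^ n * (if (k : ℤ) = n then 1 else 0)) =
        fun n => if n = k then fourierCoeff I (k : ℤ) * (r : ℂ) ^ k else 0 := by
      funext n
      by_cases hn : n = k
      · subst hn; simp
      · have : ¬ ((k : ℤ) = (n : ℤ)) := by exact_mod_cast (Ne.symm hn)
        rw [if_neg this, if_neg hn, mul_zero]
    rw [h2] at h1
    exact h1.unique (hasSum_ite_eq k _)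
  have hH : InHinf (fun x : Circ => ext I (r * ee x)) := ⟨InLinf.of_continuous hcont, hneg⟩
  have h := hasSum_normSq_coeff hH
  have h2 : (fun n : ℕ => ‖fourierCoeff (fun x : Circ => ext I (r * ee x)) (n : ℤ)‖ ^ 2) =
      fun n : ℕ => ‖fourierCoeff I (n : ℤ)‖ ^ 2 * r ^ (2 * n) := by
    funext n
    rw [hpos, norm_mul, mul_pow, norm_pow, Complex.norm_real, Real.norm_of_nonneg hr0]
    ring
  rw [h2] at h
  exact h

end Pool.Agent.Lib.MP_7a0cb1_an
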