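import Pool.Agent.Lib.MP_7a0cb1_an.Bla

/-!
# A Baire category argument
-/

open MeasureTheory AddCircle Filter Topology
open scoped ENNReal ComplexConjugate

namespace Pool.Agent.Lib.MP_7a0cb1_an

/-- The ball of radius `C` of `H^∞` as a subset of `L^1`. -/
def ballL1 (C : ℝ) : Set (Lp ℂ 1 mes) :=
  {f | (∀ᵐ x ∂mes, ‖f x‖ ≤ C) ∧ ∀ n : ℤ, n < 0 → fourierCoeff f n = 0}

lemma dist_coeff_le (f g : Lp ℂ 1 mes) (n : ℤ) :
    dist (fourierCoeff f n) (fourierCoeff g n) ≤ dist f g := by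
  have hf : Integrable (f : Circ → ℂ) mes := L1.integrable_coeFn f
  have hg : Integrable (g : Circ → ℂ) mes := L1.integrable_coeFn g
  rw [dist_eq_norm, dist_eq_norm, L1.norm_eq_integral_norm]
  unfold fourierCoeff
  have h1 : Integrable (fun x : Circ => fourier (-n) x • (f : Circ → ℂ) x) mes := hf.fourier_smul _
  have h2 : Integrable (fun x : Circ => fourier (-n) x • (g : Circ → ℂ) x) mes := hg.fourier_smul _
  rw [← integral_sub h1 h2]
  refine (norm_integral_le_integral_norm _).trans (le_of_eq ?_)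
  apply integral_congr_ae
  filter_upwards [Lp.coeFn_sub f g] with x hx
  rw [hx, ← smul_sub, norm_smul]
  have : ‖(fourier (-n) x : ℂ)‖ = 1 := by
    rw [fourier_apply]; exact Circle.norm_coe _
  rw [this, one_mul]
  rfl

lemma isClosed_ballL1 (C : ℝ) : IsClosed (ballL1 C) := by
  have h1 : IsClosed {f : Lp ℂ 1 mes | ∀ᵐ x ∂mes, ‖f x‖ ≤ C} := by
    apply IsSeqClosed.isClosed
    intro f g hf hg
    have hm := tendstoInMeasure_of_tendsto_Lp (p := 1) hg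
    obtain ⟨ns, -, hns⟩ := hm.exists_seq_tendsto_ae
    have hall : ∀ᵐ x ∂mes, ∀ n, ‖f n x‖ ≤ C := ae_all_iff.mpr hf
    show ∀ᵐ x ∂mes, ‖g x‖ ≤ C
    filter_upwards [hns, hall] with x hx hx'
    exact le_of_tendsto hx.norm (Eventually.of_forall fun n => hx' (ns n))
  have h2 : IsClosed {f : Lp ℂ 1 mes | ∀ n : ℤ, n < 0 → fourierCoeff f n = 0} := by
    have : {f : Lp ℂ 1 mes | ∀ n : ℤ, n < 0 → fourierCoeff f n = 0} =
        ⋂ n : ℤ, ⋂ _ : n < 0, {f : Lp ℂ 1 mes | fourierCoeff f n = 0} := by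
      ext f; simp
    rw [this]
    refine isClosed_iInter fun n => isClosed_iInter fun _ => ?_
    have hc : Continuous (fun f : Lp ℂ 1 mes => fourierCoeff f n) := by
      apply LipschitzWith.continuous (K := 1)
      apply LipschitzWith.of_dist_le_mul
      intro f g
      simpa using dist_coeff_le f g n
    exact isClosed_eq hc continuous_const
  exact h1.inter h2

lemma InHinf.of_ballL1 {C : ℝ} {f : Lp ℂ 1 mes} (hf : f ∈ ballL1 C) : InHinf (f : Circ → ℂ) :=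
  ⟨InLinf.mk' (Lp.aestronglyMeasurable f) hf.1, hf.2⟩

lemma memLp1 {f : Circ → ℂ} (hf : InLinf f) : MemLp f 1 mes := memLp_one_iff_integrable.mpr hf.integrable

lemma toLp_mem_ballL1 {C : ℝ} {f : Circ → ℂ} (hf : InHinf f) (hC : ∀ᵐ x ∂mes, ‖f x‖ ≤ C) :
    (memLp1 hf.1).toLp f ∈ ballL1 C := by
  refine ⟨?_, ?_⟩
  · filter_upwards [hC, (memLp1 hf.1).coeFn_toLp] with x h1 h2
    rw [h2]; exact h1
  · intro n hn
    rw [congrFun (fourierCoeff_congr_ae (memLp1 hf.1).coeFn_toLp) n]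
    exact hf.2 n hn

lemma dist_toLp {f : Circ → ℂ} (hf : InLinf f) (g : Lp ℂ 1 mes) :
    dist ((memLp1 hf).toLp f) g = ∫ x, ‖f x - g x‖ ∂mes := by
  rw [dist_eq_norm, L1.norm_eq_integral_norm]
  apply integral_congr_ae
  filter_upwards [Lp.coeFn_sub ((memLp1 hf).toLp f) g, (memLp1 hf).coeFn_toLp] with x h1 h2
  rw [h1, Pi.sub_apply, h2]

/-- `F` is within `ε` of `u + conj v` with `u, v` in the ball of radius `N` of `H^∞`. -/
def Near (F : Circ → ℂ) (N ε : ℝ) : Prop :=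
  ∃ u v : Circ → ℂ, InHinf u ∧ InHinf v ∧ (∀ᵐ x ∂mes, ‖u x‖ ≤ N) ∧ (∀ᵐ x ∂mes, ‖v x‖ ≤ N) ∧
    ∀ᵐ x ∂mes, ‖F x - (u x + cj v x)‖ ≤ ε

/-- The consequence of the Baire category theorem. -/
lemma baire_step (J : Circ → ℂ) {C ε : ℝ} (hC : 0 ≤ C) 
    (H : ∀ g : Circ → ℂ, InHinf g → ∃ N : ℝ, Near (fun x => J x * g x) N ε) :
    ∃ (N : ℝ) (g₀ : Circ → ℂ) (η : ℝ), InHinf g₀ ∧ (∀ᵐ x ∂mes, ‖g₀ x‖ ≤ C) ∧ 0 < η ∧
      ∀ g : Circ → ℂ, InHinf g → (∀ᵐ x ∂mes, ‖g x‖ ≤ C) → ∫ x, ‖g x - g₀ x‖ ∂mes < η →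
        ∀ τ : ℝ, 0 < τ → ∃ g' : Circ → ℂ, InHinf g' ∧ ∫ x, ‖g x - g' x‖ ∂mes < τ ∧
          Near (fun x => J x * g' x) N ε := by
  have : CompleteSpace (ballL1 C) := (isClosed_ballL1 C).completeSpace_coe
  have : Nonempty (ballL1 C) :=
    ⟨⟨_, toLp_mem_ballL1 (InHinf.const 0) (C := C) (by simp [hC])⟩⟩
  let E : ℕ → Set (ballL1 C) := fun N =>
    {f | Near (fun x => J x * (f : Lp ℂ 1 mes) x) N ε}
  have hU : ⋃ N, closure (E N) = Set.univ := by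
    rw [Set.eq_univ_iff_forall]
    intro f
    obtain ⟨N, u, v, hu, hv, hu', hv', h⟩ := H _ (InHinf.of_ballL1 f.2)
    rw [Set.mem_iUnion]
    obtain ⟨M, hM⟩ := exists_nat_ge N
    refine ⟨M, subset_closure ⟨u, v, hu, hv, ?_, ?_, h⟩⟩
    · filter_upwards [hu'] with x hx using hx.trans hM
    · filter_upwards [hv'] with x hx using hx.trans hM
  obtain ⟨N, ⟨f₀, hf₀⟩⟩ := nonempty_interior_of_iUnion_of_closed (fun N => isClosed_closure) hU
  rw [mem_interior_iff_mem_nhds, Metric.mem_nhds_iff] at hf₀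
  obtain ⟨η, hη, hball⟩ := hf₀
  refine ⟨N, (f₀ : Lp ℂ 1 mes), η, InHinf.of_ballL1 f₀.2, f₀.2.1, hη, ?_⟩
  intro g hg hgC hgη τ hτ
  have h1 : (⟨_, toLp_mem_ballL1 hg hgC⟩ : ballL1 C) ∈ closure (E N) := by
    apply hball
    rw [Metric.mem_ball, Subtype.dist_eq]
    simp only
    rw [dist_toLp hg.1]
    exact hgη
  rw [Metric.mem_closure_iff] at h1
  obtain ⟨f, hfE, hfd⟩ := h1 τ hτ
  refine ⟨(f : Lp ℂ 1 mes), InHinf.of_ballL1 f.2, ?_, hfE⟩
  rw [Subtype.dist_eq] at hfd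
  simp only at hfd
  rw [dist_toLp hg.1] at hfd
  exact hfd

end Pool.Agent.Lib.MP_7a0cb1_an
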