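import Pool.Agent.Lib.MP_7a0cb1_an.Pois

/-!
# Blaschke factors on the circle, and division by them
-/

open MeasureTheory AddCircle
open scoped ENNReal ComplexConjugate

namespace Pool.Agent.Lib.MP_7a0cb1_an

/-- The function `1 / (1 - c e)`. -/
noncomputable def gk (c : ℂ) (x : Circ) : ℂ := (1 - c * ee x)⁻¹

lemma one_sub_mul_ee_ne {c : ℂ} (hc : ‖c‖ < 1) (x : Circ) : 1 - c * ee x ≠ 0 :=
  one_sub_ne hc (z := ee x) (by simp [norm_ee])

lemma gk_continuous {c : ℂ} (hc : ‖c‖ < 1) : Continuous (gk c) := by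
  unfold gk
  exact Continuous.inv₀ (continuous_const.sub (continuous_const.mul ee_continuous))
    (fun x => one_sub_mul_ee_ne hc x)

lemma gk_inHinf {c : ℂ} (hc : ‖c‖ < 1) : InHinf (gk c) := by
  refine ⟨InLinf.of_continuous (gk_continuous hc), fun n hn => ?_⟩
  have hc' : ‖conj c‖ < 1 := by simpa using hc
  have h1 : gk c = cj (ck (conj c)) := by
    ext x
    unfold gk ck cj
    simp
  rw [h1, fourierCoeff_cj]
  have h2 : fourierCoeff (ck (conj c)) (-n) = ext (fun x => fourier n x) (conj c) := by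
    rw [ext_eq (InLinf.of_continuous (fourier n).continuous) hc']
    unfold fourierCoeff
    simp
  rw [h2]
  have h3 : ext (fun x : Circ => (fourier n x : ℂ)) (conj c) = 0 := by
    unfold ext
    have h4 := fourierCoeff_fourier (T := (1 : ℝ)) n
    have h5 : ∀ k : ℕ, fourierCoeff (fun x : Circ => (fourier n x : ℂ)) (k : ℤ) * (conj c) ^ k = 0 := by
      intro k
      have h6 := congrFun h4 (k : ℤ)
      rw [h6, Pi.single_eq_of_ne (by omega), zero_mul]
    rw [tsum_congr h5, tsum_zero]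
  rw [h3, map_zero]

lemma ext_ee {w : ℂ} (hw : ‖w‖ < 1) : ext ee w = w := by
  have h := ext_ee_mul (InHinf.const 1) hw
  rw [ext_const, mul_one] at h
  simpa using h

lemma ext_gk {c w : ℂ} (hc : ‖c‖ < 1) (hw : ‖w‖ < 1) : ext (gk c) w = (1 - c * w)⁻¹ := by
  have h1 : InHinf (fun x => 1 - c * ee x) := (InHinf.const 1).sub (ee_inHinf.const_mul c)
  have h2 := ext_mul h1 (gk_inHinf hc) hw
  have h3 : (fun x => (1 - c * ee x) * gk c x) = fun _ => 1 := by
    ext x
    unfold gk
    exact mul_inv_cancel₀ (one_sub_mul_ee_ne hc x)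
  rw [h3, ext_const, ext_sub (InLinf.const 1) (ee_inHinf.const_mul c).1 hw, ext_const,
    ext_const_mul, ext_ee hw] at h2
  exact eq_inv_of_mul_eq_one_right h2.symm

/-- The Blaschke factor on the circle. -/
noncomputable def bl (a : ℂ) (x : Circ) : ℂ := (ee x - a) * gk (conj a) x

/-- The Blaschke factor on the disc. -/
noncomputable def bd (a w : ℂ) : ℂ := (w - a) / (1 - conj a * w)

lemma norm_conj_lt {a : ℂ} (ha : ‖a‖ < 1) : ‖conj a‖ < 1 := by simpa using ha

lemma bl_inHinf {a : ℂ} (ha : ‖a‖ < 1) : InHinf (bl a) :=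
  (ee_inHinf.sub (InHinf.const a)).mul (gk_inHinf (norm_conj_lt ha))

lemma ext_bl {a w : ℂ} (ha : ‖a‖ < 1) (hw : ‖w‖ < 1) : ext (bl a) w = bd a w := by
  have h := ext_mul (ee_inHinf.sub (InHinf.const a)) (gk_inHinf (norm_conj_lt ha)) hw
  rw [ext_gk (norm_conj_lt ha) hw, ext_sub ee_inHinf.1 (InLinf.const a) hw, ext_const,
    ext_ee hw] at h
  unfold bd bl
  rw [div_eq_mul_inv]
  exact h

lemma norm_bl {a : ℂ} (ha : ‖a‖ < 1) (x : Circ) : ‖bl a x‖ = 1 := by
  have h1 := one_sub_mul_ee_ne (norm_conj_lt ha) x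
  have h2 : ‖ee x - a‖ = ‖1 - conj a * ee x‖ := by
    have h3 : ee x - a = ee x * conj (1 - conj a * ee x) := by
      simp only [map_sub, map_one, map_mul, Complex.conj_conj]
      have := ee_mul_conj x
      linear_combination a * this
    rw [h3, norm_mul, norm_ee, one_mul, Complex.norm_conj]
  unfold bl gk
  rw [norm_mul, norm_inv, h2]
  exact mul_inv_cancel₀ (norm_ne_zero_iff.mpr h1)

lemma bl_mul_conj {a : ℂ} (ha : ‖a‖ < 1) (x : Circ) : bl a x * conj (bl a x) = 1 := by
  rw [Complex.mul_conj, Complex.normSq_eq_norm_sq, norm_bl ha]; norm_num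

lemma bl_continuous {a : ℂ} (ha : ‖a‖ < 1) : Continuous (bl a) :=
  (ee_continuous.sub continuous_const).mul (gk_continuous (norm_conj_lt ha))

/-- Division by a Blaschke factor. -/
lemma div_bl {v : Circ → ℂ} (hv : InHinf v) {a : ℂ} (ha : ‖a‖ < 1) (h0 : ext v a = 0) :
    InHinf (fun x => v x * conj (bl a x)) := by
  have h1 : InHinf (fun x => (1 - conj a * ee x) * dv v a x) :=
    ((InHinf.const 1).sub (ee_inHinf.const_mul (conj a))).mul (dv_inHinf hv ha)
  refine h1.congr (Filter.Eventually.of_forall fun x => ?_)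
  have h2 := dv_mul (v := v) ha x
  rw [h0, sub_zero] at h2
  have h3 := bl_mul_conj ha x
  have h4 := one_sub_mul_ee_ne (norm_conj_lt ha) x
  have h5 : bl a x * (1 - conj a * ee x) = ee x - a := by
    unfold bl gk
    rw [mul_assoc, inv_mul_cancel₀ h4, mul_one]
  simp only
  linear_combination -(1 - conj a * ee x) * dv v a x * h3 + (dv v a x * conj (bl a x)) * h5 +
    conj (bl a x) * h2

end Pool.Agent.Lib.MP_7a0cb1_an
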