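import Pool.Agent.Lib.MP_7a0cb1_an.Const

/-!
# Splitting into interpolating sequences
-/

open MeasureTheory AddCircle Filter Topology Metric
open scoped ENNReal ComplexConjugate

namespace Pool.Agent.Lib.MP_7a0cb1_an

open Classical in
/-- Greedy colouring. -/
lemma greedy {m : ℕ} (R : ℕ → ℕ → Prop)
    (h : ∀ k, ((Finset.range k).filter (fun l => R k l)).card < m) :
    ∃ col : ℕ → Fin m, ∀ k, ∀ l < k, R k l → col k ≠ col l := by
  have hm : 0 < m := (Nat.zero_le _).trans_lt (h 0)
  have hex : ∀ k (f : ∀ l, l < k → Fin m), ∃ c : Fin m, ∀ l (hl : l < k), R k l → c ≠ f l hl := by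
    intro k f
    let F : ℕ → Fin m := fun l => if hl : l < k then f l hl else ⟨0, hm⟩
    by_contra hcon
    push Not at hcon
    have h1 : (Finset.univ : Finset (Fin m)) ⊆ ((Finset.range k).filter (fun l => R k l)).image F := by
      intro c _
      obtain ⟨l, hl, hR, hc⟩ := hcon c
      rw [Finset.mem_image]
      refine ⟨l, by simp [hl, hR], ?_⟩
      simp only [F, dif_pos hl]
      exact hc.symm
    have h2 := Finset.card_le_card h1
    have h3 := Finset.card_image_le (s := (Finset.range k).filter (fun l => R k l)) (f := F)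
    have h4 := h k
    rw [Finset.card_univ, Fintype.card_fin] at h2
    omega
  let col : ℕ → Fin m := fun k => WellFounded.fix (C := fun _ => Fin m) Nat.lt_wfRel.wf
    (fun k ih => (hex k ih).choose) k
  refine ⟨col, fun k l hl hR => ?_⟩
  have h1 : col k = (hex k (fun l _ => col l)).choose := by
    show WellFounded.fix (C := fun _ => Fin m) Nat.lt_wfRel.wf
      (fun k ih => (hex k ih).choose) k = _
    rw [WellFounded.fix_eq]
  rw [h1]
  exact (hex k (fun l _ => col l)).choose_spec l hl hR

lemma rho_eq (z w : ℂ) : rho z w = ‖bd w z‖ := rfl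

lemma rho_symm (z w : ℂ) : rho z w = rho w z := by
  rw [rho_eq, rho_eq, norm_bd_symm]

lemma exp_le_of_half_le {t : ℝ} (h0 : 1 / 2 ≤ t) (h1 : t ≤ 1) :
    Real.exp (-(2 * (1 - t ^ 2))) ≤ t := by
  have ht : 0 < t := by linarith
  rw [← Real.le_log_iff_exp_le ht]
  refine le_trans ?_ (Real.one_sub_inv_le_log_of_pos ht)
  have h2 : t⁻¹ ≤ 1 + 2 * (1 - t) := by
    rw [inv_le_iff_one_le_mul₀ ht]
    nlinarith
  nlinarith

lemma multipliable_bfac {Z : Set ℂ} (hZ : ∀ a ∈ Z, ‖a‖ < 1)
    (hs : Summable (fun a : Z => 1 - ‖(a : ℂ)‖)) {z : ℂ} (hz : ‖z‖ < 1) :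
    Multipliable (fun a : Z => bfac a z) := by
  have h1 : Summable (fun a : Z => ‖bfac a z - 1‖) := by
    refine Summable.of_nonneg_of_le (fun n => norm_nonneg _) (fun a => ?_)
      (hs.mul_right (2 / (1 - ‖z‖)))
    rw [norm_sub_rev]
    exact norm_one_sub_bfac_le (hZ a a.2) hz
  have := multipliable_one_add_of_summable (f := fun a : Z => bfac a z - 1) h1
  simpa using this

open Classical in
theorem carleson_of_lowNear {I : Circ → ℂ} (hI : IsInner I) {δ : ℝ} (hδ : 0 < δ)
    (H : LowNear I δ) : CarlesonCondition I := by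
  set M : ℝ := 3 * (-(2 * Real.log δ)) with hM
  have hbound : ∀ a : ℂ, ‖a‖ < 1 → ∀ n, ∑ i ∈ Finset.range n, gd I i a ≤ M := fun a ha n =>
    sum_gd_unif hI hδ H ha n
  have hM0 : 0 ≤ M := by
    have := hbound 0 (by simp) 0
    simpa using this
  have hfin : ∀ a : ℂ, ‖a‖ < 1 → ∀ s : Finset ℕ, ∑ i ∈ s, gd I i a ≤ M := by
    intro a ha s
    obtain ⟨n, hn⟩ := s.exists_nat_subset_range
    exact (Finset.sum_le_sum_of_subset_of_nonneg hn (fun i _ _ => gd_nonneg hI i ha)).trans
      (hbound a ha n)
  let K : ℕ → Prop := fun n => HasZ (sq I n)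
  let a : ℕ → ℂ := fun n => zz (sq I n)
  have ha : ∀ n, K n → ‖a n‖ < 1 := fun n hn => (zz_spec (sq_inner hI n) hn).1.1
  have hgd : ∀ n z, K n → gd I n z = 1 - rho z (a n) ^ 2 := by
    intro n z hn
    unfold gd fac
    rw [if_pos hn, bfac_eq, norm_mul, norm_uc, one_mul]
    rfl
  have hrho : ∀ z w : ℂ, ‖z‖ < 1 → ‖w‖ < 1 → rho z w ≤ 1 := fun z w hz hw => (norm_bd_lt hw hz).le
  -- the colouring
  obtain ⟨m, hm⟩ := exists_nat_gt (4 / 3 * M)
  have hm0 : 0 < m := by
    have : (0 : ℝ) < m := by linarith [mul_nonneg (by norm_num : (0 : ℝ) ≤ 4 / 3) hM0]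
    exact_mod_cast this
  have hcard : ∀ k, ((Finset.range k).filter
      (fun l => K k ∧ K l ∧ rho (a k) (a l) < 1 / 2)).card < m := by
    intro k
    by_cases hk : K k
    · have h1 : ∑ i ∈ (Finset.range k).filter (fun l => K k ∧ K l ∧ rho (a k) (a l) < 1 / 2),
          (3 / 4 : ℝ) ≤ M := by
        refine le_trans (Finset.sum_le_sum fun i hi => ?_) (hfin (a k) (ha k hk) _)
        rw [Finset.mem_filter] at hi
        rw [hgd i _ hi.2.2.1]
        have h2 := hi.2.2.2
        have h3 : 0 ≤ rho (a k) (a i) := norm_nonneg _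
        nlinarith
      rw [Finset.sum_const, nsmul_eq_mul] at h1
      have h4 : (((Finset.range k).filter
          (fun l => K k ∧ K l ∧ rho (a k) (a l) < 1 / 2)).card : ℝ) < m := by linarith
      exact_mod_cast h4
    · have : (Finset.range k).filter (fun l => K k ∧ K l ∧ rho (a k) (a l) < 1 / 2) = ∅ := by
        apply Finset.filter_eq_empty_iff.mpr
        intro l _ hl
        exact hk hl.1
      rw [this]; simpa using hm0
  obtain ⟨col, hcol⟩ := greedy (m := m) (fun k l => K k ∧ K l ∧ rho (a k) (a l) < 1 / 2)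
    (fun k => by convert hcard k)
  have hsep : ∀ k l, k ≠ l → K k → K l → col k = col l → 1 / 2 ≤ rho (a k) (a l) := by
    intro k l hkl hk hl hc
    by_contra hlt
    push Not at hlt
    rcases lt_or_gt_of_ne hkl with h | h
    · exact hcol l k h ⟨hl, hk, by rwa [rho_symm]⟩ hc.symm
    · exact hcol k l h ⟨hk, hl, hlt⟩ hc
  have hinj : ∀ k l, K k → K l → col k = col l → a k = a l → k = l := by
    intro k l hk hl hc hal
    by_contra hne
    have h1 := hsep k l hne hk hl hc
    have h2 : rho (a k) (a l) = 0 := by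
      rw [hal, rho_eq, bd_self, norm_zero]
    linarith
  let Z : Fin m → Set ℂ := fun j => {b | ∃ k, K k ∧ col k = j ∧ a k = b}
  -- the index of a point
  have hidx : ∀ j, ∃ ι : Z j → ℕ, ∀ b : Z j, K (ι b) ∧ col (ι b) = j ∧ a (ι b) = b := by
    intro j
    have : ∀ b : Z j, ∃ k, K k ∧ col k = j ∧ a k = b := fun b => b.2
    choose ι hι using this
    exact ⟨ι, hι⟩
  have hInt : ∀ j, Interpolating (Z j) := by
    intro j
    obtain ⟨ι, hι⟩ := hidx j
    have hιinj : Function.Injective ι := by
      intro b c hbc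
      apply Subtype.ext
      rw [← (hι b).2.2, ← (hι c).2.2, hbc]
    refine ⟨?_, ?_, Real.exp (-(2 * M)), Real.exp_pos _, ?_⟩
    · rintro b ⟨k, hk, -, rfl⟩
      exact ha k hk
    · have h1 := (summable_en hI hδ H).comp_injective hιinj
      refine h1.congr fun b => ?_
      have h2 := hι b
      show en I (ι b) = 1 - ‖(b : ℂ)‖
      unfold en
      rw [if_pos h2.1]
      have h3 : zz (sq I (ι b)) = (b : ℂ) := h2.2.2
      rw [h3]
    · rintro b hb F hF
      obtain ⟨k, hk, hkj, hkb⟩ := id hb
      -- index function on all of the plane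
      let J : ℂ → ℕ := fun c => if hc : c ∈ Z j then ι ⟨c, hc⟩ else 0
      have hJ : ∀ c ∈ F, K (J c) ∧ col (J c) = j ∧ a (J c) = c := by
        intro c hc
        have hcZ : c ∈ Z j := (hF hc).1
        have := hι ⟨c, hcZ⟩
        simp only [J, dif_pos hcZ]
        exact this
      have hJinj : Set.InjOn J F := by
        intro c hc d hd hcd
        rw [← (hJ c hc).2.2, ← (hJ d hd).2.2, hcd]
      have hb1 : ‖b‖ < 1 := by rw [← hkb]; exact ha k hk
      have h1 : ∑ c ∈ F, (1 - rho b c ^ 2) ≤ M := by
        have h2 : ∑ c ∈ F, (1 - rho b c ^ 2) = ∑ i ∈ F.image J, gd I i b := by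
          rw [Finset.sum_image hJinj]
          apply Finset.sum_congr rfl
          intro c hc
          rw [hgd _ _ (hJ c hc).1, (hJ c hc).2.2]
        rw [h2]
        exact hfin b hb1 _
      calc Real.exp (-(2 * M)) ≤ Real.exp (∑ c ∈ F, -(2 * (1 - rho b c ^ 2))) := by
            rw [Real.exp_le_exp, Finset.sum_neg_distrib, ← Finset.mul_sum]
            linarith
        _ = ∏ c ∈ F, Real.exp (-(2 * (1 - rho b c ^ 2))) := Real.exp_sum _ _
        _ ≤ ∏ c ∈ F, rho b c := by
            apply Finset.prod_le_prod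
            · intro c _; exact (Real.exp_pos _).le
            · intro c hc
              have h3 := hJ c hc
              have hcb : c ≠ b := fun h => (hF hc).2 h
              have hne : k ≠ J c := by
                intro h
                apply hcb
                rw [← h3.2.2, ← h, hkb]
              have h4 := hsep k (J c) hne hk h3.1 (by rw [hkj, h3.2.1])
              rw [hkb, h3.2.2] at h4
              have hc1 : ‖c‖ < 1 := by rw [← h3.2.2]; exact ha _ h3.1
              exact exp_le_of_half_le h4 (hrho b c hb1 hc1)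
  refine ⟨m, Z, fun j z => ∏' b : Z j, bfac b z, Slim I 0, (Slim_const hI hδ H).1,
    fun j => ⟨hInt j, ?_⟩, ?_⟩
  · intro z hz
    exact (multipliable_bfac (hInt j).1 (hInt j).2.1 hz).hasProd
  · intro z hz
    rw [prod_fac hI hδ H hz]
    congr 1
    let f : Fin m → ℕ → ℂ := fun j n => if col n = j then fac I n z else 1
    have hf1 : ∀ n, fac I n z = ∏ j, f j n := by
      intro n
      simp only [f]
      rw [Finset.prod_ite_eq]
      simp
    have hs := summable_en hI hδ H
    have hmul : ∀ j ∈ (Finset.univ : Finset (Fin m)), Multipliable (f j) := by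
      intro j _
      have h1 : Summable (fun n => ‖f j n - 1‖) := by
        refine Summable.of_nonneg_of_le (fun n => norm_nonneg _) (fun n => ?_)
          (hs.mul_right (2 / (1 - ‖z‖)))
        simp only [f]
        split_ifs with h
        · rw [norm_sub_rev]
          exact norm_one_sub_fac_le hI n hz
        · rw [sub_self, norm_zero]
          have : 0 < 1 - ‖z‖ := by linarith
          exact mul_nonneg (en_nonneg hI n) (by positivity)
      have := multipliable_one_add_of_summable (f := fun n => f j n - 1) h1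
      simpa using this
    have h2 : ∏' n, fac I n z = ∏' n, ∏ j, f j n := tprod_congr hf1
    rw [h2, Multipliable.tprod_finsetProd hmul]
    apply Finset.prod_congr rfl
    intro j _
    obtain ⟨ι, hι⟩ := hidx j
    have hιinj : Function.Injective ι := by
      intro b c hbc
      apply Subtype.ext
      rw [← (hι b).2.2, ← (hι c).2.2, hbc]
    have h3 : Function.mulSupport (f j) ⊆ Set.range ι := by
      intro n hn
      rw [Function.mem_mulSupport] at hn
      simp only [f] at hn
      have hc : col n = j := by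
        by_contra hc
        rw [if_neg hc] at hn
        exact hn rfl
      rw [if_pos hc] at hn
      have hk : K n := by
        by_contra hk
        apply hn
        unfold fac
        rw [if_neg hk]
      have hmem : a n ∈ Z j := ⟨n, hk, hc, rfl⟩
      refine ⟨⟨a n, hmem⟩, ?_⟩
      have h4 := hι ⟨a n, hmem⟩
      exact hinj _ _ h4.1 hk (by rw [h4.2.1, hc]) h4.2.2
    rw [← hιinj.tprod_eq h3]
    apply tprod_congr
    intro b
    have h4 := hι b
    simp only [f]
    rw [if_pos h4.2.1]
    unfold fac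
    rw [if_pos h4.1]
    have h5 : zz (sq I (ι b)) = (b : ℂ) := h4.2.2
    rw [h5]

lemma inDb_of_invertible {I : Circ → ℂ} (hI : IsInner I) (h : InvertibleInDb I) :
    InDb (cj I) := by
  obtain ⟨g, ⟨u, m, hu, hm, hae⟩, hg⟩ := h
  refine ⟨u, m, hu, hm, ?_⟩
  filter_upwards [hae, hg, hI.2] with x h1 h2 h3
  rw [← h1]
  have h4 : conj (I x) * I x = 1 := by
    rw [mul_comm, Complex.mul_conj, Complex.normSq_eq_norm_sq, h3]; norm_num
  unfold cj
  linear_combination (-(conj (I x))) * h2 + g x * h4

/-- The main theorem. -/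
theorem invertible_carleson (I : Circ → ℂ) (hI : IsInner I) (h : InvertibleInDb I) :
    CarlesonCondition I := by
  obtain ⟨J, δ, hδ, H⟩ := partB hI (inLb_of_inDb (inDb_of_invertible hI h))
  obtain ⟨δ', hδ', H'⟩ := lower_near hI.1 hδ H
  exact carleson_of_lowNear hI hδ' H'

end Pool.Agent.Lib.MP_7a0cb1_an
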