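import Pool.Agent.Lib.MP_7a0cb1_an.Avg

/-!
# The zero-free factor is constant
-/

open MeasureTheory AddCircle Filter Topology Metric
open scoped ENNReal ComplexConjugate

namespace Pool.Agent.Lib.MP_7a0cb1_an

lemma LowNear.slim {I : Circ → ℂ} (hI : IsInner I) {δ : ℝ} (hδ : 0 < δ) (H : LowNear I δ) :
    ∀ a : ℂ, ‖a‖ < 1 → ∃ ζ : ℂ, ‖ζ‖ ≤ 1 / 2 ∧ δ ≤ ‖Slim I (mo a ζ)‖ := by
  intro a ha
  obtain ⟨ζ, hζ, h⟩ := H a ha
  refine ⟨ζ, hζ, h.trans ?_⟩
  exact norm_sq_le_Slim hI hδ H (norm_mo_lt ha (by linarith)) 0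

/-- The inequality for one radius. -/
lemma inv_Slim_le {I : Circ → ℂ} (hI : IsInner I) {δ : ℝ} (hδ : 0 < δ) (H : LowNear I δ) {c : ℝ}
    (hc : 0 < c) (hlow : ∀ a : ℂ, ‖a‖ < 1 → c ≤ ‖Slim I a‖) {r : ℝ} (hr0 : 0 ≤ r) (hr : r < 1) :
    ‖Slim I 0‖⁻¹ ≤ 1 + 1 / c * (1 - ∫ x : Circ, ‖ext I (r * ee x)‖ ^ 2 ∂mes) := by
  have hS := differentiableOn_Slim hI hδ H
  have hinv : DifferentiableOn ℂ (fun z => (Slim I z)⁻¹) (ball 0 1) :=
    hS.inv (fun z hz => Slim_ne_zero hI hδ H (by simpa using hz))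
  have h1 := integral_dil hinv hr0 hr
  rw [← norm_inv, ← h1]
  have hc1 := dil_continuous (differentiableOn_ext hI.1.1) hr0 hr
  have i1 : Integrable (fun x : Circ => ‖ext I (r * ee x)‖ ^ 2) mes :=
    integrable_of_cont (hc1.norm.pow 2)
  have i2 : Integrable (fun x : Circ => 1 - ‖ext I (r * ee x)‖ ^ 2) mes :=
    (integrable_const _).sub i1
  have i3 : Integrable (fun x : Circ => 1 + 1 / c * (1 - ‖ext I (r * ee x)‖ ^ 2)) mes :=
    (integrable_const _).add (i2.const_mul _)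
  calc ‖∫ x : Circ, (Slim I (r * ee x))⁻¹ ∂mes‖
      ≤ ∫ x : Circ, (1 + 1 / c * (1 - ‖ext I (r * ee x)‖ ^ 2)) ∂mes := by
        apply norm_integral_le_of_norm_le i3
        refine Eventually.of_forall fun x => ?_
        have hx := dil_mem hr0 hr x
        rw [mem_ball_zero_iff] at hx
        have e1 := hlow _ hx
        have e2 := norm_Slim_le hI hδ H hx
        have e3 : ‖ext I (r * ee x)‖ ≤ ‖Slim I (r * ee x)‖ := norm_sq_le_Slim hI hδ H hx 0
        have e4 := norm_nonneg (ext I (r * ee x))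
        rw [norm_inv]
        set s := ‖Slim I (r * ee x)‖
        set t := ‖ext I (r * ee x)‖
        have hs : 0 < s := hc.trans_le e1
        have e5 : s⁻¹ = 1 + 1 / s * (1 - s) := by field_simp; ring
        rw [e5]
        have e6 : 1 / s ≤ 1 / c := one_div_le_one_div_of_le hc e1
        have e7 : 1 - s ≤ 1 - t ^ 2 := by nlinarith
        have e8 : 0 ≤ 1 - s := by linarith
        have e9 : 1 / s * (1 - s) ≤ 1 / c * (1 - t ^ 2) :=
          mul_le_mul e6 e7 e8 (by positivity)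
        linarith
    _ = 1 + 1 / c * (1 - ∫ x : Circ, ‖ext I (r * ee x)‖ ^ 2 ∂mes) := by
        rw [integral_add (integrable_const _) (i2.const_mul _), integral_const_mul,
          integral_sub (integrable_const _) i1]
        simp

lemma one_le_norm_Slim {I : Circ → ℂ} (hI : IsInner I) {δ : ℝ} (hδ : 0 < δ) (H : LowNear I δ) :
    1 ≤ ‖Slim I 0‖ := by
  have hS := differentiableOn_Slim hI hδ H
  obtain ⟨c, hc, hlow⟩ := harnack hS (fun z hz => Slim_ne_zero hI hδ H (by simpa using hz))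
    (fun z hz => norm_Slim_le hI hδ H (by simpa using hz)) hδ (H.slim hI hδ)
  have h1 : ∀ N : ℕ, ∀ r : ℝ, r ∈ Set.Ico (0 : ℝ) 1 → ‖Slim I 0‖⁻¹ ≤
      1 + 1 / c * (1 - ∑ n ∈ Finset.range N, ‖fourierCoeff I (n : ℤ)‖ ^ 2 * r ^ (2 * n)) := by
    intro N r hr
    refine (inv_Slim_le hI hδ H hc hlow hr.1 hr.2).trans ?_
    have h2 := integral_normSq_ext hI.1 hr.1 hr.2
    have h3 : ∑ n ∈ Finset.range N, ‖fourierCoeff I (n : ℤ)‖ ^ 2 * r ^ (2 * n) ≤
        ∫ x : Circ, ‖ext I (r * ee x)‖ ^ 2 ∂mes := by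
      rw [← h2.tsum_eq]
      apply h2.summable.sum_le_tsum
      intro n _
      have := hr.1
      positivity
    gcongr
  have h4 : ∀ N : ℕ, ‖Slim I 0‖⁻¹ ≤
      1 + 1 / c * (1 - ∑ n ∈ Finset.range N, ‖fourierCoeff I (n : ℤ)‖ ^ 2) := by
    intro N
    have hcont : Continuous (fun r : ℝ =>
        1 + 1 / c * (1 - ∑ n ∈ Finset.range N, ‖fourierCoeff I (n : ℤ)‖ ^ 2 * r ^ (2 * n))) := by
      fun_prop
    have h5 : Tendsto (fun k : ℕ => 1 - 1 / ((k : ℝ) + 1)) atTop (𝓝 (1 - 0)) :=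
      tendsto_const_nhds.sub tendsto_one_div_add_atTop_nhds_zero_nat
    rw [sub_zero] at h5
    have h6 := (hcont.tendsto 1).comp h5
    simp only [one_pow, mul_one] at h6
    refine ge_of_tendsto h6 (Eventually.of_forall fun k => ?_)
    apply h1 N
    constructor
    · have : 1 / ((k : ℝ) + 1) ≤ 1 := by
        rw [div_le_one (by positivity)]
        have : (0 : ℝ) ≤ k := Nat.cast_nonneg k
        linarith
      linarith
    · have : 0 < 1 / ((k : ℝ) + 1) := by positivity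
      linarith
  have h7 := hasSum_normSq_coeff hI.1
  rw [hI.integral_eq] at h7
  have h8 : Tendsto (fun N : ℕ =>
      1 + 1 / c * (1 - ∑ n ∈ Finset.range N, ‖fourierCoeff I (n : ℤ)‖ ^ 2)) atTop
      (𝓝 (1 + 1 / c * (1 - 1))) :=
    tendsto_const_nhds.add ((tendsto_const_nhds.sub h7.tendsto_sum_nat).const_mul _)
  have h9 := ge_of_tendsto h8 (Eventually.of_forall h4)
  rw [sub_self, mul_zero, add_zero] at h9
  have h10 : 0 < ‖Slim I 0‖ := norm_pos_iff.mpr (Slim_ne_zero hI hδ H (by simp))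
  exact (inv_le_one₀ h10).mp h9

theorem Slim_const {I : Circ → ℂ} (hI : IsInner I) {δ : ℝ} (hδ : 0 < δ) (H : LowNear I δ) :
    ‖Slim I 0‖ = 1 ∧ ∀ z : ℂ, ‖z‖ < 1 → Slim I z = Slim I 0 := by
  have h1 := one_le_norm_Slim hI hδ H
  have h2 : ‖Slim I 0‖ ≤ 1 := norm_Slim_le hI hδ H (by simp)
  refine ⟨le_antisymm h2 h1, ?_⟩
  intro z hz
  have h3 := Complex.eqOn_of_isPreconnected_of_isMaxOn_norm (convex_ball (0 : ℂ) 1).isPreconnected
    isOpen_ball (differentiableOn_Slim hI hδ H) (by simp : (0 : ℂ) ∈ ball (0 : ℂ) 1) (by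
      intro w hw
      rw [mem_ball_zero_iff] at hw
      show ‖Slim I w‖ ≤ ‖Slim I 0‖
      exact (norm_Slim_le hI hδ H hw).trans h1)
  exact h3 (by rwa [mem_ball_zero_iff])

/-- The factorisation. -/
theorem prod_fac {I : Circ → ℂ} (hI : IsInner I) {δ : ℝ} (hδ : 0 < δ) (H : LowNear I δ) {z : ℂ}
    (hz : ‖z‖ < 1) : ext I z = Slim I 0 * ∏' n, fac I n z := by
  have hs := summable_en hI hδ H
  have h1 : Summable (fun n => ‖fac I n z - 1‖) := by
    refine Summable.of_nonneg_of_le (fun n => norm_nonneg _) (fun n => ?_)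
      (hs.mul_right (2 / (1 - ‖z‖)))
    rw [norm_sub_rev]
    exact norm_one_sub_fac_le hI n hz
  have h2 : Multipliable (fun n => fac I n z) := by
    have := multipliable_one_add_of_summable (f := fun n => fac I n z - 1) h1
    simpa using this
  have h3 := h2.hasProd.tendsto_prod_nat
  have h4 := h3.mul (tendsto_Slim hI hδ H hz)
  have h5 : (fun n => (∏ i ∈ Finset.range n, fac I i z) * ext (sq I n) z) = fun _ => ext I z := by
    funext n
    exact (ext_eq_prod hI n hz).symm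
  rw [h5] at h4
  have h6 := tendsto_nhds_unique h4 tendsto_const_nhds
  rw [(Slim_const hI hδ H).2 z hz] at h6
  rw [← h6, mul_comm]

end Pool.Agent.Lib.MP_7a0cb1_an
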