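import Mathlib

/-!
# Definitions for MP_7a0cb1_an (inner functions invertible in the Douglas algebra `D_b`)

The unit circle is modelled by `UnitAddCircle = ℝ / ℤ` (the point `x` corresponds to
`exp (2 π i x)`) with its normalised Lebesgue measure.  Functions on the circle are considered up
to almost everywhere equality.
-/

open MeasureTheory AddCircle
open scoped ENNReal ComplexConjugate

namespace Pool.Agent.Lib.MP_7a0cb1_an

/-- The circle. -/
abbrev Circ : Type := UnitAddCircle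

/-- Normalised Lebesgue measure on the circle. -/
noncomputable abbrev mes : Measure Circ := haarAddCircle

/-- `f ∈ L^∞`: `f` is measurable and essentially bounded. -/
def InLinf (f : Circ → ℂ) : Prop := MemLp f ∞ mes

/-- `f ∈ H^∞`: `f ∈ L^∞` and all Fourier coefficients of negative index vanish. -/
def InHinf (f : Circ → ℂ) : Prop := InLinf f ∧ ∀ n : ℤ, n < 0 → fourierCoeff f n = 0

/-- The complex conjugate of a function. -/
def cj (f : Circ → ℂ) : Circ → ℂ := fun x => conj (f x)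

/-- `f ∈ L_b^∞`: `f ∈ L^∞` lies in the closure of `H^∞ + conj H^∞` for the norm of `L^∞`. -/
def InLb (f : Circ → ℂ) : Prop :=
  InLinf f ∧ ∀ ε : ℝ, 0 < ε → ∃ u v : Circ → ℂ, InHinf u ∧ InHinf v ∧
    ∀ᵐ x ∂mes, ‖f x - (u x + cj v x)‖ ≤ ε

/-- `f ∈ Mult(L_b^∞)`: `f ∈ L^∞` and `f g ∈ L_b^∞` for all `g ∈ L_b^∞`. -/
def InMult (f : Circ → ℂ) : Prop := InLinf f ∧ ∀ g : Circ → ℂ, InLb g → InLb (fun x => f x * g x)

/-- `f ∈ D_b = H^∞ + Mult(L_b^∞)`. -/
def InDb (f : Circ → ℂ) : Prop :=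
  ∃ h m : Circ → ℂ, InHinf h ∧ InMult m ∧ f =ᵐ[mes] fun x => h x + m x

/-- `I` is an inner function. -/
def IsInner (I : Circ → ℂ) : Prop := InHinf I ∧ ∀ᵐ x ∂mes, ‖I x‖ = 1

/-- `f` is invertible in the algebra `D_b`: some `g ∈ D_b` satisfies `f g = 1`.  For an inner
function `f` this says that `conj f ∈ D_b`. -/
def InvertibleInDb (f : Circ → ℂ) : Prop :=
  ∃ g : Circ → ℂ, InDb g ∧ ∀ᵐ x ∂mes, f x * g x = 1

/-- The analytic extension to the disc of `f ∈ H^∞`: `f(z) = ∑ f^(n) z^n`. -/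
noncomputable def ext (f : Circ → ℂ) (z : ℂ) : ℂ := ∑' n : ℕ, fourierCoeff f (n : ℤ) * z ^ n

/-- The pseudohyperbolic distance. -/
noncomputable def rho (z w : ℂ) : ℝ := ‖(z - w) / (1 - conj w * z)‖

/-- The normalised Blaschke factor with zero `a`: `(|a| / a) (a - z) / (1 - conj a z)`, which is
read as `z` when `a = 0`. -/
noncomputable def bfac (a z : ℂ) : ℂ :=
  if a = 0 then z else (‖a‖ : ℂ) / a * ((a - z) / (1 - conj a * z))

/-- `B` is the Blaschke product with the set of (simple) zeros `Z`: at every point `z` of the disc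
the product of the factors `bfac a z`, `a ∈ Z`, converges unconditionally to `B z`. -/
def IsBlaschkeProduct (Z : Set ℂ) (B : ℂ → ℂ) : Prop :=
  ∀ z : ℂ, ‖z‖ < 1 → HasProd (fun a : Z => bfac a z) (B z)

/-- `Z` is the zero set of an interpolating Blaschke product: `Z` lies in the disc, satisfies the
Blaschke condition, and `inf_{a ∈ Z} ∏_{b ∈ Z, b ≠ a} rho a b > 0` (all finite subproducts are
bounded below by one `δ > 0`). -/
def Interpolating (Z : Set ℂ) : Prop :=
  (∀ a ∈ Z, ‖a‖ < 1) ∧ Summable (fun a : Z => 1 - ‖(a : ℂ)‖) ∧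
    ∃ δ : ℝ, 0 < δ ∧ ∀ a ∈ Z, ∀ F : Finset ℂ, (F : Set ℂ) ⊆ Z \ {a} → δ ≤ ∏ b ∈ F, rho a b

/-- `I` satisfies the Carleson condition: up to a unimodular constant `I` is a finite product of
interpolating Blaschke products. -/
def CarlesonCondition (I : Circ → ℂ) : Prop :=
  ∃ (m : ℕ) (Z : Fin m → Set ℂ) (B : Fin m → ℂ → ℂ) (c : ℂ), ‖c‖ = 1 ∧
    (∀ j, Interpolating (Z j) ∧ IsBlaschkeProduct (Z j) (B j)) ∧
    ∀ z : ℂ, ‖z‖ < 1 → ext I z = c * ∏ j, B j z

end Pool.Agent.Lib.MP_7a0cb1_an
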