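import Pool.Agent.Lib.MP_7a0cb1_an.HInf

/-!
# Multiplication and evaluation in `H^∞`
-/

open MeasureTheory AddCircle
open scoped ENNReal ComplexConjugate

namespace Pool.Agent.Lib.MP_7a0cb1_an

/-- The coordinate function on the circle. -/
noncomputable def ee (x : Circ) : ℂ := fourier 1 x

lemma ee_continuous : Continuous ee := (fourier 1).continuous

lemma norm_ee (x : Circ) : ‖ee x‖ = 1 := by
  unfold ee; rw [fourier_one]; exact Circle.norm_coe _

lemma ee_mul_conj (x : Circ) : ee x * conj (ee x) = 1 := by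
  rw [Complex.mul_conj, Complex.normSq_eq_norm_sq, norm_ee]; norm_num

lemma ee_ne_zero (x : Circ) : ee x ≠ 0 := by
  intro h
  have := norm_ee x
  rw [h, norm_zero] at this
  norm_num at this

lemma fourier_nat (n : ℕ) (x : Circ) : fourier (n : ℤ) x = ee x ^ n := by
  induction n with
  | zero => simp
  | succ n ih =>
    have : ((n + 1 : ℕ) : ℤ) = (n : ℤ) + 1 := by push_cast; ring
    rw [this, fourier_add, ih, pow_succ]
    rfl

lemma fourierCoeff_shift (f : Circ → ℂ) (k n : ℤ) :
    fourierCoeff (fun x => fourier k x * f x) n = fourierCoeff f (n - k) := by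
  unfold fourierCoeff
  congr 1
  ext x
  have : -(n - k) = -n + k := by ring
  rw [this, fourier_add]
  simp [mul_assoc]

lemma InHinf.inf {f : Circ → ℂ} (h : InHinf f) : InLinf f := h.1

lemma InHinf.congr {f g : Circ → ℂ} (hf : InHinf f) (h : f =ᵐ[mes] g) : InHinf g :=
  ⟨hf.1.congr h, fun n hn => by rw [← congrFun (fourierCoeff_congr_ae h)]; exact hf.2 n hn⟩

lemma fourierCoeff_add' {f g : Circ → ℂ} (hf : InLinf f) (hg : InLinf g) (n : ℤ) :
    fourierCoeff (fun x => f x + g x) n = fourierCoeff f n + fourierCoeff g n := by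
  have := congrFun (fourierCoeff.add hf.integrable hg.integrable) n
  rw [Pi.add_apply] at this
  exact this

lemma fourierCoeff_const_mul' (f : Circ → ℂ) (c : ℂ) (n : ℤ) :
    fourierCoeff (fun x => c * f x) n = c * fourierCoeff f n := by
  have := fourierCoeff.const_mul f c n
  simpa using this

lemma InHinf.add {f g : Circ → ℂ} (hf : InHinf f) (hg : InHinf g) :
    InHinf (fun x => f x + g x) :=
  ⟨hf.1.add hg.1, fun n hn => by
    rw [fourierCoeff_add' hf.1 hg.1, hf.2 n hn, hg.2 n hn, add_zero]⟩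

lemma InHinf.const_mul {f : Circ → ℂ} (hf : InHinf f) (c : ℂ) : InHinf (fun x => c * f x) :=
  ⟨(InLinf.const c).mul hf.1, fun n hn => by
    rw [fourierCoeff_const_mul', hf.2 n hn, mul_zero]⟩

lemma InHinf.sub {f g : Circ → ℂ} (hf : InHinf f) (hg : InHinf g) :
    InHinf (fun x => f x - g x) := by
  have := hf.add (hg.const_mul (-1))
  refine this.congr (Filter.Eventually.of_forall fun x => ?_)
  simp only
  ring

lemma InHinf.const (c : ℂ) : InHinf (fun _ => c) := by
  refine ⟨InLinf.const c, fun n hn => ?_⟩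
  have h : (fun _ : Circ => c) = fun x => c * (fourier 0 x) := by
    ext x; simp
  rw [h, fourierCoeff_const_mul']
  have h2 := fourierCoeff_fourier (T := (1 : ℝ)) 0
  have h3 := congrFun h2 n
  rw [h3]
  rw [Pi.single_eq_of_ne hn.ne, mul_zero]

lemma InHinf.mul {f g : Circ → ℂ} (hf : InHinf f) (hg : InHinf g) :
    InHinf (fun x => f x * g x) := by
  refine ⟨hf.1.mul hg.1, fun n hn => ?_⟩
  have h1 : fourierCoeff (fun x => f x * g x) n = ∫ x, f x * (fourier (-n) x * g x) ∂mes := by
    unfold fourierCoeff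
    congr 1
    ext x
    simp only [smul_eq_mul]
    ring
  have h2 : InLinf (fun x : Circ => fourier (-n) x * g x) :=
    (InLinf.of_continuous (fourier (-n)).continuous).mul hg.1
  have h3 := parseval hf.1 h2
  rw [h1]
  refine HasSum.unique h3 ?_
  have : (fun i : ℤ => fourierCoeff f (-i) *
      fourierCoeff (fun x : Circ => fourier (-n) x * g x) i) = fun _ => 0 := by
    funext i
    rw [fourierCoeff_shift]
    rcases le_or_gt i 0 with h | h
    · rw [hg.2 (i - -n) (by omega), mul_zero]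
    · rw [hf.2 (-i) (by omega), zero_mul]
  rw [this]
  exact hasSum_zero

lemma ee_inHinf : InHinf ee := by
  refine ⟨InLinf.of_continuous ee_continuous, fun n hn => ?_⟩
  have h2 := fourierCoeff_fourier (T := (1 : ℝ)) 1
  have h3 := congrFun h2 n
  unfold ee
  rw [h3, Pi.single_eq_of_ne (by omega)]

lemma InHinf.pow {f : Circ → ℂ} (hf : InHinf f) (k : ℕ) : InHinf (fun x => f x ^ k) := by
  induction k with
  | zero => simpa using InHinf.const 1
  | succ k ih => simpa [pow_succ] using ih.mul hf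

/-- The Cauchy kernel `1 / (1 - w conj(e))`. -/
noncomputable def ck (w : ℂ) (x : Circ) : ℂ := (1 - w * conj (ee x))⁻¹

lemma one_sub_ne {w : ℂ} (hw : ‖w‖ < 1) {z : ℂ} (hz : ‖z‖ ≤ 1) : 1 - w * z ≠ 0 := by
  intro h
  have h1 : w * z = 1 := (sub_eq_zero.mp h).symm
  have h2 : ‖w * z‖ < 1 := by
    rw [norm_mul]
    calc ‖w‖ * ‖z‖ ≤ ‖w‖ * 1 := mul_le_mul_of_nonneg_left hz (norm_nonneg _)
      _ < 1 := by rw [mul_one]; exact hw
  rw [h1] at h2
  simp at h2

lemma ck_continuous {w : ℂ} (hw : ‖w‖ < 1) : Continuous (ck w) := by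
  unfold ck
  refine Continuous.inv₀ ?_ (fun x => one_sub_ne hw (by simp [norm_ee]))
  exact continuous_const.sub (continuous_const.mul (Complex.continuous_conj.comp ee_continuous))

lemma fourier_neg_nat (n : ℕ) (x : Circ) : fourier (-(n : ℤ)) x = conj (ee x) ^ n := by
  rw [fourier_neg, fourier_nat, map_pow]

lemma hasSum_ck {w : ℂ} (hw : ‖w‖ < 1) (x : Circ) :
    HasSum (fun n : ℕ => w ^ n * fourier (-(n : ℤ)) x) (ck w x) := by
  have h : ‖w * conj (ee x)‖ < 1 := by simpa [norm_ee] using hw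
  have h1 := hasSum_geometric_of_norm_lt_one h
  have h2 : (fun n : ℕ => w ^ n * fourier (-(n : ℤ)) x) = fun n => (w * conj (ee x)) ^ n := by
    funext n
    rw [fourier_neg_nat, mul_pow]
  rw [h2]
  exact h1

/-- Evaluation as an integral against the Cauchy kernel. -/
lemma hasSum_ext {f : Circ → ℂ} (hf : InLinf f) {w : ℂ} (hw : ‖w‖ < 1) :
    HasSum (fun n : ℕ => fourierCoeff f (n : ℤ) * w ^ n) (∫ x, f x * ck w x ∂mes) := by
  have h1 : ∀ n : ℕ, Integrable (fun x => f x * (w ^ n * fourier (-(n : ℤ)) x)) mes := by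
    intro n
    exact (hf.mul ((InLinf.const _).mul
      (InLinf.of_continuous (fourier (-(n : ℤ))).continuous))).integrable
  obtain ⟨C, hC0, hC⟩ := hf.bound
  have h2 : Summable (fun n : ℕ => ∫ x, ‖f x * (w ^ n * fourier (-(n : ℤ)) x)‖ ∂mes) := by
    refine Summable.of_nonneg_of_le (fun n => integral_nonneg (fun x => norm_nonneg _)) ?_
      ((summable_geometric_of_lt_one (norm_nonneg w) hw).mul_left C)
    intro n
    calc ∫ x, ‖f x * (w ^ n * fourier (-(n : ℤ)) x)‖ ∂mes ≤ ∫ _x, C * ‖w‖ ^ n ∂mes := by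
          apply integral_mono_ae (h1 n).norm (integrable_const _)
          filter_upwards [hC] with x hx
          rw [norm_mul, norm_mul, norm_pow, fourier_neg_nat, norm_pow]
          have : ‖conj (ee x)‖ = 1 := by simp [norm_ee]
          rw [this, one_pow, mul_one]
          exact mul_le_mul_of_nonneg_right hx (by positivity)
      _ = C * ‖w‖ ^ n := by simp
  have h3 := hasSum_integral_of_summable_integral_norm h1 h2
  have h4 : (∫ x, ∑' n : ℕ, f x * (w ^ n * fourier (-(n : ℤ)) x) ∂mes) =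
      ∫ x, f x * ck w x ∂mes := by
    congr 1
    ext x
    exact ((hasSum_ck hw x).mul_left (f x)).tsum_eq
  rw [h4] at h3
  have h5 : (fun n : ℕ => fourierCoeff f (n : ℤ) * w ^ n) =
      fun n : ℕ => ∫ x, f x * (w ^ n * fourier (-(n : ℤ)) x) ∂mes := by
    funext n
    unfold fourierCoeff
    rw [← integral_mul_const]
    congr 1
    ext x
    simp only [smul_eq_mul]
    ring
  rw [h5]
  exact h3

lemma ext_eq {f : Circ → ℂ} (hf : InLinf f) {w : ℂ} (hw : ‖w‖ < 1) :
    ext f w = ∫ x, f x * ck w x ∂mes := (hasSum_ext hf hw).tsum_eq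

lemma ext_congr {f g : Circ → ℂ} (h : f =ᵐ[mes] g) (w : ℂ) : ext f w = ext g w := by
  unfold ext
  rw [fourierCoeff_congr_ae h]

lemma ext_add {f g : Circ → ℂ} (hf : InLinf f) (hg : InLinf g) {w : ℂ} (hw : ‖w‖ < 1) :
    ext (fun x => f x + g x) w = ext f w + ext g w := by
  have h1 := (hasSum_ext hf hw).add (hasSum_ext hg hw)
  rw [ext_eq hf hw, ext_eq hg hw, ← h1.tsum_eq]
  unfold ext
  congr 1
  funext n
  rw [fourierCoeff_add' hf hg]; ring

lemma ext_const_mul (f : Circ → ℂ) (c : ℂ) (w : ℂ) :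
    ext (fun x => c * f x) w = c * ext f w := by
  unfold ext
  rw [← tsum_mul_left]
  congr 1
  funext n
  rw [fourierCoeff_const_mul']; ring

lemma ext_sub {f g : Circ → ℂ} (hf : InLinf f) (hg : InLinf g) {w : ℂ} (hw : ‖w‖ < 1) :
    ext (fun x => f x - g x) w = ext f w - ext g w := by
  have h : (fun x => f x - g x) = fun x => f x + (-1) * g x := by ext x; ring
  rw [h, ext_add hf ((InLinf.const _).mul hg) hw, ext_const_mul]; ring

lemma fourierCoeff_const (c : ℂ) (n : ℤ) :
    fourierCoeff (fun _ : Circ => c) n = if n = 0 then c else 0 := by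
  have h : (fun _ : Circ => c) = fun x => c * (fourier 0 x) := by
    ext x; simp
  rw [h, fourierCoeff_const_mul']
  have h2 := fourierCoeff_fourier (T := (1 : ℝ)) 0
  have h3 := congrFun h2 n
  rw [h3]
  split_ifs with hn
  · rw [hn, Pi.single_eq_same, mul_one]
  · rw [Pi.single_eq_of_ne hn, mul_zero]

lemma ext_const (c w : ℂ) : ext (fun _ => c) w = c := by
  unfold ext
  rw [tsum_eq_single 0]
  · rw [fourierCoeff_const]; simp
  · intro n hn
    rw [fourierCoeff_const, if_neg (by exact_mod_cast hn), zero_mul]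

/-- Multiplication by a power of the coordinate. -/
lemma ext_ee_mul {v : Circ → ℂ} (hv : InHinf v) {w : ℂ} (hw : ‖w‖ < 1) :
    ext (fun x => ee x * v x) w = w * ext v w := by
  have h1 := hasSum_ext hv.1 hw
  have h2 := hasSum_ext (ee_inHinf.1.mul hv.1) hw
  have hc : ∀ n : ℤ, fourierCoeff (fun x => ee x * v x) n = fourierCoeff v (n - 1) :=
    fun n => fourierCoeff_shift v 1 n
  have h3 : HasSum (fun n : ℕ => fourierCoeff (fun x => ee x * v x) ((n + 1 : ℕ) : ℤ) * w ^ (n + 1))
      (w * ext v w) := by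
    have h4 : (fun n : ℕ => fourierCoeff (fun x => ee x * v x) ((n + 1 : ℕ) : ℤ) * w ^ (n + 1)) =
        fun n : ℕ => w * (fourierCoeff v (n : ℤ) * w ^ n) := by
      funext n
      rw [hc]
      have : ((n + 1 : ℕ) : ℤ) - 1 = n := by push_cast; ring
      rw [this, pow_succ]; ring
    rw [h4, ext_eq hv.1 hw]
    exact h1.mul_left w
  have h5 := (hasSum_nat_add_iff' (f := fun n : ℕ => fourierCoeff (fun x => ee x * v x) (n : ℤ) * w ^ n)
    1).mpr h2
  have h6 := h5.unique h3
  rw [ext_eq (ee_inHinf.1.mul hv.1) hw]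
  have h7 : fourierCoeff (fun x => ee x * v x) ((0 : ℕ) : ℤ) = 0 := by
    rw [hc]; exact hv.2 _ (by norm_num)
  simp only [Finset.range_one, Finset.sum_singleton, h7, zero_mul, sub_zero] at h6
  exact h6

lemma InHinf.ee_pow_mul {v : Circ → ℂ} (hv : InHinf v) (k : ℕ) :
    InHinf (fun x => ee x ^ k * v x) := (ee_inHinf.pow k).mul hv

lemma ext_ee_pow_mul {v : Circ → ℂ} (hv : InHinf v) (k : ℕ) {w : ℂ} (hw : ‖w‖ < 1) :
    ext (fun x => ee x ^ k * v x) w = w ^ k * ext v w := by
  induction k with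
  | zero => simp
  | succ k ih =>
    have h : (fun x => ee x ^ (k + 1) * v x) = fun x => ee x * (ee x ^ k * v x) := by
      ext x; ring
    rw [h, ext_ee_mul (hv.ee_pow_mul k) hw, ih]; ring

/-- Division by `e - w`. -/
noncomputable def dv (v : Circ → ℂ) (w : ℂ) (x : Circ) : ℂ := (v x - ext v w) * (conj (ee x) * ck w x)

lemma ck_mul {w : ℂ} (hw : ‖w‖ < 1) (x : Circ) : (ee x - w) * (conj (ee x) * ck w x) = 1 := by
  unfold ck
  have h := one_sub_ne hw (z := conj (ee x)) (by simp [norm_ee])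
  field_simp
  have := ee_mul_conj x
  linear_combination this

lemma dv_mul {v : Circ → ℂ} {w : ℂ} (hw : ‖w‖ < 1) (x : Circ) :
    (ee x - w) * dv v w x = v x - ext v w := by
  unfold dv
  have := ck_mul hw x
  linear_combination (v x - ext v w) * this

lemma dv_inHinf {v : Circ → ℂ} (hv : InHinf v) {w : ℂ} (hw : ‖w‖ < 1) : InHinf (dv v w) := by
  have hvv : InHinf (fun x => v x - ext v w) := hv.sub (InHinf.const _)
  have hck : InLinf (ck w) := InLinf.of_continuous (ck_continuous hw)
  refine ⟨hvv.1.mul (ee_inHinf.1.cj.mul hck), fun n hn => ?_⟩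
  obtain ⟨k, rfl⟩ : ∃ k : ℕ, n = -((k : ℤ) + 1) := ⟨(-n - 1).toNat, by omega⟩
  have h1 : fourierCoeff (dv v w) (-((k : ℤ) + 1)) =
      ∫ x, (ee x ^ k * (v x - ext v w)) * ck w x ∂mes := by
    unfold fourierCoeff
    congr 1
    ext x
    rw [neg_neg, fourier_add, fourier_nat]
    unfold dv
    simp only [smul_eq_mul]
    have h2 : (fourier 1 x : ℂ) = ee x := rfl
    rw [h2]
    have := ee_mul_conj x
    linear_combination (ee x ^ k * (v x - ext v w) * ck w x) * this
  rw [h1, ← ext_eq (hvv.ee_pow_mul k).1 hw, ext_ee_pow_mul hvv k hw, ext_sub hv.1 (InLinf.const _) hw,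
    ext_const, sub_self, mul_zero]

lemma ext_mul {u v : Circ → ℂ} (hu : InHinf u) (hv : InHinf v) {w : ℂ} (hw : ‖w‖ < 1) :
    ext (fun x => u x * v x) w = ext u w * ext v w := by
  have hck : InLinf (ck w) := InLinf.of_continuous (ck_continuous hw)
  have hd := dv_inHinf hv hw
  have h0 : ∫ x, (u x * dv v w x) * ee x ∂mes = 0 := by
    have h1 := (hu.mul hd).2 (-1) (by norm_num)
    unfold fourierCoeff at h1
    rw [neg_neg] at h1
    rw [← h1]
    congr 1
    ext x
    simp only [smul_eq_mul]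
    unfold ee
    ring
  rw [ext_eq (hu.mul hv).1 hw, ext_eq hu.1 hw, ← integral_mul_const]
  rw [← sub_eq_zero, ← integral_sub ((hu.mul hv).1.mul hck).integrable
    (((hu.1.mul hck).mul (InLinf.const _)).integrable), ← h0]
  congr 1
  ext x
  have h2 := dv_mul (v := v) hw x
  have h3 := ck_mul hw x
  have h4 := ee_mul_conj x
  have h5 : ck w x * (ee x - w) = ee x := by
    linear_combination (ee x) * h3 - (ee x - w) * ck w x * h4
  linear_combination (-(u x * ck w x)) * h2 + u x * dv v w x * h5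

end Pool.Agent.Lib.MP_7a0cb1_an
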