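import Pool.Agent.Lib.MP_7a0cb1_an.PartB2

/-!
# Factorisation
-/

open MeasureTheory AddCircle Filter Topology Metric
open scoped ENNReal ComplexConjugate

namespace Pool.Agent.Lib.MP_7a0cb1_an

/-- The normalising constant of the Blaschke factor. -/
noncomputable def uc (a : ℂ) : ℂ := if a = 0 then 1 else -((‖a‖ : ℂ) / a)

lemma norm_uc (a : ℂ) : ‖uc a‖ = 1 := by
  unfold uc
  split_ifs with h
  · simp
  · rw [norm_neg, norm_div, Complex.norm_real, norm_norm]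
    exact div_self (norm_ne_zero_iff.mpr h)

lemma bfac_eq (a z : ℂ) : bfac a z = uc a * bd a z := by
  unfold bfac uc bd
  split_ifs with h
  · simp [h]
  · rw [show (a - z) = -(z - a) by ring]
    ring

/-- The boundary function of the normalised Blaschke factor. -/
noncomputable def bfc (a : ℂ) (x : Circ) : ℂ := uc a * bl a x

lemma norm_bfc {a : ℂ} (ha : ‖a‖ < 1) (x : Circ) : ‖bfc a x‖ = 1 := by
  unfold bfc
  rw [norm_mul, norm_uc, norm_bl ha, one_mul]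

lemma bfc_inHinf {a : ℂ} (ha : ‖a‖ < 1) : InHinf (bfc a) := (bl_inHinf ha).const_mul _

lemma ext_bfc {a z : ℂ} (ha : ‖a‖ < 1) (hz : ‖z‖ < 1) : ext (bfc a) z = bfac a z := by
  rw [bfac_eq, ← ext_bl ha hz, ← ext_const_mul]
  rfl

/-- Division of an inner function by a Blaschke factor. -/
lemma inner_div {v : Circ → ℂ} (hv : IsInner v) {a : ℂ} (ha : ‖a‖ < 1) (h0 : ext v a = 0) :
    IsInner (fun x => v x * conj (bfc a x)) := by
  refine ⟨?_, ?_⟩
  · have h := (div_bl hv.1 ha h0).const_mul (conj (uc a))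
    refine h.congr (Eventually.of_forall fun x => ?_)
    simp only [bfc, map_mul]
    ring
  · filter_upwards [hv.2] with x hx
    rw [norm_mul, Complex.norm_conj, norm_bfc ha, hx, one_mul]

lemma ext_inner_div {v : Circ → ℂ} (hv : IsInner v) {a : ℂ} (ha : ‖a‖ < 1) (h0 : ext v a = 0)
    {z : ℂ} (hz : ‖z‖ < 1) :
    ext v z = bfac a z * ext (fun x => v x * conj (bfc a x)) z := by
  rw [← ext_bfc ha hz, ← ext_mul (bfc_inHinf ha) (inner_div hv ha h0).1 hz]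
  congr 1
  ext x
  have h1 : bfc a x * conj (bfc a x) = 1 := by
    rw [Complex.mul_conj, Complex.normSq_eq_norm_sq, norm_bfc ha]; norm_num
  linear_combination (-(v x)) * h1

/-- There is a zero in the disc. -/
def HasZ (v : Circ → ℂ) : Prop := ∃ z : ℂ, ‖z‖ < 1 ∧ ext v z = 0

lemma exists_min_zero {v : Circ → ℂ} (hv : IsInner v) (h : HasZ v) :
    ∃ a : ℂ, (‖a‖ < 1 ∧ ext v a = 0) ∧ ∀ z : ℂ, ‖z‖ < 1 → ext v z = 0 → ‖a‖ ≤ ‖z‖ := by
  obtain ⟨z0, hz0, h0⟩ := h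
  have hsub : closedBall (0 : ℂ) ‖z0‖ ⊆ ball 0 1 := closedBall_subset_ball hz0
  have hcont : ContinuousOn (ext v) (closedBall 0 ‖z0‖) :=
    ((differentiableOn_ext hv.1.1).mono hsub).continuousOn
  have hcl : IsClosed (closedBall (0 : ℂ) ‖z0‖ ∩ ext v ⁻¹' {0}) :=
    hcont.preimage_isClosed_of_isClosed isClosed_closedBall isClosed_singleton
  have hcomp : IsCompact (closedBall (0 : ℂ) ‖z0‖ ∩ ext v ⁻¹' {0}) :=
    (isCompact_closedBall (0 : ℂ) ‖z0‖).of_isClosed_subset hcl Set.inter_subset_left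
  have hne : (closedBall (0 : ℂ) ‖z0‖ ∩ ext v ⁻¹' {0}).Nonempty :=
    ⟨z0, by simp, by simpa using h0⟩
  obtain ⟨a, ha, hmin⟩ := hcomp.exists_isMinOn hne continuous_norm.continuousOn
  have ha1 : ‖a‖ ≤ ‖z0‖ := by simpa using ha.1
  refine ⟨a, ⟨ha1.trans_lt hz0, by simpa using ha.2⟩, ?_⟩
  intro z hz hz0'
  rcases le_or_gt ‖z‖ ‖z0‖ with h | h
  · exact hmin ⟨by simpa using h, by simpa using hz0'⟩
  · exact ha1.trans h.le

open Classical in
/-- A zero of minimal modulus. -/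
noncomputable def zz (v : Circ → ℂ) : ℂ :=
  if h : IsInner v ∧ HasZ v then (exists_min_zero h.1 h.2).choose else 0

lemma zz_spec {v : Circ → ℂ} (hv : IsInner v) (h : HasZ v) :
    (‖zz v‖ < 1 ∧ ext v (zz v) = 0) ∧ ∀ z : ℂ, ‖z‖ < 1 → ext v z = 0 → ‖zz v‖ ≤ ‖z‖ := by
  have h2 : IsInner v ∧ HasZ v := ⟨hv, h⟩
  have : zz v = (exists_min_zero h2.1 h2.2).choose := by
    unfold zz
    rw [dif_pos h2]
  rw [this]
  exact (exists_min_zero h2.1 h2.2).choose_spec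

open Classical in
/-- Remove a zero of minimal modulus. -/
noncomputable def nx (v : Circ → ℂ) : Circ → ℂ :=
  if HasZ v then fun x => v x * conj (bfc (zz v) x) else v

/-- Iterated removal of zeros. -/
noncomputable def sq (I : Circ → ℂ) : ℕ → Circ → ℂ
  | 0 => I
  | n + 1 => nx (sq I n)

lemma nx_inner {v : Circ → ℂ} (hv : IsInner v) : IsInner (nx v) := by
  unfold nx
  split_ifs with h
  · exact inner_div hv (zz_spec hv h).1.1 (zz_spec hv h).1.2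
  · exact hv

lemma sq_inner {I : Circ → ℂ} (hI : IsInner I) (n : ℕ) : IsInner (sq I n) := by
  induction n with
  | zero => exact hI
  | succ n ih => exact nx_inner ih

open Classical in
/-- The `n`-th factor. -/
noncomputable def fac (I : Circ → ℂ) (n : ℕ) (z : ℂ) : ℂ :=
  if HasZ (sq I n) then bfac (zz (sq I n)) z else 1

lemma ext_sq_succ {I : Circ → ℂ} (hI : IsInner I) (n : ℕ) {z : ℂ} (hz : ‖z‖ < 1) :
    ext (sq I n) z = fac I n z * ext (sq I (n + 1)) z := by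
  have hn := sq_inner hI n
  show ext (sq I n) z = fac I n z * ext (nx (sq I n)) z
  unfold fac nx
  split_ifs with h
  · exact ext_inner_div hn (zz_spec hn h).1.1 (zz_spec hn h).1.2 hz
  · rw [one_mul]

lemma ext_eq_prod {I : Circ → ℂ} (hI : IsInner I) (n : ℕ) {z : ℂ} (hz : ‖z‖ < 1) :
    ext I z = (∏ i ∈ Finset.range n, fac I i z) * ext (sq I n) z := by
  induction n with
  | zero => simp [sq]
  | succ n ih => rw [Finset.prod_range_succ, mul_assoc, ← ext_sq_succ hI n hz, ih]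

lemma norm_ext_inner_le {v : Circ → ℂ} (hv : IsInner v) {z : ℂ} (hz : ‖z‖ < 1) :
    ‖ext v z‖ ≤ 1 := by
  apply norm_ext_le hv.1 _ hz
  filter_upwards [hv.2] with x hx
  rw [hx]

lemma norm_bfac_le {a z : ℂ} (ha : ‖a‖ < 1) (hz : ‖z‖ < 1) : ‖bfac a z‖ ≤ 1 := by
  rw [bfac_eq, norm_mul, norm_uc, one_mul]
  exact (norm_bd_lt ha hz).le

lemma norm_fac_le {I : Circ → ℂ} (hI : IsInner I) (n : ℕ) {z : ℂ} (hz : ‖z‖ < 1) :
    ‖fac I n z‖ ≤ 1 := by
  have hn := sq_inner hI n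
  unfold fac
  split_ifs with h
  · exact norm_bfac_le (zz_spec hn h).1.1 hz
  · simp

/-- The defect of the `n`-th factor. -/
noncomputable def gd (I : Circ → ℂ) (n : ℕ) (z : ℂ) : ℝ := 1 - ‖fac I n z‖ ^ 2

lemma gd_nonneg {I : Circ → ℂ} (hI : IsInner I) (n : ℕ) {z : ℂ} (hz : ‖z‖ < 1) :
    0 ≤ gd I n z := by
  unfold gd
  have := norm_fac_le hI n hz
  have := norm_nonneg (fac I n z)
  nlinarith

lemma sum_gd_le {I : Circ → ℂ} (hI : IsInner I) (n : ℕ) {z : ℂ} (hz : ‖z‖ < 1) {δ : ℝ}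
    (hδ : 0 < δ) (h : δ ≤ ‖ext I z‖) : ∑ i ∈ Finset.range n, gd I i z ≤ -(2 * Real.log δ) := by
  have h1 := ext_eq_prod hI n hz
  have h2 : ‖ext I z‖ ≤ ∏ i ∈ Finset.range n, ‖fac I i z‖ := by
    rw [h1, norm_mul, norm_prod]
    exact mul_le_of_le_one_right (Finset.prod_nonneg fun i _ => norm_nonneg _)
      (norm_ext_inner_le (sq_inner hI n) hz)
  have h3 : δ ^ 2 ≤ Real.exp (-∑ i ∈ Finset.range n, gd I i z) := by
    calc δ ^ 2 ≤ (∏ i ∈ Finset.range n, ‖fac I i z‖) ^ 2 :=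
          pow_le_pow_left₀ hδ.le (h.trans h2) 2
      _ = ∏ i ∈ Finset.range n, (1 - gd I i z) := by
          rw [← Finset.prod_pow]
          apply Finset.prod_congr rfl
          intro i _
          unfold gd; ring
      _ ≤ ∏ i ∈ Finset.range n, Real.exp (-gd I i z) := by
          apply Finset.prod_le_prod
          · intro i _
            unfold gd
            have := sq_nonneg ‖fac I i z‖
            linarith
          · intro i _
            exact Real.one_sub_le_exp_neg _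
      _ = Real.exp (-∑ i ∈ Finset.range n, gd I i z) := by
          rw [← Real.exp_sum, Finset.sum_neg_distrib]
  have h4 := Real.log_le_log (by positivity) h3
  rw [Real.log_exp, Real.log_pow] at h4
  push_cast at h4
  linarith

lemma one_sub_normSq_bd {a z : ℂ} (ha : ‖a‖ < 1) (hz : ‖z‖ < 1) :
    1 - ‖bd a z‖ ^ 2 = (1 - ‖a‖ ^ 2) * (1 - ‖z‖ ^ 2) / ‖1 - conj a * z‖ ^ 2 := by
  have hne : (1 : ℂ) - conj a * z ≠ 0 := one_sub_ne (norm_conj_lt ha) hz.le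
  have hn : ‖(1 : ℂ) - conj a * z‖ ^ 2 ≠ 0 := by
    have := norm_ne_zero_iff.mpr hne
    positivity
  unfold bd
  rw [norm_div, div_pow, eq_div_iff hn, sub_mul, one_mul, div_mul_cancel₀ _ hn]
  simp only [← Complex.normSq_eq_norm_sq, Complex.normSq_apply, Complex.sub_re, Complex.sub_im,
    Complex.mul_re, Complex.mul_im, Complex.conj_re, Complex.conj_im, Complex.one_re,
    Complex.one_im]
  ring

/-- Comparison of the defect at hyperbolically close points. -/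
lemma defect_compare {a b ζ : ℂ} (ha : ‖a‖ < 1) (hb : ‖b‖ < 1) (hζ : ‖ζ‖ ≤ 1 / 2) :
    1 - ‖bd b a‖ ^ 2 ≤ 3 * (1 - ‖bd b (mo a ζ)‖ ^ 2) := by
  have hζ1 : ‖ζ‖ < 1 := by linarith
  have hm := norm_mo_lt ha hζ1
  rw [one_sub_normSq_bd hb ha, one_sub_normSq_bd hb hm]
  have hb2 : 0 < 1 - ‖b‖ ^ 2 := by nlinarith [norm_nonneg b]
  have ha2 : 0 < 1 - ‖a‖ ^ 2 := by nlinarith [norm_nonneg a]
  have e1 : 0 < ‖(1 : ℂ) - conj b * a‖ := norm_pos_iff.mpr (one_sub_ne (norm_conj_lt hb) ha.le)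
  have e2 : 0 < ‖(1 : ℂ) - conj b * mo a ζ‖ :=
    norm_pos_iff.mpr (one_sub_ne (norm_conj_lt hb) hm.le)
  have e3 : 0 < ‖(1 : ℂ) + conj a * ζ‖ := norm_pos_iff.mpr (one_add_ne' ha hζ1.le)
  -- the value of the defect of the Moebius image
  have h1 : (1 - ‖mo a ζ‖ ^ 2) * ‖(1 : ℂ) + conj a * ζ‖ ^ 2 = (1 - ‖a‖ ^ 2) * (1 - ‖ζ‖ ^ 2) := by
    have h2 : ‖mo a ζ‖ ^ 2 * ‖(1 : ℂ) + conj a * ζ‖ ^ 2 = ‖a + ζ‖ ^ 2 := by
      unfold mo
      rw [norm_div, div_pow, div_mul_cancel₀ _ (by positivity)]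
    rw [sub_mul, one_mul, h2]
    simp only [← Complex.normSq_eq_norm_sq, Complex.normSq_apply, Complex.add_re, Complex.add_im,
      Complex.mul_re, Complex.mul_im, Complex.conj_re, Complex.conj_im, Complex.one_re,
      Complex.one_im]
    ring
  have h3 : ‖(1 : ℂ) - conj b * mo a ζ‖ * ‖(1 : ℂ) + conj a * ζ‖ ≤
      3 / 2 * ‖(1 : ℂ) - conj b * a‖ := by
    rw [← norm_mul]
    have h4 : (1 - conj b * mo a ζ) * (1 + conj a * ζ) =
        (1 - conj b * a) + ζ * (conj a - conj b) := by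
      have e := mul_inv_cancel₀ (one_add_ne' ha hζ1.le)
      unfold mo
      rw [div_eq_mul_inv]
      linear_combination (-(conj b * (a + ζ))) * e
    rw [h4]
    refine (norm_add_le _ _).trans ?_
    rw [norm_mul]
    have h5 : ‖conj a - conj b‖ ≤ ‖(1 : ℂ) - conj b * a‖ := by
      have h6 := (norm_bd_lt hb ha).le
      unfold bd at h6
      rw [norm_div, div_le_one e1] at h6
      rwa [← map_sub, Complex.norm_conj]
    nlinarith [norm_nonneg (conj a - conj b), norm_nonneg ζ]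
  have hz2 : 3 / 4 ≤ 1 - ‖ζ‖ ^ 2 := by nlinarith [norm_nonneg ζ]
  rw [mul_div_assoc, mul_div_assoc, mul_left_comm]
  apply mul_le_mul_of_nonneg_left _ hb2.le
  rw [← mul_div_assoc, div_le_div_iff₀ (by positivity) (by positivity)]
  have h7 : (‖(1 : ℂ) - conj b * mo a ζ‖ * ‖(1 : ℂ) + conj a * ζ‖) ^ 2 ≤
      (3 / 2 * ‖(1 : ℂ) - conj b * a‖) ^ 2 := pow_le_pow_left₀ (by positivity) h3 2
  have h8 : (1 - ‖a‖ ^ 2) * ‖(1 : ℂ) - conj b * mo a ζ‖ ^ 2 * ‖(1 : ℂ) + conj a * ζ‖ ^ 2 ≤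
      3 * (1 - ‖mo a ζ‖ ^ 2) * ‖(1 : ℂ) - conj b * a‖ ^ 2 * ‖(1 : ℂ) + conj a * ζ‖ ^ 2 := by
    calc (1 - ‖a‖ ^ 2) * ‖(1 : ℂ) - conj b * mo a ζ‖ ^ 2 * ‖(1 : ℂ) + conj a * ζ‖ ^ 2
        = (1 - ‖a‖ ^ 2) * (‖(1 : ℂ) - conj b * mo a ζ‖ * ‖(1 : ℂ) + conj a * ζ‖) ^ 2 := by ring
      _ ≤ (1 - ‖a‖ ^ 2) * (3 / 2 * ‖(1 : ℂ) - conj b * a‖) ^ 2 := by gcongr
      _ = 3 * ((1 - ‖a‖ ^ 2) * (3 / 4)) * ‖(1 : ℂ) - conj b * a‖ ^ 2 := by ring
      _ ≤ 3 * ((1 - ‖a‖ ^ 2) * (1 - ‖ζ‖ ^ 2)) * ‖(1 : ℂ) - conj b * a‖ ^ 2 := by gcongr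
      _ = _ := by rw [← h1]; ring
  exact le_of_mul_le_mul_right h8 (by positivity)

end Pool.Agent.Lib.MP_7a0cb1_an
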