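import Pool.Agent.Lib.MP_7a0cb1_an.Defs

/-!
# The algebra `H^∞` of the circle
-/

open MeasureTheory AddCircle
open scoped ENNReal ComplexConjugate

namespace Pool.Agent.Lib.MP_7a0cb1_an

lemma inLinf_iff {f : Circ → ℂ} :
    InLinf f ↔ AEStronglyMeasurable f mes ∧ ∃ C : ℝ, ∀ᵐ x ∂mes, ‖f x‖ ≤ C := by
  constructor
  · intro h
    refine ⟨h.1, (eLpNormEssSup f mes).toReal, ?_⟩
    have h2 := h.2
    rw [eLpNorm_exponent_top] at h2
    filter_upwards [ae_le_eLpNormEssSup (f := f) (μ := mes)] with x hx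
    have := ENNReal.toReal_mono h2.ne hx
    simpa using this
  · rintro ⟨h1, C, h2⟩
    exact memLp_top_of_bound h1 C h2

lemma InLinf.aesm {f : Circ → ℂ} (h : InLinf f) : AEStronglyMeasurable f mes := h.1

lemma InLinf.bound {f : Circ → ℂ} (h : InLinf f) : ∃ C : ℝ, 0 ≤ C ∧ ∀ᵐ x ∂mes, ‖f x‖ ≤ C := by
  obtain ⟨-, C, hC⟩ := inLinf_iff.mp h
  refine ⟨max C 0, le_max_right _ _, ?_⟩
  filter_upwards [hC] with x hx using hx.trans (le_max_left _ _)

lemma InLinf.mk' {f : Circ → ℂ} (h1 : AEStronglyMeasurable f mes) {C : ℝ}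
    (h2 : ∀ᵐ x ∂mes, ‖f x‖ ≤ C) : InLinf f := memLp_top_of_bound h1 C h2

lemma InLinf.mul {f g : Circ → ℂ} (hf : InLinf f) (hg : InLinf g) :
    InLinf (fun x => f x * g x) := by
  obtain ⟨C, hC0, hC⟩ := hf.bound
  obtain ⟨D, hD0, hD⟩ := hg.bound
  refine InLinf.mk' (hf.aesm.mul hg.aesm) (C := C * D) ?_
  filter_upwards [hC, hD] with x h1 h2
  rw [norm_mul]
  exact mul_le_mul h1 h2 (norm_nonneg _) hC0

lemma InLinf.add {f g : Circ → ℂ} (hf : InLinf f) (hg : InLinf g) :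
    InLinf (fun x => f x + g x) := MemLp.add hf hg

lemma InLinf.sub {f g : Circ → ℂ} (hf : InLinf f) (hg : InLinf g) :
    InLinf (fun x => f x - g x) := MemLp.sub hf hg

lemma InLinf.const (c : ℂ) : InLinf (fun _ => c) :=
  InLinf.mk' aestronglyMeasurable_const (C := ‖c‖) (by simp)

lemma InLinf.cj {f : Circ → ℂ} (hf : InLinf f) : InLinf (cj f) := by
  obtain ⟨C, hC0, hC⟩ := hf.bound
  refine InLinf.mk' ?_ (C := C) ?_
  · exact continuous_star.comp_aestronglyMeasurable hf.aesm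
  · filter_upwards [hC] with x h1
    simpa [MP_7a0cb1_an.cj] using h1

lemma InLinf.of_continuous {f : Circ → ℂ} (hf : Continuous f) : InLinf f := by
  obtain ⟨C, hC⟩ := (isCompact_univ (X := Circ)).exists_bound_of_continuousOn hf.continuousOn
  exact InLinf.mk' hf.aestronglyMeasurable (C := C)
    (Filter.Eventually.of_forall (fun x => hC x (Set.mem_univ x)))

lemma InLinf.congr {f g : Circ → ℂ} (hf : InLinf f) (h : f =ᵐ[mes] g) : InLinf g :=
  (memLp_congr_ae h).mp hf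

lemma InLinf.memLp2 {f : Circ → ℂ} (hf : InLinf f) : MemLp f 2 mes := hf.mono_exponent le_top

lemma InLinf.integrable {f : Circ → ℂ} (hf : InLinf f) : Integrable f mes :=
  MemLp.integrable le_top hf

lemma parseval_aux2 {g : Circ → ℂ} (hg' : MemLp g 2 mes) (i : ℤ) :
    inner ℂ (fourierBasis i) (hg'.toLp g) = fourierCoeff g i := by
  rw [← HilbertBasis.repr_apply_apply, fourierBasis_repr]
  exact congrFun (fourierCoeff_congr_ae hg'.coeFn_toLp) i

lemma fourierCoeff_cj (f : Circ → ℂ) (i : ℤ) : fourierCoeff (cj f) i = conj (fourierCoeff f (-i)) := by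
  unfold fourierCoeff
  rw [← integral_conj]
  congr 1
  ext x
  simp [cj]

lemma parseval_aux1 {f : Circ → ℂ} (hf' : MemLp (cj f) 2 mes) (i : ℤ) :
    inner ℂ (hf'.toLp (cj f)) (fourierBasis i) = fourierCoeff f (-i) := by
  rw [← inner_conj_symm, parseval_aux2, fourierCoeff_cj]
  simp

/-- Parseval formula. -/
lemma parseval {f g : Circ → ℂ} (hf : InLinf f) (hg : InLinf g) :
    HasSum (fun i : ℤ => fourierCoeff f (-i) * fourierCoeff g i) (∫ x, f x * g x ∂mes) := by
  have hf' : MemLp (cj f) 2 mes := hf.cj.memLp2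
  have hg' : MemLp g 2 mes := hg.memLp2
  have h := fourierBasis.hasSum_inner_mul_inner hf'.toLp hg'.toLp
  have h1 : inner ℂ (hf'.toLp (cj f)) (hg'.toLp g) = ∫ x, f x * g x ∂mes := by
    rw [L2.inner_def]
    apply integral_congr_ae
    filter_upwards [hf'.coeFn_toLp, hg'.coeFn_toLp] with x h1 h2
    rw [h1, h2]
    simp [cj, mul_comm]
  rw [h1] at h
  have key : (fun i : ℤ => fourierCoeff f (-i) * fourierCoeff g i) = fun i : ℤ =>
      inner ℂ (hf'.toLp (cj f)) (fourierBasis i) * inner ℂ (fourierBasis i) (hg'.toLp g) := by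
    funext i
    rw [parseval_aux1 hf' i, parseval_aux2 hg' i]
  rw [key]
  exact h

end Pool.Agent.Lib.MP_7a0cb1_an
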