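import Pool.Agent.Lib.MP_7a0cb1_an.Lim

/-!
# Harnack's inequality for zero-free functions
-/

open MeasureTheory AddCircle Filter Topology Metric
open scoped ENNReal ComplexConjugate

namespace Pool.Agent.Lib.MP_7a0cb1_an

lemma norm_bd_symm (a w : ℂ) : ‖bd w a‖ = ‖bd a w‖ := by
  unfold bd
  rw [norm_div, norm_div, norm_sub_rev]
  congr 1
  rw [← Complex.norm_conj (1 - conj w * a)]
  congr 1
  simp only [map_sub, map_one, map_mul, Complex.conj_conj]
  ring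

/-- Harnack's inequality for a zero-free function bounded by one. -/
lemma harnack0 {h : ℂ → ℂ} (hd : DifferentiableOn ℂ h (ball 0 1)) (hne : ∀ z ∈ ball (0 : ℂ) 1, h z ≠ 0)
    (hb : ∀ z ∈ ball (0 : ℂ) 1, ‖h z‖ ≤ 1) {δ : ℝ} (hδ : 0 < δ) (h0 : δ ≤ ‖h 0‖) {ξ : ℂ}
    (hξ : ‖ξ‖ ≤ 1 / 2) : δ * Real.exp (-(2 * (-Real.log δ + 1))) ≤ ‖h ξ‖ := by
  have hξ1 : ξ ∈ ball (0 : ℂ) 1 := by rw [mem_ball_zero_iff]; linarith
  have h01 : (0 : ℂ) ∈ ball (0 : ℂ) 1 := by simp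
  have hdd : DifferentiableOn ℂ (deriv h) (ball 0 1) := hd.deriv isOpen_ball
  have hq : DifferentiableOn ℂ (fun z => deriv h z / h z) (ball 0 1) := hdd.div hd hne
  obtain ⟨G, hG0, hG⟩ := hq.isExactOn_ball.with_val_at 0 0
  have hGd : DifferentiableOn ℂ G (ball 0 1) := fun z hz =>
    (hG z hz).differentiableAt.differentiableWithinAt
  -- `h exp(-G)` is constant
  have hconst : ∀ z ∈ ball (0 : ℂ) 1, h z * Complex.exp (-G z) = h 0 := by
    intro z hz
    have hder : ∀ w ∈ ball (0 : ℂ) 1, HasDerivAt (fun w => h w * Complex.exp (-G w)) 0 w := by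
      intro w hw
      have e1 : HasDerivAt h (deriv h w) w :=
        (hd.differentiableAt (isOpen_ball.mem_nhds hw)).hasDerivAt
      have e2 := ((hG w hw).neg).cexp
      have e3 := e1.mul e2
      have hne' := hne w hw
      have e4 : deriv h w * Complex.exp (-G w) + h w * (Complex.exp (-G w) * -(deriv h w / h w)) = 0 := by
        field_simp
        ring
      rw [← e4]
      exact e3
    have hdf : DifferentiableOn ℂ (fun w => h w * Complex.exp (-G w)) (ball 0 1) := fun w hw =>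
      (hder w hw).differentiableAt.differentiableWithinAt
    have := isOpen_ball.is_const_of_deriv_eq_zero (convex_ball (0 : ℂ) 1).isPreconnected hdf
      (fun w hw => (hder w hw).deriv) hz h01
    simp only [hG0, neg_zero, Complex.exp_zero, mul_one] at this
    exact this
  have hform : ∀ z ∈ ball (0 : ℂ) 1, h z = h 0 * Complex.exp (G z) := by
    intro z hz
    rw [← hconst z hz, mul_assoc, ← Complex.exp_add]
    simp
  have h0pos : 0 < ‖h 0‖ := lt_of_lt_of_le hδ h0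
  have hδ1 : δ ≤ 1 := h0.trans (hb 0 h01)
  have hlog : Real.log δ ≤ 0 := Real.log_nonpos hδ.le hδ1
  have hre : Set.MapsTo G (ball 0 1) {z | z.re ≤ -Real.log δ + 1} := by
    intro z hz
    have e1 := hb z hz
    rw [hform z hz, norm_mul, Complex.norm_exp] at e1
    have e2 : δ * Real.exp (G z).re ≤ 1 := le_trans (by gcongr) e1
    have e3 := Real.log_le_log (by positivity) e2
    rw [Real.log_mul hδ.ne' (Real.exp_pos _).ne', Real.log_exp, Real.log_one] at e3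
    show (G z).re ≤ -Real.log δ + 1
    linarith
  have e5 := Complex.borelCaratheodory_zero (by linarith : 0 < -Real.log δ + 1) hGd hre one_pos hξ1 hG0
  have e6 : ‖G ξ‖ ≤ 2 * (-Real.log δ + 1) := by
    refine e5.trans ?_
    rw [div_le_iff₀ (by linarith)]
    nlinarith [norm_nonneg ξ]
  rw [hform ξ hξ1, norm_mul, Complex.norm_exp]
  have e7 := (abs_le.mp ((Complex.abs_re_le_norm _).trans e6)).1
  gcongr

lemma harnack {S : ℂ → ℂ} (hd : DifferentiableOn ℂ S (ball 0 1))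
    (hne : ∀ z ∈ ball (0 : ℂ) 1, S z ≠ 0) (hb : ∀ z ∈ ball (0 : ℂ) 1, ‖S z‖ ≤ 1) {δ : ℝ}
    (hδ : 0 < δ) (H : ∀ a : ℂ, ‖a‖ < 1 → ∃ ζ : ℂ, ‖ζ‖ ≤ 1 / 2 ∧ δ ≤ ‖S (mo a ζ)‖) :
    ∃ c : ℝ, 0 < c ∧ ∀ a : ℂ, ‖a‖ < 1 → c ≤ ‖S a‖ := by
  refine ⟨δ * Real.exp (-(2 * (-Real.log δ + 1))), by positivity, ?_⟩
  intro a ha
  obtain ⟨ζ, hζ, h⟩ := H a ha
  have hζ1 : ‖ζ‖ < 1 := by linarith
  set w := mo a ζ with hw
  have hw1 : ‖w‖ < 1 := norm_mo_lt ha hζ1
  have h1 : ‖bd w a‖ ≤ 1 / 2 := by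
    rw [norm_bd_symm, hw, bd_mo ha hζ1]; exact hζ
  have h2 : mo w (bd w a) = a := mo_bd hw1 ha
  have h3 := harnack0 (h := fun ξ => S (mo w ξ)) (hd.comp (differentiableOn_mo hw1) (mapsTo_mo hw1))
    (fun z hz => hne _ (mapsTo_mo hw1 hz)) (fun z hz => hb _ (mapsTo_mo hw1 hz)) hδ
    (by simp only [mo_zero]; exact h) h1
  simp only [h2] at h3
  exact h3

end Pool.Agent.Lib.MP_7a0cb1_an
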