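import Pool.Agent.Lib.MP_7a0cb1_an.Bla

/-!
# The test functionals
-/

open MeasureTheory AddCircle Filter Topology
open scoped ENNReal ComplexConjugate

namespace Pool.Agent.Lib.MP_7a0cb1_an

/-- `1 / (1 - R b_a)`. -/
noncomputable def hk (a : ℂ) (R : ℝ) (x : Circ) : ℂ := (1 - R * bl a x)⁻¹

/-- The point of the disc where `b_a` takes the value `R`. -/
noncomputable def wpt (a : ℂ) (R : ℝ) : ℂ := (a + R) / (1 + R * conj a)

lemma norm_real_lt {R : ℝ} (h0 : 0 ≤ R) (h1 : R < 1) : ‖(R : ℂ)‖ < 1 := by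
  rw [Complex.norm_real, Real.norm_of_nonneg h0]; exact h1

lemma one_add_ne {a : ℂ} (ha : ‖a‖ < 1) {R : ℝ} (h0 : 0 ≤ R) (h1 : R < 1) :
    (1 : ℂ) + R * a ≠ 0 := by
  have := one_sub_ne (w := -(R : ℂ)) (by rw [norm_neg]; exact norm_real_lt h0 h1) ha.le
  intro h
  apply this
  linear_combination h

lemma norm_wpt {a : ℂ} (ha : ‖a‖ < 1) {R : ℝ} (h0 : 0 ≤ R) (h1 : R < 1) : ‖wpt a R‖ < 1 := by
  have h2 := one_add_ne (norm_conj_lt ha) h0 h1
  unfold wpt
  rw [norm_div, div_lt_one (norm_pos_iff.mpr h2)]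
  rw [← abs_of_nonneg (norm_nonneg (a + (R : ℂ))), ← abs_of_nonneg (norm_nonneg (1 + (R : ℂ) * conj a))]
  apply sq_lt_sq.mp
  rw [← Complex.normSq_eq_norm_sq, ← Complex.normSq_eq_norm_sq]
  have h3 : Complex.normSq (1 + (R : ℂ) * conj a) - Complex.normSq (a + (R : ℂ)) =
      (1 - R ^ 2) * (1 - Complex.normSq a) := by
    simp only [Complex.normSq_apply, Complex.add_re, Complex.add_im, Complex.mul_re,
      Complex.mul_im, Complex.ofReal_re, Complex.ofReal_im, Complex.conj_re, Complex.conj_im,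
      Complex.one_re, Complex.one_im]
    ring
  have h4 : 0 < (1 - R ^ 2) * (1 - Complex.normSq a) := by
    apply mul_pos
    · nlinarith
    · rw [Complex.normSq_eq_norm_sq]; nlinarith [norm_nonneg a]
  linarith

lemma one_sub_R_bl_ne {a : ℂ} (ha : ‖a‖ < 1) {R : ℝ} (h0 : 0 ≤ R) (h1 : R < 1) (x : Circ) :
    (1 : ℂ) - R * bl a x ≠ 0 := one_sub_ne (norm_real_lt h0 h1) (norm_bl ha x).le

/-- The explicit formula for `hk`. -/
lemma hk_eq {a : ℂ} (ha : ‖a‖ < 1) {R : ℝ} (h0 : 0 ≤ R) (h1 : R < 1) (x : Circ) :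
    hk a R x = (1 + R * a)⁻¹ * ((1 - conj a * ee x) * gk (conj (wpt a R)) x) := by
  have e1 := one_sub_R_bl_ne ha h0 h1 x
  have e2 := mul_inv_cancel₀ (one_add_ne ha h0 h1)
  have e3 := mul_inv_cancel₀ (one_sub_mul_ee_ne (norm_conj_lt ha) x)
  have e4 := mul_inv_cancel₀ (one_sub_mul_ee_ne (norm_conj_lt (norm_wpt ha h0 h1)) x)
  have h2 : (1 - conj a * ee x) * (1 - R * bl a x) =
      (1 + R * a) * (1 - conj (wpt a R) * ee x) := by
    unfold wpt bl gk
    simp only [map_div₀, map_add, map_mul, map_one, Complex.conj_conj, Complex.conj_ofReal]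
    rw [div_eq_mul_inv]
    linear_combination (-(R : ℂ) * (ee x - a)) * e3 + (conj a + R) * ee x * e2
  unfold hk
  refine (eq_inv_of_mul_eq_one_right ?_).symm
  unfold gk
  linear_combination ((1 + R * a)⁻¹ * (1 - conj (wpt a R) * ee x)⁻¹) * h2 +
    ((1 - conj (wpt a R) * ee x) * (1 - conj (wpt a R) * ee x)⁻¹) * e2 + e4

lemma hk_inHinf {a : ℂ} (ha : ‖a‖ < 1) {R : ℝ} (h0 : 0 ≤ R) (h1 : R < 1) : InHinf (hk a R) := by
  have h := ((((InHinf.const 1).sub (ee_inHinf.const_mul (conj a))).mul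
    (gk_inHinf (norm_conj_lt (norm_wpt ha h0 h1)))).const_mul (1 + R * a)⁻¹)
  exact h.congr (Eventually.of_forall fun x => (hk_eq ha h0 h1 x).symm)

lemma hk_continuous {a : ℂ} (ha : ‖a‖ < 1) {R : ℝ} (h0 : 0 ≤ R) (h1 : R < 1) :
    Continuous (hk a R) :=
  Continuous.inv₀ (continuous_const.sub (continuous_const.mul (bl_continuous ha)))
    (fun x => one_sub_R_bl_ne ha h0 h1 x)

lemma bd_self (a : ℂ) : bd a a = 0 := by simp [bd]

lemma ext_hk {a : ℂ} (ha : ‖a‖ < 1) {R : ℝ} (h0 : 0 ≤ R) (h1 : R < 1) : ext (hk a R) a = 1 := by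
  have h2 : InHinf (fun x => 1 - (R : ℂ) * bl a x) :=
    (InHinf.const 1).sub ((bl_inHinf ha).const_mul R)
  have h3 := ext_mul h2 (hk_inHinf ha h0 h1) ha
  have h4 : (fun x => (1 - (R : ℂ) * bl a x) * hk a R x) = fun _ => 1 := by
    ext x
    exact mul_inv_cancel₀ (one_sub_R_bl_ne ha h0 h1 x)
  rw [h4, ext_const, ext_sub (InLinf.const 1) ((bl_inHinf ha).const_mul R).1 ha, ext_const,
    ext_const_mul, ext_bl ha ha, bd_self, mul_zero, sub_zero, one_mul] at h3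
  exact h3.symm

/-- `|1 / (1 - R b)|² (1 - R²)` is `2 Re (1 / (1 - R b)) - 1`. -/
lemma hk_add_conj {a : ℂ} (ha : ‖a‖ < 1) {R : ℝ} (h0 : 0 ≤ R) (h1 : R < 1) (x : Circ) :
    hk a R x + conj (hk a R x) - 1 = (1 - (R : ℂ) ^ 2) * (hk a R x * conj (hk a R x)) := by
  have e1 := one_sub_R_bl_ne ha h0 h1 x
  have e2 : (1 : ℂ) - R * conj (bl a x) ≠ 0 := by
    have := (map_ne_zero (starRingEnd ℂ)).mpr e1
    simpa using this
  have hb := bl_mul_conj ha x
  unfold hk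
  rw [map_inv₀]
  simp only [map_sub, map_one, map_mul, Complex.conj_ofReal]
  field_simp
  linear_combination (-(R : ℂ) ^ 2) * hb

/-- Conformal invariance of the Poisson kernel. -/
lemma pois_conf {a : ℂ} (ha : ‖a‖ < 1) {R : ℝ} (h0 : 0 ≤ R) (h1 : R < 1) (x : Circ) :
    (hk a R x + conj (hk a R x) - 1) * (pois a x : ℂ) = (pois (wpt a R) x : ℂ) := by
  have hwp := norm_wpt ha h0 h1
  have key : ∀ w : ℂ, ‖w‖ < 1 → (pois w x : ℂ) = (1 - w * conj w) * (gk (conj w) x * conj (gk (conj w) x)) := by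
    intro w hw
    have h3 : ((‖1 - conj w * ee x‖ ^ 2 : ℝ) : ℂ) = (1 - conj w * ee x) * conj (1 - conj w * ee x) := by
      rw [← Complex.normSq_eq_norm_sq, ← Complex.mul_conj]
    have h4 : ((‖w‖ ^ 2 : ℝ) : ℂ) = w * conj w := by
      rw [← Complex.normSq_eq_norm_sq, Complex.mul_conj]
    unfold pois gk
    rw [Complex.ofReal_div, h3, Complex.ofReal_sub, h4, map_inv₀, Complex.ofReal_one]
    rw [div_eq_mul_inv, mul_inv]
  rw [hk_add_conj ha h0 h1, key a ha, key _ hwp, hk_eq ha h0 h1]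
  have e2 := one_add_ne ha h0 h1
  have e3 := one_sub_mul_ee_ne (norm_conj_lt ha) x
  have e4 : (1 : ℂ) - a * conj (ee x) ≠ 0 := by
    have := (map_ne_zero (starRingEnd ℂ)).mpr e3
    simpa using this
  have e5 := one_add_ne (norm_conj_lt ha) h0 h1
  have e6 : (1 - conj a * ee x) * gk (conj a) x = 1 := mul_inv_cancel₀ e3
  have e7 : (1 - a * conj (ee x)) * conj (gk (conj a) x) = 1 := by
    have := congrArg (starRingEnd ℂ) e6
    simpa using this
  simp only [map_mul, map_sub, map_one, map_add, map_inv₀, Complex.conj_conj, Complex.conj_ofReal]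
  have e8 : 1 - wpt a R * conj (wpt a R) = (1 - (R : ℂ) ^ 2) * (1 - a * conj a) *
      ((1 + R * a)⁻¹ * (1 + R * conj a)⁻¹) := by
    have f2 := mul_inv_cancel₀ e2
    have f5 := mul_inv_cancel₀ e5
    unfold wpt
    simp only [map_div₀, map_add, map_mul, map_one, Complex.conj_conj, Complex.conj_ofReal]
    rw [div_eq_mul_inv, div_eq_mul_inv]
    linear_combination (-((1 + R * conj a) * (1 + R * conj a)⁻¹)) * f2 - f5
  rw [e8]
  set g := gk (conj (wpt a R)) x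
  set g' := gk (conj a) x
  calc (1 - (R : ℂ) ^ 2) * ((1 + R * a)⁻¹ * ((1 - conj a * ee x) * g) *
        ((1 + R * conj a)⁻¹ * ((1 - a * conj (ee x)) * conj g))) *
        ((1 - a * conj a) * (g' * conj g'))
      = (1 - (R : ℂ) ^ 2) * (1 - a * conj a) * ((1 + R * a)⁻¹ * (1 + R * conj a)⁻¹) *
        (g * conj g) * ((1 - conj a * ee x) * g') * ((1 - a * conj (ee x)) * conj g') := by ring
    _ = _ := by rw [e6, e7]; ring

end Pool.Agent.Lib.MP_7a0cb1_an
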