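import Pool.Agent.Lib.MP_7a0cb1_an.Phi

/-!
# The bounded function with large test integral
-/

open MeasureTheory AddCircle Filter Topology
open scoped ENNReal ComplexConjugate

namespace Pool.Agent.Lib.MP_7a0cb1_an

lemma InHinf.sum {ι : Type*} (s : Finset ι) {f : ι → Circ → ℂ} (hf : ∀ i ∈ s, InHinf (f i)) :
    InHinf (fun x => ∑ i ∈ s, f i x) := by
  classical
  induction s using Finset.induction_on with
  | empty => simpa using InHinf.const 0
  | insert a s ha ih =>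
    have h1 := (hf a (Finset.mem_insert_self a s)).add
      (ih (fun i hi => hf i (Finset.mem_insert_of_mem hi)))
    refine h1.congr (Eventually.of_forall fun x => ?_)
    show f a x + ∑ i ∈ s, f i x = ∑ i ∈ insert a s, f i x
    rw [Finset.sum_insert ha]

lemma ext_sum {ι : Type*} (s : Finset ι) {f : ι → Circ → ℂ} (hf : ∀ i ∈ s, InHinf (f i)) {w : ℂ}
    (hw : ‖w‖ < 1) : ext (fun x => ∑ i ∈ s, f i x) w = ∑ i ∈ s, ext (f i) w := by
  classical
  induction s using Finset.induction_on with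
  | empty => simp [ext_const]
  | insert a s ha ih =>
    have h2 : ∀ i ∈ s, InHinf (f i) := fun i hi => hf i (Finset.mem_insert_of_mem hi)
    have h3 : (fun x => ∑ i ∈ insert a s, f i x) = fun x => f a x + ∑ i ∈ s, f i x := by
      ext x; rw [Finset.sum_insert ha]
    rw [h3, ext_add (hf a (Finset.mem_insert_self a s)).1 (InHinf.sum s h2).1 hw, ih h2,
      Finset.sum_insert ha]

lemma ext_pow {f : Circ → ℂ} (hf : InHinf f) (k : ℕ) {w : ℂ} (hw : ‖w‖ < 1) :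
    ext (fun x => f x ^ k) w = ext f w ^ k := by
  induction k with
  | zero => simp [ext_const]
  | succ k ih =>
    have h : (fun x => f x ^ (k + 1)) = fun x => f x ^ k * f x := by ext x; ring
    rw [h, ext_mul (hf.pow k) hf hw, ih, pow_succ]

/-- The coefficients. -/
noncomputable def cf (R : ℝ) (j : ℕ) : ℝ := R ^ (j + 1) / (j + 1)

/-- The truncated logarithm of `1 - R b_a`. -/
noncomputable def Lp (a : ℂ) (R : ℝ) (M : ℕ) (x : Circ) : ℂ :=
  ∑ j ∈ Finset.range M, (cf R j : ℂ) * bl a x ^ (j + 1)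

/-- The value of the test integral. -/
noncomputable def SM (R : ℝ) (M : ℕ) : ℝ := ∑ j ∈ Finset.range M, cf R j * R ^ (j + 1)

lemma Lp_inHinf {a : ℂ} (ha : ‖a‖ < 1) (R : ℝ) (M : ℕ) : InHinf (Lp a R M) :=
  InHinf.sum _ fun j _ => ((bl_inHinf ha).pow (j + 1)).const_mul _

lemma ext_Lp {a w : ℂ} (ha : ‖a‖ < 1) (hw : ‖w‖ < 1) (R : ℝ) (M : ℕ) :
    ext (Lp a R M) w = ∑ j ∈ Finset.range M, (cf R j : ℂ) * bd a w ^ (j + 1) := by
  unfold Lp
  rw [ext_sum _ (fun j _ => ((bl_inHinf ha).pow (j + 1)).const_mul _) hw]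
  apply Finset.sum_congr rfl
  intro j _
  rw [ext_const_mul, ext_pow (bl_inHinf ha) _ hw, ext_bl ha hw]

lemma bd_wpt {a : ℂ} (ha : ‖a‖ < 1) {R : ℝ} (h0 : 0 ≤ R) (h1 : R < 1) :
    bd a (wpt a R) = R := by
  have f5 := mul_inv_cancel₀ (one_add_ne (norm_conj_lt ha) h0 h1)
  have hne : (1 : ℂ) - conj a * wpt a R ≠ 0 :=
    one_sub_ne (norm_conj_lt ha) (norm_wpt ha h0 h1).le
  unfold bd
  rw [div_eq_iff hne]
  unfold wpt
  rw [div_eq_mul_inv]
  linear_combination (a + R) * f5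

lemma Phi_Lp {a : ℂ} (ha : ‖a‖ < 1) {R : ℝ} (h0 : 0 ≤ R) (h1 : R < 1) (M : ℕ) :
    Phi a R (fun x => ((Lp a R M x).im : ℂ)) = (SM R M / 2 : ℝ) := by
  have h2 : Phi a R (Lp a R M) = -(SM R M : ℂ) * (2 * Complex.I)⁻¹ := by
    rw [Phi_hinf ha h0 h1 (Lp_inHinf ha R M), ext_Lp ha ha, ext_Lp ha (norm_wpt ha h0 h1),
      bd_self, bd_wpt ha h0 h1]
    unfold SM
    push_cast
    simp
  have h3 : (fun x => ((Lp a R M x).im : ℂ)) =
      fun x => (2 * Complex.I)⁻¹ * (Lp a R M x - cj (Lp a R M) x) := by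
    ext x
    rw [im_eq]
    unfold cj
    ring
  rw [h3, Phi_const_mul, Phi_sub ha h0 h1 (Lp_inHinf ha R M).1 (Lp_inHinf ha R M).1.cj, Phi_cj, h2]
  simp only [map_mul, map_neg, Complex.conj_ofReal, map_inv₀, Complex.conj_I, mul_neg, neg_mul,
    map_ofNat]
  push_cast
  have hI : Complex.I * Complex.I = -1 := Complex.I_mul_I
  rw [inv_neg]
  have : (2 * Complex.I : ℂ)⁻¹ = -(Complex.I / 2) := by
    rw [mul_inv, Complex.inv_I]; ring
  rw [this]
  linear_combination (-(SM R M : ℂ) / 2) * hI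

lemma sum_eq_logTaylor (z : ℂ) (M : ℕ) :
    ∑ j ∈ Finset.range M, z ^ (j + 1) / ((j : ℂ) + 1) = -Complex.logTaylor (M + 1) (-z) := by
  unfold Complex.logTaylor
  rw [Finset.sum_range_succ']
  simp only [Nat.cast_zero, div_zero, add_zero]
  rw [← Finset.sum_neg_distrib]
  apply Finset.sum_congr rfl
  intro j _
  have h : (-z) ^ (j + 1) = (-1) ^ (j + 1) * z ^ (j + 1) := by rw [← mul_pow]; ring_nf
  rw [h]
  have h2 : ((-1 : ℂ)) ^ (j + 1 + 1) * (-1) ^ (j + 1) = -1 := by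
    rw [← pow_add]
    have : j + 1 + 1 + (j + 1) = 2 * (j + 1) + 1 := by ring
    rw [this, pow_add, pow_mul]; norm_num
  push_cast
  linear_combination (z ^ (j + 1) / ((j : ℂ) + 1)) * h2

lemma tail_bound {z : ℂ} {r : ℝ} (hr : r < 1) (hz : ‖z‖ ≤ r) {M : ℕ}
    (hM : 1 / (1 - r) ≤ M) :
    ‖Complex.log (1 - z) + ∑ j ∈ Finset.range M, z ^ (j + 1) / ((j : ℂ) + 1)‖ ≤ 1 := by
  have h1 := Complex.norm_log_sub_logTaylor_le M (z := -z) (by rw [norm_neg]; linarith)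
  rw [norm_neg] at h1
  rw [sum_eq_logTaylor, ← sub_eq_add_neg, sub_eq_add_neg 1 z]
  refine h1.trans ?_
  have h2 : ‖z‖ ^ (M + 1) ≤ 1 := pow_le_one₀ (norm_nonneg _) (by linarith)
  have h3 : (1 - ‖z‖)⁻¹ ≤ M := by
    refine le_trans ?_ hM
    rw [one_div]
    exact inv_anti₀ (by linarith) (by linarith)
  have h4 : 0 ≤ (1 - ‖z‖)⁻¹ := inv_nonneg.mpr (by linarith)
  have h5 : ‖z‖ ^ (M + 1) * (1 - ‖z‖)⁻¹ ≤ 1 * M := mul_le_mul h2 h3 h4 (by norm_num)
  rw [div_le_one (by positivity)]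
  linarith

lemma Lp_im_le {a : ℂ} (ha : ‖a‖ < 1) {R : ℝ} (h0 : 0 ≤ R) (h1 : R < 1) {M : ℕ}
    (hM : 1 / (1 - R) ≤ M) (x : Circ) : |(Lp a R M x).im| ≤ 3 := by
  have hz : ‖(R : ℂ) * bl a x‖ ≤ R := by
    rw [norm_mul, norm_bl ha, Complex.norm_real, Real.norm_of_nonneg h0, mul_one]
  have h2 := tail_bound h1 hz hM
  have h3 : Lp a R M x = ∑ j ∈ Finset.range M, ((R : ℂ) * bl a x) ^ (j + 1) / ((j : ℂ) + 1) := by
    unfold Lp cf
    apply Finset.sum_congr rfl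
    intro j _
    push_cast
    rw [mul_pow]; ring
  rw [← h3] at h2
  have h4 := (Complex.abs_im_le_norm _).trans h2
  rw [Complex.add_im, Complex.log_im] at h4
  have h5 : |Complex.arg (1 - (R : ℂ) * bl a x)| ≤ Real.pi / 2 := by
    rw [Complex.abs_arg_le_pi_div_two_iff, Complex.sub_re, Complex.one_re]
    have := (Complex.abs_re_le_norm _).trans hz
    have := (abs_le.mp this).2
    linarith
  have h6 := abs_sub_abs_le_abs_sub (Lp a R M x).im (-(Complex.arg (1 - (R : ℂ) * bl a x)))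
  rw [abs_neg, sub_neg_eq_add, add_comm (Lp a R M x).im] at h6
  have := Real.pi_lt_d2
  linarith

lemma SM_ge {R : ℝ} (h0 : 0 ≤ R) (h1 : R < 1) {M : ℕ} (hM : 1 / (1 - R) ≤ M) :
    -Real.log (1 - R ^ 2) - 1 ≤ SM R M := by
  have hR2 : R ^ 2 < 1 := by nlinarith
  have hz : ‖((R ^ 2 : ℝ) : ℂ)‖ ≤ R ^ 2 := by
    rw [Complex.norm_real, Real.norm_of_nonneg (by positivity)]
  have hM' : 1 / (1 - R ^ 2) ≤ M := by
    refine le_trans ?_ hM
    exact one_div_le_one_div_of_le (by linarith) (by nlinarith)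
  have h2 := tail_bound hR2 hz hM'
  have h3 : (SM R M : ℂ) = ∑ j ∈ Finset.range M, ((R ^ 2 : ℝ) : ℂ) ^ (j + 1) / ((j : ℂ) + 1) := by
    unfold SM cf
    push_cast
    apply Finset.sum_congr rfl
    intro j _
    rw [← pow_mul]
    have : 2 * (j + 1) = (j + 1) + (j + 1) := by ring
    rw [this, pow_add]; ring
  rw [← h3] at h2
  have h4 : Complex.log (1 - ((R ^ 2 : ℝ) : ℂ)) = (Real.log (1 - R ^ 2) : ℂ) := by
    rw [Complex.ofReal_log (by linarith)]
    push_cast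
    rfl
  rw [h4, ← Complex.ofReal_add, Complex.norm_real, Real.norm_eq_abs] at h2
  have := (abs_le.mp h2).1
  linarith

lemma SM_Rm_ge (m : ℕ) {M : ℕ} (hM : 1 / (1 - Rm m) ≤ M) :
    ((m : ℝ) - 1) * (69 / 100) - 1 ≤ SM (Rm m) M := by
  have h0 := Rm_nonneg m
  have h1 := Rm_lt m
  refine le_trans ?_ (SM_ge h0 h1 hM)
  have h2 : 1 - Rm m ^ 2 ≤ 2 * (1 / 2) ^ m := by
    have : 1 - Rm m = (1 / 2) ^ m := by unfold Rm; ring
    rw [← this]
    nlinarith
  have h3 : 0 < 1 - Rm m ^ 2 := by nlinarith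
  have h4 := Real.log_le_log h3 h2
  rw [Real.log_mul (by norm_num) (by positivity), Real.log_pow, one_div, Real.log_inv] at h4
  have h5 := Real.log_two_gt_d9
  rcases Nat.eq_zero_or_pos m with rfl | hm
  · have h6 : Rm 0 = 0 := by unfold Rm; norm_num
    rw [h6]
    norm_num
  · have hm' : (1 : ℝ) ≤ m := by exact_mod_cast hm
    nlinarith

end Pool.Agent.Lib.MP_7a0cb1_an
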