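import Pool.Agent.Lib.MP_7a0cb1_an.Fac

/-!
# The zero-free factor
-/

open MeasureTheory AddCircle Filter Topology Metric
open scoped ENNReal ComplexConjugate

namespace Pool.Agent.Lib.MP_7a0cb1_an

/-- The hypothesis obtained from the functional analytic part. -/
def LowNear (I : Circ → ℂ) (δ : ℝ) : Prop :=
  ∀ a : ℂ, ‖a‖ < 1 → ∃ ζ : ℂ, ‖ζ‖ ≤ 1 / 2 ∧ δ ≤ ‖ext I (mo a ζ)‖

open Classical in
/-- `1 - |a_n|`. -/
noncomputable def en (I : Circ → ℂ) (n : ℕ) : ℝ :=
  if HasZ (sq I n) then 1 - ‖zz (sq I n)‖ else 0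

lemma en_nonneg {I : Circ → ℂ} (hI : IsInner I) (n : ℕ) : 0 ≤ en I n := by
  unfold en
  split_ifs with h
  · linarith [(zz_spec (sq_inner hI n) h).1.1]
  · exact le_rfl

lemma en_le_gd {I : Circ → ℂ} (hI : IsInner I) (n : ℕ) : en I n ≤ gd I n 0 := by
  unfold en gd fac
  split_ifs with h
  · have h1 := (zz_spec (sq_inner hI n) h).1.1
    rw [bfac_eq, norm_mul, norm_uc, one_mul]
    unfold bd
    rw [mul_zero, sub_zero, div_one, zero_sub, norm_neg]
    nlinarith [norm_nonneg (zz (sq I n))]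
  · simp

lemma gd_compare {I : Circ → ℂ} (hI : IsInner I) (n : ℕ) {a ζ : ℂ} (ha : ‖a‖ < 1)
    (hζ : ‖ζ‖ ≤ 1 / 2) : gd I n a ≤ 3 * gd I n (mo a ζ) := by
  unfold gd fac
  split_ifs with h
  · have h1 := (zz_spec (sq_inner hI n) h).1.1
    rw [bfac_eq, bfac_eq, norm_mul, norm_mul, norm_uc, one_mul, one_mul]
    exact defect_compare ha h1 hζ
  · simp

/-- The uniform bound. -/
lemma sum_gd_unif {I : Circ → ℂ} (hI : IsInner I) {δ : ℝ} (hδ : 0 < δ) (H : LowNear I δ)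
    {a : ℂ} (ha : ‖a‖ < 1) (n : ℕ) :
    ∑ i ∈ Finset.range n, gd I i a ≤ 3 * (-(2 * Real.log δ)) := by
  obtain ⟨ζ, hζ, h⟩ := H a ha
  have h1 := sum_gd_le hI n (norm_mo_lt ha (by linarith : ‖ζ‖ < 1)) hδ h
  calc ∑ i ∈ Finset.range n, gd I i a ≤ ∑ i ∈ Finset.range n, 3 * gd I i (mo a ζ) :=
        Finset.sum_le_sum fun i _ => gd_compare hI i ha hζ
    _ = 3 * ∑ i ∈ Finset.range n, gd I i (mo a ζ) := by rw [Finset.mul_sum]
    _ ≤ _ := by linarith

lemma summable_en {I : Circ → ℂ} (hI : IsInner I) {δ : ℝ} (hδ : 0 < δ) (H : LowNear I δ) :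
    Summable (en I) := by
  refine summable_of_sum_range_le (fun n => en_nonneg hI n) (c := 3 * (-(2 * Real.log δ))) ?_
  intro n
  refine le_trans (Finset.sum_le_sum fun i _ => en_le_gd hI i) ?_
  exact sum_gd_unif hI hδ H (by simp) n

lemma norm_one_sub_bfac_le {a z : ℂ} (ha : ‖a‖ < 1) (hz : ‖z‖ < 1) :
    ‖1 - bfac a z‖ ≤ (1 - ‖a‖) * (2 / (1 - ‖z‖)) := by
  have hz1 : 0 < 1 - ‖z‖ := by linarith
  unfold bfac
  split_ifs with h
  · rw [h, norm_zero, sub_zero, one_mul]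
    have := norm_sub_le (1 : ℂ) z
    rw [norm_one] at this
    refine this.trans ?_
    rw [le_div_iff₀ hz1]
    nlinarith [norm_nonneg z]
  · have hne : (1 : ℂ) - conj a * z ≠ 0 := one_sub_ne (norm_conj_lt ha) hz.le
    have hn : (1 - ‖z‖) ≤ ‖(1 : ℂ) - conj a * z‖ := by
      have h1 := norm_sub_norm_le (1 : ℂ) (conj a * z)
      rw [norm_one, norm_mul, Complex.norm_conj] at h1
      nlinarith [norm_nonneg z, norm_nonneg a]
    have hc : conj a * a = (‖a‖ : ℂ) ^ 2 := by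
      rw [mul_comm, Complex.mul_conj, Complex.normSq_eq_norm_sq]; push_cast; rfl
    have h2 : 1 - (‖a‖ : ℂ) / a * ((a - z) / (1 - conj a * z)) =
        ((1 - ‖a‖ : ℝ) : ℂ) * ((a + ‖a‖ * z) / (a * (1 - conj a * z))) := by
      have hha : a * (1 - conj a * z) ≠ 0 := mul_ne_zero h hne
      rw [div_mul_div_comm, eq_comm, mul_div_assoc', div_eq_iff hha, sub_mul, one_mul,
        div_mul_cancel₀ _ hha]
      push_cast
      linear_combination (z) * hc
    rw [h2, norm_mul, Complex.norm_real, Real.norm_of_nonneg (by linarith)]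
    apply mul_le_mul_of_nonneg_left _ (by linarith)
    have ha0 : 0 < ‖a‖ := norm_pos_iff.mpr h
    rw [norm_div, norm_mul, div_le_div_iff₀ (by positivity) hz1]
    have h3 : ‖a + ‖a‖ * z‖ ≤ 2 * ‖a‖ := by
      refine (norm_add_le _ _).trans ?_
      rw [norm_mul, Complex.norm_real, norm_norm]
      nlinarith
    calc ‖a + ‖a‖ * z‖ * (1 - ‖z‖) ≤ 2 * ‖a‖ * ‖(1 : ℂ) - conj a * z‖ :=
          mul_le_mul h3 hn hz1.le (by positivity)
      _ = _ := by ring

lemma norm_one_sub_fac_le {I : Circ → ℂ} (hI : IsInner I) (n : ℕ) {z : ℂ} (hz : ‖z‖ < 1) :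
    ‖1 - fac I n z‖ ≤ en I n * (2 / (1 - ‖z‖)) := by
  unfold fac en
  split_ifs with h
  · exact norm_one_sub_bfac_le (zz_spec (sq_inner hI n) h).1.1 hz
  · simp

/-- The increments. -/
noncomputable def Fn (I : Circ → ℂ) (n : ℕ) (z : ℂ) : ℂ := ext (sq I (n + 1)) z - ext (sq I n) z

lemma norm_Fn_le {I : Circ → ℂ} (hI : IsInner I) (n : ℕ) {z : ℂ} (hz : ‖z‖ < 1) :
    ‖Fn I n z‖ ≤ en I n * (2 / (1 - ‖z‖)) := by
  have h1 : Fn I n z = (1 - fac I n z) * ext (sq I (n + 1)) z := by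
    unfold Fn
    rw [ext_sq_succ hI n hz]; ring
  rw [h1, norm_mul]
  have h2 := norm_one_sub_fac_le hI n hz
  have h3 := norm_ext_inner_le (sq_inner hI (n + 1)) hz
  calc ‖1 - fac I n z‖ * ‖ext (sq I (n + 1)) z‖ ≤ ‖1 - fac I n z‖ * 1 :=
        mul_le_mul_of_nonneg_left h3 (norm_nonneg _)
    _ ≤ _ := by rw [mul_one]; exact h2

/-- The zero-free factor. -/
noncomputable def Slim (I : Circ → ℂ) (z : ℂ) : ℂ := ext I z + ∑' n, Fn I n z

lemma differentiableOn_Slim {I : Circ → ℂ} (hI : IsInner I) {δ : ℝ} (hδ : 0 < δ)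
    (H : LowNear I δ) : DifferentiableOn ℂ (Slim I) (ball 0 1) := by
  have hs := summable_en hI hδ H
  have h1 : DifferentiableOn ℂ (fun z => ∑' n, Fn I n z) (ball 0 1) := by
    intro z hz
    rw [mem_ball_zero_iff] at hz
    obtain ⟨r, hr1, hr2⟩ := exists_between hz
    have h2 : DifferentiableOn ℂ (fun w => ∑' n, Fn I n w) (ball 0 r) := by
      apply Complex.differentiableOn_tsum_of_summable_norm (hs.mul_right (2 / (1 - r))) _ isOpen_ball
      · intro n w hw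
        rw [mem_ball_zero_iff] at hw
        refine (norm_Fn_le hI n (hw.trans hr2)).trans ?_
        apply mul_le_mul_of_nonneg_left _ (en_nonneg hI n)
        apply div_le_div_of_nonneg_left (by norm_num) (by linarith) (by linarith)
      · intro n
        exact ((differentiableOn_ext (sq_inner hI (n + 1)).1.1).sub
          (differentiableOn_ext (sq_inner hI n).1.1)).mono (ball_subset_ball hr2.le)
    have h3 : z ∈ ball (0 : ℂ) r := by rwa [mem_ball_zero_iff]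
    exact (h2.differentiableAt (isOpen_ball.mem_nhds h3)).differentiableWithinAt
  exact (differentiableOn_ext hI.1.1).add h1

lemma tendsto_Slim {I : Circ → ℂ} (hI : IsInner I) {δ : ℝ} (hδ : 0 < δ) (H : LowNear I δ) {z : ℂ}
    (hz : ‖z‖ < 1) : Tendsto (fun n => ext (sq I n) z) atTop (𝓝 (Slim I z)) := by
  have hs := summable_en hI hδ H
  have h1 : Summable (fun n => Fn I n z) :=
    Summable.of_norm_bounded (hs.mul_right (2 / (1 - ‖z‖))) (fun n => norm_Fn_le hI n hz)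
  have h2 := h1.hasSum.tendsto_sum_nat
  have h3 : (fun n => ext (sq I n) z) = fun n => ext I z + ∑ i ∈ Finset.range n, Fn I i z := by
    funext n
    unfold Fn
    rw [Finset.sum_range_sub (fun n => ext (sq I n) z)]
    show ext (sq I n) z = ext I z + (ext (sq I n) z - ext I z)
    ring
  rw [h3]
  exact tendsto_const_nhds.add h2

lemma norm_sq_mono {I : Circ → ℂ} (hI : IsInner I) {z : ℂ} (hz : ‖z‖ < 1) :
    Monotone (fun n => ‖ext (sq I n) z‖) := by
  apply monotone_nat_of_le_succ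
  intro n
  rw [ext_sq_succ hI n hz, norm_mul]
  exact mul_le_of_le_one_left (norm_nonneg _) (norm_fac_le hI n hz)

lemma norm_sq_le_Slim {I : Circ → ℂ} (hI : IsInner I) {δ : ℝ} (hδ : 0 < δ) (H : LowNear I δ)
    {z : ℂ} (hz : ‖z‖ < 1) (n : ℕ) : ‖ext (sq I n) z‖ ≤ ‖Slim I z‖ :=
  (norm_sq_mono hI hz).ge_of_tendsto (tendsto_Slim hI hδ H hz).norm n

lemma norm_Slim_le {I : Circ → ℂ} (hI : IsInner I) {δ : ℝ} (hδ : 0 < δ) (H : LowNear I δ) {z : ℂ}
    (hz : ‖z‖ < 1) : ‖Slim I z‖ ≤ 1 :=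
  le_of_tendsto (tendsto_Slim hI hδ H hz).norm
    (Eventually.of_forall fun n => norm_ext_inner_le (sq_inner hI n) hz)

lemma Slim_ne_zero {I : Circ → ℂ} (hI : IsInner I) {δ : ℝ} (hδ : 0 < δ) (H : LowNear I δ) {z : ℂ}
    (hz : ‖z‖ < 1) : Slim I z ≠ 0 := by
  intro h0
  have h1 : ∀ n, ext (sq I n) z = 0 := by
    intro n
    have := norm_sq_le_Slim hI hδ H hz n
    rw [h0, norm_zero] at this
    exact norm_le_zero_iff.mp this
  have h2 : ∀ n, 1 - ‖z‖ ≤ en I n := by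
    intro n
    have hZ : HasZ (sq I n) := ⟨z, hz, h1 n⟩
    have h3 := (zz_spec (sq_inner hI n) hZ).2 z hz (h1 n)
    unfold en
    rw [if_pos hZ]
    linarith
  have h3 := (summable_en hI hδ H).tendsto_atTop_zero
  have h4 := ge_of_tendsto h3 (Eventually.of_forall h2)
  linarith

end Pool.Agent.Lib.MP_7a0cb1_an
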