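import Pool.Agent.Lib.MP_7a0cb1_an.Tk

/-!
# Peak functions
-/

open MeasureTheory AddCircle Filter Topology
open scoped ENNReal ComplexConjugate

namespace Pool.Agent.Lib.MP_7a0cb1_an

/-- `t(x) = 1 - conj ζ e(x)`. -/
noncomputable def tt (ζ : ℂ) (x : Circ) : ℂ := 1 - conj ζ * ee x

/-- The peak function `δ / (t + δ)`. -/
noncomputable def om (ζ : ℂ) (δ : ℝ) (x : Circ) : ℂ :=
  ((δ / (1 + δ) : ℝ) : ℂ) * gk (conj (ζ / (1 + δ))) x

lemma norm_pt {ζ : ℂ} (hζ : ‖ζ‖ = 1) {δ : ℝ} (hδ : 0 < δ) : ‖ζ / (1 + (δ : ℂ))‖ < 1 := by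
  have : (1 + (δ : ℂ)) = ((1 + δ : ℝ) : ℂ) := by push_cast; ring
  rw [this, norm_div, hζ, Complex.norm_real, Real.norm_of_nonneg (by linarith),
    div_lt_one (by linarith)]
  linarith

lemma om_inHinf {ζ : ℂ} (hζ : ‖ζ‖ = 1) {δ : ℝ} (hδ : 0 < δ) : InHinf (om ζ δ) :=
  (gk_inHinf (norm_conj_lt (norm_pt hζ hδ))).const_mul _

lemma tt_re_nonneg {ζ : ℂ} (hζ : ‖ζ‖ = 1) (x : Circ) : 0 ≤ (tt ζ x).re := by
  unfold tt
  have h1 := (abs_le.mp (Complex.abs_re_le_norm (conj ζ * ee x))).2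
  rw [norm_mul, Complex.norm_conj, hζ, norm_ee, mul_one] at h1
  rw [Complex.sub_re, Complex.one_re]
  linarith

lemma tt_add_ne {ζ : ℂ} (hζ : ‖ζ‖ = 1) {δ : ℝ} (hδ : 0 < δ) (x : Circ) : tt ζ x + δ ≠ 0 := by
  intro h
  have h1 := congrArg Complex.re h
  rw [Complex.add_re, Complex.ofReal_re, Complex.zero_re] at h1
  have := tt_re_nonneg hζ x
  linarith

lemma om_eq {ζ : ℂ} (hζ : ‖ζ‖ = 1) {δ : ℝ} (hδ : 0 < δ) (x : Circ) :
    om ζ δ x = δ / (tt ζ x + δ) := by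
  have h1 := tt_add_ne hζ hδ x
  have h2 : (1 + (δ : ℂ)) ≠ 0 := by
    have : (1 + (δ : ℂ)) = ((1 + δ : ℝ) : ℂ) := by push_cast; ring
    rw [this]
    exact_mod_cast (by linarith : (1 + δ : ℝ) ≠ 0)
  unfold om gk
  have h3 : 1 - conj (ζ / (1 + (δ : ℂ))) * ee x = (tt ζ x + δ) / (1 + δ) := by
    unfold tt
    simp only [map_div₀, map_add, map_one, Complex.conj_ofReal]
    field_simp
    ring
  rw [h3]
  push_cast
  field_simp

lemma norm_tt_add_ge {ζ : ℂ} (hζ : ‖ζ‖ = 1) {δ : ℝ} (hδ : 0 < δ) (x : Circ) :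
    δ ≤ ‖tt ζ x + δ‖ := by
  have h1 := (abs_le.mp (Complex.abs_re_le_norm (tt ζ x + δ))).2
  rw [Complex.add_re, Complex.ofReal_re] at h1
  have := tt_re_nonneg hζ x
  linarith

lemma norm_tt_add_ge' {ζ : ℂ} (hζ : ‖ζ‖ = 1) {δ : ℝ} (hδ : 0 < δ) (x : Circ) :
    ‖tt ζ x‖ ≤ ‖tt ζ x + δ‖ := by
  have hδ' : 0 ≤ δ := hδ.le
  rw [← abs_of_nonneg (norm_nonneg (tt ζ x)), ← abs_of_nonneg (norm_nonneg (tt ζ x + δ))]
  apply sq_le_sq.mp
  rw [← Complex.normSq_eq_norm_sq, ← Complex.normSq_eq_norm_sq, Complex.normSq_apply,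
    Complex.normSq_apply]
  simp only [Complex.add_re, Complex.add_im, Complex.ofReal_re, Complex.ofReal_im, add_zero]
  have := tt_re_nonneg hζ x
  nlinarith

lemma norm_om_le {ζ : ℂ} (hζ : ‖ζ‖ = 1) {δ : ℝ} (hδ : 0 < δ) (x : Circ) : ‖om ζ δ x‖ ≤ 1 := by
  rw [om_eq hζ hδ, norm_div, Complex.norm_real, Real.norm_of_nonneg hδ.le]
  have h := norm_tt_add_ge hζ hδ x
  exact div_le_one_of_le₀ h (norm_nonneg _)

lemma norm_om_mul_le {ζ : ℂ} (hζ : ‖ζ‖ = 1) {δ : ℝ} (hδ : 0 < δ) (x : Circ) :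
    ‖om ζ δ x‖ * ‖tt ζ x‖ ≤ δ := by
  rw [om_eq hζ hδ, norm_div, Complex.norm_real, Real.norm_of_nonneg hδ.le, div_mul_eq_mul_div]
  have h := norm_tt_add_ge hζ hδ x
  rw [div_le_iff₀ (by linarith)]
  exact mul_le_mul_of_nonneg_left (norm_tt_add_ge' hζ hδ x) hδ.le

lemma one_sub_om {ζ : ℂ} (hζ : ‖ζ‖ = 1) {δ : ℝ} (hδ : 0 < δ) (x : Circ) :
    1 - om ζ δ x = tt ζ x / (tt ζ x + δ) := by
  rw [om_eq hζ hδ]
  have := tt_add_ne hζ hδ x
  field_simp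
  ring

lemma norm_one_sub_om_le {ζ : ℂ} (hζ : ‖ζ‖ = 1) {δ : ℝ} (hδ : 0 < δ) (x : Circ) :
    ‖1 - om ζ δ x‖ ≤ 1 := by
  rw [one_sub_om hζ hδ, norm_div]
  exact div_le_one_of_le₀ (norm_tt_add_ge' hζ hδ x) (norm_nonneg _)

lemma norm_one_sub_om_mul_le {ζ : ℂ} (hζ : ‖ζ‖ = 1) {δ : ℝ} (hδ : 0 < δ) (x : Circ) :
    ‖1 - om ζ δ x‖ * δ ≤ ‖tt ζ x‖ := by
  rw [one_sub_om hζ hδ, norm_div, div_mul_eq_mul_div]
  have h := norm_tt_add_ge hζ hδ x
  rw [div_le_iff₀ (by linarith)]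
  exact mul_le_mul_of_nonneg_left h (norm_nonneg _)

lemma om_continuous {ζ : ℂ} (hζ : ‖ζ‖ = 1) {δ : ℝ} (hδ : 0 < δ) : Continuous (om ζ δ) :=
  continuous_const.mul (gk_continuous (norm_conj_lt (norm_pt hζ hδ)))

lemma tt_continuous (ζ : ℂ) : Continuous (tt ζ) :=
  continuous_const.sub (continuous_const.mul ee_continuous)

lemma integral_normSq_gk {w : ℂ} (hw : ‖w‖ < 1) :
    ∫ x, ‖gk (conj w) x‖ ^ 2 ∂mes = 1 / (1 - ‖w‖ ^ 2) := by
  have h0 : 0 < 1 - ‖w‖ ^ 2 := by nlinarith [norm_nonneg w]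
  have h1 : (fun x => ‖gk (conj w) x‖ ^ 2) = fun x => 1 / (1 - ‖w‖ ^ 2) * pois w x := by
    ext x
    unfold gk pois
    rw [norm_inv]
    field_simp
  rw [h1, integral_const_mul, integral_pois hw, mul_one]

lemma integral_norm_om_le {ζ : ℂ} (hζ : ‖ζ‖ = 1) {δ : ℝ} (hδ : 0 < δ) {κ : ℝ} (hκ : 0 < κ) :
    ∫ x, ‖om ζ δ x‖ ∂mes ≤ κ / 2 + δ / (4 * κ) := by
  have h1 : ∫ x, ‖om ζ δ x‖ ^ 2 ∂mes ≤ δ / 2 := by
    have h2 : ∀ x, ‖om ζ δ x‖ ^ 2 = (δ / (1 + δ)) ^ 2 * ‖gk (conj (ζ / (1 + δ))) x‖ ^ 2 := by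
      intro x
      unfold om
      rw [norm_mul, mul_pow, Complex.norm_real, Real.norm_of_nonneg (by positivity)]
    simp only [h2]
    rw [integral_const_mul, integral_normSq_gk (norm_pt hζ hδ)]
    have h3 : ‖ζ / (1 + (δ : ℂ))‖ = 1 / (1 + δ) := by
      have : (1 + (δ : ℂ)) = ((1 + δ : ℝ) : ℂ) := by push_cast; ring
      rw [this, norm_div, hζ, Complex.norm_real, Real.norm_of_nonneg (by linarith)]
    rw [h3]
    have h4 : 1 - (1 / (1 + δ)) ^ 2 = δ * (2 + δ) / (1 + δ) ^ 2 := by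
      field_simp; ring
    rw [h4]
    have h5 : (δ / (1 + δ)) ^ 2 * (1 / (δ * (2 + δ) / (1 + δ) ^ 2)) = δ / (2 + δ) := by
      field_simp
    rw [h5]
    apply div_le_div_of_nonneg_left hδ.le (by norm_num) (by linarith)
  have i1 : Integrable (fun x => ‖om ζ δ x‖) mes := integrable_of_cont (om_continuous hζ hδ).norm
  have i2 : Integrable (fun x => ‖om ζ δ x‖ ^ 2) mes :=
    integrable_of_cont ((om_continuous hζ hδ).norm.pow 2)
  have i3 : Integrable (fun x => κ / 2 + 1 / (2 * κ) * ‖om ζ δ x‖ ^ 2) mes :=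
    (integrable_const _).add (i2.const_mul _)
  calc ∫ x, ‖om ζ δ x‖ ∂mes ≤ ∫ x, (κ / 2 + 1 / (2 * κ) * ‖om ζ δ x‖ ^ 2) ∂mes := by
        apply integral_mono i1 i3
        intro x
        have h6 : 0 ≤ (‖om ζ δ x‖ - κ) ^ 2 / (2 * κ) := by positivity
        have h7 : κ / 2 + 1 / (2 * κ) * ‖om ζ δ x‖ ^ 2 - ‖om ζ δ x‖ =
          (‖om ζ δ x‖ - κ) ^ 2 / (2 * κ) := by field_simp; ring
        show ‖om ζ δ x‖ ≤ κ / 2 + 1 / (2 * κ) * ‖om ζ δ x‖ ^ 2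
        linarith
    _ = κ / 2 + 1 / (2 * κ) * ∫ x, ‖om ζ δ x‖ ^ 2 ∂mes := by
        rw [integral_add (integrable_const _) (i2.const_mul _), integral_const_mul]
        simp
    _ ≤ κ / 2 + 1 / (2 * κ) * (δ / 2) := by
        have : 0 ≤ 1 / (2 * κ) := by positivity
        nlinarith
    _ = κ / 2 + δ / (4 * κ) := by field_simp; ring

lemma integral_tt_pois {ζ : ℂ} (hζ : ‖ζ‖ = 1) {a : ℂ} (ha : ‖a‖ < 1) {κ : ℝ} (hκ : 0 < κ) :
    ∫ x, ‖tt ζ x‖ * pois a x ∂mes ≤ κ / 2 + (1 / (2 * κ)) * (2 - 2 * (conj ζ * a).re) := by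
  have h1 : ∫ x, ‖tt ζ x‖ ^ 2 * pois a x ∂mes = 2 - 2 * (conj ζ * a).re := by
    have e1 := PI_eq_ext (InHinf.const 1) ha
    have e2 := PI_eq_ext (ee_inHinf.const_mul (conj ζ)) ha
    have e3 := PI_cj (ee_inHinf.const_mul (conj ζ)) ha
    rw [ext_const] at e1
    rw [ext_const_mul, ext_ee ha] at e2 e3
    unfold PI at e1 e2 e3
    have i1 : Integrable (fun x => (1 : ℂ) * (pois a x : ℂ)) mes :=
      ((InLinf.const 1).mul (pois_inLinf ha)).integrable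
    have i2 : Integrable (fun x => (conj ζ * ee x) * (pois a x : ℂ)) mes :=
      ((ee_inHinf.const_mul (conj ζ)).1.mul (pois_inLinf ha)).integrable
    have i3 : Integrable (fun x => cj (fun x => conj ζ * ee x) x * (pois a x : ℂ)) mes :=
      ((ee_inHinf.const_mul (conj ζ)).1.cj.mul (pois_inLinf ha)).integrable
    have i4 : Integrable (fun x => 2 * ((1 : ℂ) * (pois a x : ℂ)) -
        (conj ζ * ee x) * (pois a x : ℂ)) mes := (i1.const_mul 2).sub i2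
    have e4 : ((∫ x, ‖tt ζ x‖ ^ 2 * pois a x ∂mes : ℝ) : ℂ) = 2 * 1 - (conj ζ * a) - conj (conj ζ * a) := by
      rw [← e3, ← e2, ← e1, ← integral_const_mul, ← integral_sub (i1.const_mul 2) i2,
        ← integral_sub i4 i3, ← integral_complex_ofReal]
      congr 1
      ext x
      have h3 : ((‖tt ζ x‖ ^ 2 : ℝ) : ℂ) = tt ζ x * conj (tt ζ x) := by
        rw [← Complex.normSq_eq_norm_sq, ← Complex.mul_conj]
      rw [Complex.ofReal_mul, h3]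
      unfold tt cj
      have h4 : ζ * conj ζ = 1 := by rw [Complex.mul_conj, Complex.normSq_eq_norm_sq, hζ]; norm_num
      have h5 := ee_mul_conj x
      simp only [map_sub, map_one, map_mul, Complex.conj_conj]
      linear_combination ((pois a x : ℂ) * ee x * conj (ee x)) * h4 + (pois a x : ℂ) * h5
    have e5 := congrArg Complex.re e4
    rw [Complex.ofReal_re] at e5
    rw [e5]
    simp only [Complex.sub_re, Complex.conj_re, Complex.mul_re, Complex.one_re, Complex.one_im]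
    simp
    ring
  have c1 : Continuous (fun x => ‖tt ζ x‖ * pois a x) :=
    (tt_continuous ζ).norm.mul (pois_continuous ha)
  have c2 : Continuous (fun x => ‖tt ζ x‖ ^ 2 * pois a x) :=
    ((tt_continuous ζ).norm.pow 2).mul (pois_continuous ha)
  calc ∫ x, ‖tt ζ x‖ * pois a x ∂mes
      ≤ ∫ x, (κ / 2 * pois a x + 1 / (2 * κ) * (‖tt ζ x‖ ^ 2 * pois a x)) ∂mes := by
        apply integral_mono (integrable_of_cont c1)
          (((pois_integrable ha).const_mul _).add ((integrable_of_cont c2).const_mul _))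
        intro x
        have hp := (pois_pos ha x).le
        have h6 : 0 ≤ (‖tt ζ x‖ - κ) ^ 2 / (2 * κ) * pois a x := by positivity
        have h7 : κ / 2 * pois a x + 1 / (2 * κ) * (‖tt ζ x‖ ^ 2 * pois a x) -
          ‖tt ζ x‖ * pois a x = (‖tt ζ x‖ - κ) ^ 2 / (2 * κ) * pois a x := by field_simp; ring
        show ‖tt ζ x‖ * pois a x ≤ κ / 2 * pois a x + 1 / (2 * κ) * (‖tt ζ x‖ ^ 2 * pois a x)
        linarith
    _ = κ / 2 + 1 / (2 * κ) * (2 - 2 * (conj ζ * a).re) := by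
        rw [integral_add ((pois_integrable ha).const_mul _) ((integrable_of_cont c2).const_mul _),
          integral_const_mul, integral_const_mul, integral_pois ha, h1, mul_one]

end Pool.Agent.Lib.MP_7a0cb1_an
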