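import Pool.Agent.Lib.MP_7a0cb1_an.Om
import Pool.Agent.Lib.MP_7a0cb1_an.Baire

/-!
# The main contradiction
-/

open MeasureTheory AddCircle Filter Topology
open scoped ENNReal ComplexConjugate

namespace Pool.Agent.Lib.MP_7a0cb1_an

lemma near_of_inLb {F : Circ → ℂ} (h : InLb F) {ε : ℝ} (hε : 0 < ε) : ∃ N, Near F N ε := by
  obtain ⟨u, v, hu, hv, h1⟩ := h.2 ε hε
  obtain ⟨A, hA0, hA⟩ := hu.1.bound
  obtain ⟨B, hB0, hB⟩ := hv.1.bound
  refine ⟨max A B, u, v, hu, hv, ?_, ?_, h1⟩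
  · filter_upwards [hA] with x hx using hx.trans (le_max_left _ _)
  · filter_upwards [hB] with x hx using hx.trans (le_max_right _ _)

lemma norm_Phi_near {a : ℂ} (ha : ‖a‖ < 1) (m : ℕ) {F : Circ → ℂ} (hF : InLinf F) {N ε : ℝ}
    (hε : 0 ≤ ε) (h : Near F N ε) : ‖Phi a (Rm m) F‖ ≤ 2 * N + ε * (3 / 4 * m) := by
  obtain ⟨u, v, hu, hv, hu', hv', h1⟩ := h
  have r0 := Rm_nonneg m
  have r1 := Rm_lt m
  have e1 := Phi_sub ha r0 r1 hF (hu.1.add hv.1.cj)
  rw [Phi_add ha r0 r1 hu.1 hv.1.cj] at e1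
  have e2 : Phi a (Rm m) F = Phi a (Rm m) (fun x => F x - (u x + cj v x)) +
      (Phi a (Rm m) u + Phi a (Rm m) (cj v)) := by rw [e1]; ring
  rw [e2]
  have n1 := norm_Phi_le ha r0 r1 h1
  have n2 := norm_Phi_hinf ha r0 r1 hu hu'
  have n3 := norm_Phi_cj ha r0 r1 hv hv'
  have n4 := mul_le_mul_of_nonneg_left (Lam_le ha m) hε
  have n5 := norm_add_le (Phi a (Rm m) (fun x => F x - (u x + cj v x)))
    (Phi a (Rm m) u + Phi a (Rm m) (cj v))
  have n6 := norm_add_le (Phi a (Rm m) u) (Phi a (Rm m) (cj v))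
  linarith

lemma Lp_im_inLinf {a : ℂ} (ha : ‖a‖ < 1) (R : ℝ) (M : ℕ) :
    InLinf (fun x => ((Lp a R M x).im : ℂ)) := by
  have h3 : (fun x => ((Lp a R M x).im : ℂ)) =
      fun x => (2 * Complex.I)⁻¹ * (Lp a R M x - cj (Lp a R M) x) := by
    ext x
    rw [im_eq]
    unfold cj
    ring
  rw [h3]
  exact (InLinf.const _).mul ((Lp_inHinf ha R M).1.sub (Lp_inHinf ha R M).1.cj)

lemma inv_one_sub_Rm (m : ℕ) : 1 / (1 - Rm m) = 2 ^ m := by
  unfold Rm
  rw [show (1 : ℝ) - (1 - (1 / 2) ^ m) = (1 / 2) ^ m by ring, one_div, ← inv_pow]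
  norm_num

lemma re_close {ζ a : ℂ} (hζ : ‖ζ‖ = 1) : 2 - 2 * (conj ζ * a).re ≤ 2 * ‖a - ζ‖ := by
  have h1 : (1 : ℂ) = conj ζ * ζ := by
    rw [mul_comm, Complex.mul_conj, Complex.normSq_eq_norm_sq, hζ]; norm_num
  have h2 : (conj ζ * (ζ - a)).re ≤ ‖a - ζ‖ := by
    refine (Complex.re_le_norm _).trans ?_
    rw [norm_mul, Complex.norm_conj, hζ, one_mul, norm_sub_rev]
  rw [mul_sub, ← h1, Complex.sub_re, Complex.one_re] at h2
  linarith

theorem key_contra {I : Circ → ℂ} (hI : IsInner I)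
    (hJ : ∀ g, InHinf g → InLb (fun x => cj I x * g x)) {ζ : ℂ} (hζ : ‖ζ‖ = 1)
    (H : ∀ (J : ℕ) (ε : ℝ), 0 < ε → ∃ a : ℂ, ‖a‖ < 1 ∧ ‖a - ζ‖ < ε ∧
      ∀ j < J, ‖tc a I j‖ ≤ ε) : False := by
  obtain ⟨N, g0, η, hg0, hg0C, hη, HB⟩ := baire_step (cj I) (C := 8) (ε := 1 / 4) (by norm_num)
    (fun g hg => near_of_inLb (hJ g hg) (by norm_num))
  -- the parameters
  obtain ⟨s, hs0, hs1, hsη⟩ : ∃ s : ℝ, 0 < s ∧ s ≤ 1 / 2 ∧ 32 * s ≤ η :=
    ⟨min (η / 32) (1 / 2), by positivity, min_le_right _ _, by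
      have := min_le_left (η / 32) (1 / 2); linarith⟩
  set κ : ℝ := η / 64 with hκdef
  have hκ : 0 < κ := by positivity
  set δ : ℝ := κ ^ 2 with hδdef
  have hδ : 0 < δ := by positivity
  set δ' : ℝ := s * δ with hδ'def
  have hδ' : 0 < δ' := by positivity
  obtain ⟨m, hm⟩ := exists_nat_gt ((2 * N + 2) / (15 / 100))
  rw [div_lt_iff₀ (by norm_num)] at hm
  have r0 := Rm_nonneg m
  have r1 := Rm_lt m
  set M : ℕ := 2 ^ m with hMdef
  have hMR : 1 / (1 - Rm m) = (M : ℝ) := by rw [inv_one_sub_Rm]; push_cast [hMdef]; ring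
  have hMpos : (0 : ℝ) < M := by rw [hMdef]; positivity
  set κ' : ℝ := δ' / (44 * M) with hκ'def
  have hκ' : 0 < κ' := by positivity
  obtain ⟨ε, hε, hε1, hε2⟩ : ∃ ε : ℝ, 0 < ε ∧ ε ≤ κ' ^ 2 / 2 ∧ (M : ℝ) * M * ε ≤ 1 / 4 := by
    refine ⟨min (κ' ^ 2 / 2) (1 / 4 / ((M : ℝ) * M)), by positivity, min_le_left _ _, ?_⟩
    have := min_le_right (κ' ^ 2 / 2) (1 / 4 / ((M : ℝ) * M))
    rw [le_div_iff₀ (by positivity)] at this
    linarith
  obtain ⟨a, ha, haζ, hc⟩ := H M ε hε
  have hM1 : (1 : ℝ) ≤ M := by rw [hMdef]; exact_mod_cast Nat.one_le_two_pow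
  have hMε : (M : ℝ) * ε ≤ 1 / 4 := by nlinarith [mul_pos hMpos hε]
  -- the function
  set G := GG a (Rm m) M I with hGdef
  have hG : InHinf G := GG_inHinf ha _ _ hI.1
  have hG1 : ∀ x, ‖G x - I x * ((Lp a (Rm m) M x).im : ℂ)‖ ≤ M * ε :=
    GG_sub ha r0 r1 M I hε.le hc
  have hL3 : ∀ x, ‖((Lp a (Rm m) M x).im : ℂ)‖ ≤ 3 := by
    intro x
    rw [Complex.norm_real]
    exact Lp_im_le ha r0 r1 hMR.le x
  have hG4 : ∀ x, ‖I x‖ = 1 → ‖G x‖ ≤ 4 := by
    intro x hx
    have h1 := hG1 x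
    have h2 : ‖G x‖ ≤ ‖G x - I x * ((Lp a (Rm m) M x).im : ℂ)‖ +
        ‖I x * ((Lp a (Rm m) M x).im : ℂ)‖ := by
      have := norm_add_le (G x - I x * ((Lp a (Rm m) M x).im : ℂ)) (I x * ((Lp a (Rm m) M x).im : ℂ))
      simpa using this
    rw [norm_mul, hx, one_mul] at h2
    have := hL3 x
    linarith
  set g : Circ → ℂ := fun x => ((1 - s : ℝ) : ℂ) * (g0 x * (1 - om ζ δ x)) + om ζ δ' x * G x
    with hgdef
  have hg : InHinf g := ((hg0.mul ((InHinf.const 1).sub (om_inHinf hζ hδ))).const_mul _).add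
    ((om_inHinf hζ hδ').mul hG)
  have hgC : ∀ᵐ x ∂mes, ‖g x‖ ≤ 8 := by
    filter_upwards [hg0C, hI.2] with x h0 h1
    have h2 := hG4 x h1
    have hs1' : 0 ≤ 1 - s := by linarith
    have h3 : ‖g x‖ ≤ (1 - s) * (8 * ‖1 - om ζ δ x‖) + ‖om ζ δ' x‖ * 4 := by
      refine (norm_add_le _ _).trans ?_
      rw [norm_mul, norm_mul, norm_mul, Complex.norm_real, Real.norm_of_nonneg (by linarith)]
      gcongr
    have h4 := norm_om_le hζ hδ' x
    have h5 := norm_om_mul_le hζ hδ' x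
    have h6 := norm_one_sub_om_le hζ hδ x
    have h7 := norm_one_sub_om_mul_le hζ hδ x
    have h8 := norm_nonneg (1 - om ζ δ x)
    rcases le_or_gt ‖om ζ δ' x‖ (2 * s) with h9 | h9
    · nlinarith
    · have h10 : ‖tt ζ x‖ ≤ δ / 2 := by
        by_contra hcon
        push Not at hcon
        have : (2 * s) * (δ / 2) < ‖om ζ δ' x‖ * ‖tt ζ x‖ := by
          apply mul_lt_mul'' h9 hcon (by positivity) (by positivity)
        rw [hδ'def] at h5
        linarith
      have h11 : ‖1 - om ζ δ x‖ ≤ 1 / 2 := by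
        by_contra hcon
        push Not at hcon
        nlinarith
      nlinarith
  have hκδ : κ / 2 + δ / (4 * κ) ≤ κ := by
    rw [hδdef]
    have : κ ^ 2 / (4 * κ) = κ / 4 := by field_simp
    rw [this]; linarith
  have hκδ' : κ / 2 + δ' / (4 * κ) ≤ κ := by
    refine le_trans ?_ hκδ
    have : δ' / (4 * κ) ≤ δ / (4 * κ) := by
      apply div_le_div_of_nonneg_right _ (by positivity)
      rw [hδ'def]; nlinarith
    linarith
  have hgη : ∫ x, ‖g x - g0 x‖ ∂mes < η := by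
    have h1 : ∫ x, ‖g x - g0 x‖ ∂mes ≤ ∫ x, (8 * s + 8 * ‖om ζ δ x‖ + 4 * ‖om ζ δ' x‖) ∂mes := by
      apply integral_mono_ae
      · exact (hg.1.sub hg0.1).integrable.norm
      · exact ((integrable_const _).add ((integrable_of_cont (om_continuous hζ hδ).norm).const_mul _)).add
          ((integrable_of_cont (om_continuous hζ hδ').norm).const_mul _)
      · filter_upwards [hg0C, hI.2] with x h0 h1
        have h2 := hG4 x h1
        have h3 : g x - g0 x = -(((s : ℝ) : ℂ) * (g0 x * (1 - om ζ δ x))) - g0 x * om ζ δ x +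
            om ζ δ' x * G x := by
          rw [hgdef]; push_cast; ring
        rw [h3]
        have h4 : ‖-(((s : ℝ) : ℂ) * (g0 x * (1 - om ζ δ x))) - g0 x * om ζ δ x +
            om ζ δ' x * G x‖ ≤ s * (‖g0 x‖ * ‖1 - om ζ δ x‖) + ‖g0 x‖ * ‖om ζ δ x‖ +
              ‖om ζ δ' x‖ * ‖G x‖ := by
          refine (norm_add_le _ _).trans ?_
          rw [norm_mul (om ζ δ' x)]
          gcongr
          refine (norm_sub_le _ _).trans ?_
          rw [norm_neg, norm_mul, norm_mul, norm_mul, Complex.norm_real, Real.norm_of_nonneg hs0.le]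
        have h6 := norm_one_sub_om_le hζ hδ x
        have e1 : s * (‖g0 x‖ * ‖1 - om ζ δ x‖) ≤ s * (8 * 1) := by gcongr
        have e2 : ‖g0 x‖ * ‖om ζ δ x‖ ≤ 8 * ‖om ζ δ x‖ := by gcongr
        have e3 : ‖om ζ δ' x‖ * ‖G x‖ ≤ ‖om ζ δ' x‖ * 4 := by gcongr
        linarith
    have j1 : Integrable (fun x => ‖om ζ δ x‖) mes := integrable_of_cont (om_continuous hζ hδ).norm
    have j2 : Integrable (fun x => ‖om ζ δ' x‖) mes :=
      integrable_of_cont (om_continuous hζ hδ').norm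
    have j3 : Integrable (fun x => 8 * s + 8 * ‖om ζ δ x‖) mes :=
      (integrable_const _).add (j1.const_mul _)
    rw [integral_add j3 (j2.const_mul _), integral_add (integrable_const _) (j1.const_mul _)] at h1
    have h2 := integral_norm_om_le hζ hδ hκ
    have h3 := integral_norm_om_le hζ hδ' hκ
    simp only [integral_const_mul, integral_const, probReal_univ, smul_eq_mul, one_mul] at h1
    have : κ * 64 = η := by rw [hκdef]; ring
    linarith
  set τ : ℝ := (1 - ‖a‖) / (4 * M) with hτdef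
  have hτ : 0 < τ := by
    have : 0 < 1 - ‖a‖ := by linarith
    positivity
  obtain ⟨g', hg', hd, hN⟩ := HB g hg hgC hgη τ hτ
  -- the test
  have hJI : InLinf (cj I) := hI.1.1.cj
  have t1 := norm_Phi_near ha m (hJI.mul hg'.1) (by norm_num) hN
  have t2 : ‖Phi a (Rm m) (fun x => cj I x * g x) - Phi a (Rm m) (fun x => cj I x * g' x)‖ ≤ 1 / 2 := by
    rw [← Phi_sub ha r0 r1 (hJI.mul hg.1) (hJI.mul hg'.1)]
    refine (norm_Phi_le_pois ha r0 r1 ((hJI.mul hg.1).sub (hJI.mul hg'.1))).trans ?_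
    rw [hMR]
    have h1 : ∫ x, ‖cj I x * g x - cj I x * g' x‖ * pois a x ∂mes ≤
        2 / (1 - ‖a‖) * ∫ x, ‖g x - g' x‖ ∂mes := by
      rw [← integral_const_mul]
      apply integral_mono_ae
      · have := (((hJI.mul hg.1).sub (hJI.mul hg'.1)).mul (pois_inLinf ha)).integrable.norm
        refine this.congr (Eventually.of_forall fun x => ?_)
        simp only
        rw [norm_mul, Complex.norm_real, Real.norm_of_nonneg (pois_pos ha x).le]
      · exact ((hg.1.sub hg'.1).integrable.norm).const_mul _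
      · filter_upwards [hI.2] with x h1
        have h2 : ‖cj I x * g x - cj I x * g' x‖ = ‖g x - g' x‖ := by
          rw [← mul_sub, norm_mul]
          unfold cj
          rw [Complex.norm_conj, h1, one_mul]
        rw [h2, mul_comm]
        exact mul_le_mul_of_nonneg_right (pois_le ha x) (norm_nonneg _)
    have h2 : 0 < 1 - ‖a‖ := by linarith
    calc (M : ℝ) * ∫ x, ‖cj I x * g x - cj I x * g' x‖ * pois a x ∂mes
        ≤ M * (2 / (1 - ‖a‖) * τ) := by
          apply mul_le_mul_of_nonneg_left _ hMpos.le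
          exact h1.trans (mul_le_mul_of_nonneg_left hd.le (by positivity))
      _ = 1 / 2 := by rw [hτdef]; field_simp; norm_num
  have hLI := Lp_im_inLinf ha (Rm m) M
  have t3 : ‖Phi a (Rm m) (fun x => ((Lp a (Rm m) M x).im : ℂ)) -
      Phi a (Rm m) (fun x => cj I x * g x)‖ ≤ 1 / 2 := by
    rw [← Phi_sub ha r0 r1 hLI (hJI.mul hg.1)]
    refine (norm_Phi_le_pois ha r0 r1 (hLI.sub (hJI.mul hg.1))).trans ?_
    rw [hMR]
    have h1 : ∫ x, ‖((Lp a (Rm m) M x).im : ℂ) - cj I x * g x‖ * pois a x ∂mes ≤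
        11 / δ' * (∫ x, ‖tt ζ x‖ * pois a x ∂mes) + M * ε := by
      have j1 : Integrable (fun x => ‖tt ζ x‖ * pois a x) mes :=
        integrable_of_cont ((tt_continuous ζ).norm.mul (pois_continuous ha))
      have h2 : (M : ℝ) * ε = ∫ x, M * ε * pois a x ∂mes := by
        rw [integral_const_mul, integral_pois ha, mul_one]
      rw [h2, ← integral_const_mul, ← integral_add (j1.const_mul _) ((pois_integrable ha).const_mul _)]
      apply integral_mono_ae
      · have := ((hLI.sub (hJI.mul hg.1)).mul (pois_inLinf ha)).integrable.norm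
        refine this.congr (Eventually.of_forall fun x => ?_)
        simp only
        rw [norm_mul, Complex.norm_real, Real.norm_of_nonneg (pois_pos ha x).le]
      · exact (j1.const_mul _).add ((pois_integrable ha).const_mul _)
      · filter_upwards [hI.2, hg0C] with x h1 h0
        set L : ℂ := ((Lp a (Rm m) M x).im : ℂ) with hLdef
        have hcI : conj (I x) * I x = 1 := by
          rw [mul_comm, Complex.mul_conj, Complex.normSq_eq_norm_sq, h1]; norm_num
        have h3 : L - cj I x * g x = (1 - om ζ δ' x) * L -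
            om ζ δ' x * (conj (I x) * (G x - I x * L)) -
            ((1 - s : ℝ) : ℂ) * (conj (I x) * (g0 x * (1 - om ζ δ x))) := by
          rw [hgdef]
          unfold cj
          linear_combination (-(om ζ δ' x * L)) * hcI
        have n1 := norm_one_sub_om_mul_le hζ hδ x
        have n2 := norm_one_sub_om_mul_le hζ hδ' x
        have n3 := norm_om_le hζ hδ' x
        have n4 : ‖L - cj I x * g x‖ ≤ ‖1 - om ζ δ' x‖ * 3 + 1 * (M * ε) +
            1 * (8 * ‖1 - om ζ δ x‖) := by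
          rw [h3]
          refine (norm_sub_le _ _).trans (add_le_add ((norm_sub_le _ _).trans (add_le_add ?_ ?_)) ?_)
          · rw [norm_mul]
            exact mul_le_mul_of_nonneg_left (hL3 x) (norm_nonneg _)
          · rw [norm_mul, norm_mul, Complex.norm_conj, h1, one_mul]
            exact mul_le_mul n3 (hG1 x) (norm_nonneg _) (by norm_num)
          · rw [norm_mul, norm_mul, norm_mul, Complex.norm_conj, h1, one_mul, Complex.norm_real,
              Real.norm_of_nonneg (by linarith)]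
            apply mul_le_mul (by linarith) _ (by positivity) (by norm_num)
            exact mul_le_mul_of_nonneg_right h0 (norm_nonneg _)
        have n5 : ‖1 - om ζ δ' x‖ ≤ ‖tt ζ x‖ / δ' := by rw [le_div_iff₀ hδ']; exact n2
        have n6 : ‖1 - om ζ δ x‖ ≤ ‖tt ζ x‖ / δ' := by
          have : ‖1 - om ζ δ x‖ ≤ ‖tt ζ x‖ / δ := by rw [le_div_iff₀ hδ]; exact n1
          refine this.trans (div_le_div_of_nonneg_left (norm_nonneg _) hδ' ?_)
          rw [hδ'def]; nlinarith
        have n7 : ‖L - cj I x * g x‖ ≤ 11 / δ' * ‖tt ζ x‖ + M * ε := by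
          have : 11 / δ' * ‖tt ζ x‖ = 11 * (‖tt ζ x‖ / δ') := by ring
          rw [this]; linarith
        have hp := (pois_pos ha x).le
        show ‖L - cj I x * g x‖ * pois a x ≤ 11 / δ' * (‖tt ζ x‖ * pois a x) + M * ε * pois a x
        have := mul_le_mul_of_nonneg_right n7 hp
        linarith
    have h2 : ∫ x, ‖tt ζ x‖ * pois a x ∂mes ≤ κ' := by
      refine (integral_tt_pois hζ ha hκ').trans ?_
      have h3 := re_close (a := a) hζ
      have h4 : 2 - 2 * (conj ζ * a).re ≤ κ' ^ 2 := by linarith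
      calc κ' / 2 + 1 / (2 * κ') * (2 - 2 * (conj ζ * a).re) ≤ κ' / 2 + 1 / (2 * κ') * κ' ^ 2 := by
            gcongr
        _ = κ' := by field_simp; ring
    calc (M : ℝ) * ∫ x, ‖((Lp a (Rm m) M x).im : ℂ) - cj I x * g x‖ * pois a x ∂mes
        ≤ M * (11 / δ' * κ' + M * ε) := by
          apply mul_le_mul_of_nonneg_left _ hMpos.le
          refine h1.trans ?_
          gcongr
      _ = M * (11 / δ' * κ') + M * M * ε := by ring
      _ ≤ 1 / 4 + 1 / 4 := by
          have : M * (11 / δ' * κ') = 1 / 4 := by rw [hκ'def]; field_simp; norm_num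
          linarith
      _ = 1 / 2 := by norm_num
  have t4 := SM_Rm_ge m hMR.le
  have t5 : ‖Phi a (Rm m) (fun x => ((Lp a (Rm m) M x).im : ℂ))‖ = |SM (Rm m) M / 2| := by
    rw [Phi_Lp ha r0 r1, Complex.norm_real, Real.norm_eq_abs]
  have t6 := le_abs_self (SM (Rm m) M / 2)
  have t7 := norm_add_le (Phi a (Rm m) (fun x => ((Lp a (Rm m) M x).im : ℂ)) -
      Phi a (Rm m) (fun x => cj I x * g x)) (Phi a (Rm m) (fun x => cj I x * g x) -
        Phi a (Rm m) (fun x => cj I x * g' x) + Phi a (Rm m) (fun x => cj I x * g' x))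
  have t8 := norm_add_le (Phi a (Rm m) (fun x => cj I x * g x) -
        Phi a (Rm m) (fun x => cj I x * g' x)) (Phi a (Rm m) (fun x => cj I x * g' x))
  rw [sub_add_cancel, sub_add_cancel] at t7
  rw [sub_add_cancel] at t8
  linarith

end Pool.Agent.Lib.MP_7a0cb1_an
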