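import Pool.Agent.Lib.MP_7a0cb1_an.PartB
import Pool.Agent.Lib.MP_7a0cb1_an.Ana

/-!
# A lower bound near every point of the disc
-/

open MeasureTheory AddCircle Filter Topology Metric
open scoped ENNReal ComplexConjugate

namespace Pool.Agent.Lib.MP_7a0cb1_an

theorem partB {I : Circ → ℂ} (hI : IsInner I)
    (hJ : ∀ g, InHinf g → InLb (fun x => cj I x * g x)) :
    ∃ (J : ℕ) (δ : ℝ), 0 < δ ∧ ∀ a : ℂ, ‖a‖ < 1 → ∃ j < J, δ < ‖tc a I j‖ := by
  by_contra hcon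
  push Not at hcon
  have h1 : ∀ n : ℕ, ∃ a : ℂ, ‖a‖ < 1 ∧ ∀ j < n, ‖tc a I j‖ ≤ 1 / ((n : ℝ) + 1) := fun n =>
    hcon n (1 / ((n : ℝ) + 1)) (by positivity)
  choose a ha hc using h1
  obtain ⟨ζ, hζ, φ, hφ, hlim⟩ := (isCompact_closedBall (0 : ℂ) 1).tendsto_subseq
    (x := a) (fun n => by simpa using (ha n).le)
  have hζ1 : ‖ζ‖ ≤ 1 := by simpa using hζ
  -- the limit point lies on the circle
  have hζ' : ‖ζ‖ = 1 := by
    by_contra hne
    have hlt : ‖ζ‖ < 1 := lt_of_le_of_ne hζ1 hne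
    obtain ⟨w, hw, hw0⟩ := exists_ext_ne_zero hI
    have hb := norm_bd_lt hlt hw
    obtain ⟨r, hr1, hr2⟩ := exists_between hb
    obtain ⟨J, δ, hδ, H⟩ := bd_close hI hw hw0 ((norm_nonneg _).trans hr1.le) hr2
    have hcont : ContinuousAt (fun b : ℂ => ‖bd b w‖) ζ := by
      unfold bd
      apply ContinuousAt.norm
      apply ContinuousAt.div
      · exact (continuous_const.sub continuous_id).continuousAt
      · exact (continuous_const.sub (Complex.continuous_conj.mul continuous_const)).continuousAt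
      · exact one_sub_ne (norm_conj_lt hlt) hw.le
    have e1 : ∀ᶠ n in atTop, ‖bd (a (φ n)) w‖ < r :=
      (hcont.tendsto.comp hlim).eventually_lt_const hr1
    have e2 : ∀ᶠ n in atTop, J ≤ φ n := (hφ.tendsto_atTop).eventually_ge_atTop J
    have e3 : ∀ᶠ n : ℕ in atTop, 1 / ((φ n : ℝ) + 1) < δ :=
      ((tendsto_one_div_add_atTop_nhds_zero_nat (𝕜 := ℝ)).comp
        hφ.tendsto_atTop).eventually_lt_const hδ
    obtain ⟨n, h1, h2, h3⟩ := (e1.and (e2.and e3)).exists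
    have := H (a (φ n)) (ha _) (fun j hj => (hc _ j (hj.trans_le h2)).trans h3.le)
    linarith
  refine key_contra hI hJ hζ' ?_
  intro J ε hε
  have e1 : ∀ᶠ n in atTop, ‖a (φ n) - ζ‖ < ε := by
    have := (tendsto_iff_norm_sub_tendsto_zero.mp hlim).eventually_lt_const hε
    exact this
  have e2 : ∀ᶠ n in atTop, J ≤ φ n := (hφ.tendsto_atTop).eventually_ge_atTop J
  have e3 : ∀ᶠ n : ℕ in atTop, 1 / ((φ n : ℝ) + 1) < ε :=
    ((tendsto_one_div_add_atTop_nhds_zero_nat (𝕜 := ℝ)).comp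
      hφ.tendsto_atTop).eventually_lt_const hε
  obtain ⟨n, h1, h2, h3⟩ := (e1.and (e2.and e3)).exists
  exact ⟨a (φ n), ha _, h1, fun j hj => (hc _ j (hj.trans_le h2)).trans h3.le⟩

/-- The Moebius map of the disc with `0 ↦ a`. -/
noncomputable def mo (a ζ : ℂ) : ℂ := (a + ζ) / (1 + conj a * ζ)

lemma one_add_ne' {a ζ : ℂ} (ha : ‖a‖ < 1) (hζ : ‖ζ‖ ≤ 1) : (1 : ℂ) + conj a * ζ ≠ 0 := by
  have := one_sub_ne (norm_conj_lt ha) (z := -ζ) (by rw [norm_neg]; exact hζ)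
  intro h
  apply this
  linear_combination h

lemma norm_mo_lt {a ζ : ℂ} (ha : ‖a‖ < 1) (hζ : ‖ζ‖ < 1) : ‖mo a ζ‖ < 1 := by
  have h := norm_bd_lt (a := -a) (w := ζ) (by rwa [norm_neg]) hζ
  have : mo a ζ = bd (-a) ζ := by
    unfold mo bd
    rw [map_neg]
    congr 1 <;> ring
  rw [this]; exact h

lemma bd_mo {a ζ : ℂ} (ha : ‖a‖ < 1) (hζ : ‖ζ‖ < 1) : bd a (mo a ζ) = ζ := by
  have h1 := one_add_ne' ha hζ.le
  have h2 : (1 : ℂ) - conj a * mo a ζ ≠ 0 := one_sub_ne (norm_conj_lt ha) (norm_mo_lt ha hζ).le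
  unfold bd
  rw [div_eq_iff h2]
  have e := mul_inv_cancel₀ h1
  unfold mo
  rw [div_eq_mul_inv]
  linear_combination (a + ζ) * e

lemma mo_bd {a w : ℂ} (ha : ‖a‖ < 1) (hw : ‖w‖ < 1) : mo a (bd a w) = w := by
  have h1 := one_add_ne' ha (norm_bd_lt ha hw).le
  have h2 : (1 : ℂ) - conj a * w ≠ 0 := one_sub_ne (norm_conj_lt ha) hw.le
  unfold mo
  rw [div_eq_iff h1]
  have e := mul_inv_cancel₀ h2
  unfold bd
  rw [div_eq_mul_inv]
  linear_combination (w - a) * e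

lemma mo_zero (a : ℂ) : mo a 0 = a := by simp [mo]

lemma differentiableOn_mo {a : ℂ} (ha : ‖a‖ < 1) : DifferentiableOn ℂ (mo a) (ball 0 1) := by
  unfold mo
  apply DifferentiableOn.div
  · fun_prop
  · fun_prop
  · intro ζ hζ
    exact one_add_ne' ha (by simpa using (mem_ball_zero_iff.mp hζ).le)

lemma mapsTo_mo {a : ℂ} (ha : ‖a‖ < 1) : Set.MapsTo (mo a) (ball 0 1) (ball 0 1) := by
  intro ζ hζ
  rw [mem_ball_zero_iff] at *
  exact norm_mo_lt ha hζ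

/-- Maximum principle step. -/
lemma tk_bound_step {a : ℂ} (ha : ‖a‖ < 1) {v : Circ → ℂ} (hv : InHinf v) {C : ℝ}
    (h : ∀ ζ : ℂ, ‖ζ‖ ≤ 1 / 2 → ‖ext v (mo a ζ)‖ ≤ C) :
    ∀ ζ : ℂ, ‖ζ‖ ≤ 1 / 2 → ‖ext (TT a v) (mo a ζ)‖ ≤ 4 * C := by
  have hT := TT_inHinf ha hv
  have hmul : ∀ ζ : ℂ, ‖ζ‖ < 1 → ζ * ext (TT a v) (mo a ζ) = ext v (mo a ζ) - ext v a := by
    intro ζ hζ
    have hm := norm_mo_lt ha hζ
    have e1 := ext_mul (bl_inHinf ha) hT hm
    rw [ext_bl ha hm, bd_mo ha hζ] at e1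
    rw [← e1]
    have e2 : (fun x => bl a x * TT a v x) = fun x => v x - ext v a := by
      ext x
      unfold TT
      linear_combination (v x - ext v a) * bl_mul_conj ha x
    rw [e2, ext_sub hv.1 (InLinf.const _) hm, ext_const]
  have hd : DifferentiableOn ℂ (fun ζ => ext (TT a v) (mo a ζ)) (ball 0 1) :=
    (differentiableOn_ext hT.1).comp (differentiableOn_mo ha) (mapsTo_mo ha)
  have hsub : closedBall (0 : ℂ) (1 / 2) ⊆ ball 0 1 := closedBall_subset_ball (by norm_num)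
  have hdc : DiffContOnCl ℂ (fun ζ => ext (TT a v) (mo a ζ)) (ball 0 (1 / 2)) := by
    apply DifferentiableOn.diffContOnCl
    rw [closure_ball _ (by norm_num)]
    exact hd.mono hsub
  have hC0 : ‖ext v a‖ ≤ C := by
    have := h 0 (by simp)
    rwa [mo_zero] at this
  intro ζ hζ
  apply Complex.norm_le_of_forall_mem_frontier_norm_le isBounded_ball hdc
  · intro z hz
    rw [frontier_ball _ (by norm_num), mem_sphere_zero_iff_norm] at hz
    have e1 := hmul z (by rw [hz]; norm_num)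
    have e2 : ‖z‖ * ‖ext (TT a v) (mo a z)‖ = ‖ext v (mo a z) - ext v a‖ := by
      rw [← norm_mul, e1]
    rw [hz] at e2
    have e3 := h z (by rw [hz])
    have e4 := norm_sub_le (ext v (mo a z)) (ext v a)
    linarith
  · rw [closure_ball _ (by norm_num)]
    simpa using hζ

theorem lower_near {I : Circ → ℂ} (hI : InHinf I) {J : ℕ} {δ : ℝ} (hδ : 0 < δ)
    (H : ∀ a : ℂ, ‖a‖ < 1 → ∃ j < J, δ < ‖tc a I j‖) :
    ∃ δ' : ℝ, 0 < δ' ∧ ∀ a : ℂ, ‖a‖ < 1 → ∃ ζ : ℂ, ‖ζ‖ ≤ 1 / 2 ∧ δ' ≤ ‖ext I (mo a ζ)‖ := by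
  refine ⟨δ / 4 ^ J, by positivity, ?_⟩
  intro a ha
  by_contra hcon
  push Not at hcon
  have h1 : ∀ n : ℕ, ∀ ζ : ℂ, ‖ζ‖ ≤ 1 / 2 → ‖ext (tk a I n) (mo a ζ)‖ ≤ 4 ^ n * (δ / 4 ^ J) := by
    intro n
    induction n with
    | zero =>
      intro ζ hζ
      rw [pow_zero, one_mul]
      exact (hcon ζ hζ).le
    | succ n ih =>
      intro ζ hζ
      have := tk_bound_step ha (tk_inHinf ha hI n) ih ζ hζ
      rw [pow_succ]
      calc ‖ext (tk a I (n + 1)) (mo a ζ)‖ ≤ 4 * (4 ^ n * (δ / 4 ^ J)) := this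
        _ = _ := by ring
  obtain ⟨j, hj, hlt⟩ := H a ha
  have h2 := h1 j 0 (by simp)
  rw [mo_zero] at h2
  have h3 : (4 : ℝ) ^ j * (δ / 4 ^ J) ≤ δ := by
    rw [mul_div_assoc', div_le_iff₀ (by positivity), mul_comm]
    have : (4 : ℝ) ^ j ≤ 4 ^ J := pow_le_pow_right₀ (by norm_num) hj.le
    nlinarith
  unfold tc at hlt
  linarith

/-- `conj I ∈ D_b` implies `conj I · H^∞ ⊆ L_b`. -/
lemma inLb_of_inDb {I : Circ → ℂ} (h : InDb (cj I)) :
    ∀ g, InHinf g → InLb (fun x => cj I x * g x) := by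
  intro g hg
  obtain ⟨u, m, hu, hm, hae⟩ := h
  have hgL : InLb g := by
    refine ⟨hg.1, fun ε hε => ⟨g, fun _ => 0, hg, InHinf.const 0, ?_⟩⟩
    refine Eventually.of_forall fun x => ?_
    simp [cj, hε.le]
  obtain ⟨h1, h2⟩ := hm.2 g hgL
  have hug := hu.mul hg
  have hae' : (fun x => cj I x * g x) =ᵐ[mes] fun x => u x * g x + m x * g x := by
    filter_upwards [hae] with x hx
    rw [hx]; ring
  refine ⟨(hug.1.add h1).congr hae'.symm, fun ε hε => ?_⟩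
  obtain ⟨p, q, hp, hq, hpq⟩ := h2 ε hε
  refine ⟨fun x => u x * g x + p x, q, hug.add hp, hq, ?_⟩
  filter_upwards [hae', hpq] with x hx h3
  rw [hx]
  have : u x * g x + m x * g x - (u x * g x + p x + cj q x) = m x * g x - (p x + cj q x) := by ring
  rw [this]
  exact h3

end Pool.Agent.Lib.MP_7a0cb1_an
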