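import Pool.Agent.Lib.MP_7a0cb1_an.Kern

/-!
# The test functionals: estimates
-/

open MeasureTheory AddCircle Filter Topology
open scoped ENNReal ComplexConjugate

namespace Pool.Agent.Lib.MP_7a0cb1_an

/-- The test functional. -/
noncomputable def Phi (a : ℂ) (R : ℝ) (F : Circ → ℂ) : ℂ :=
  ∫ x, F x * (((hk a R x).im : ℂ) * (pois a x : ℂ)) ∂mes

lemma im_eq (z : ℂ) : (z.im : ℂ) = (z - conj z) * (2 * Complex.I)⁻¹ := by
  rw [Complex.sub_conj]
  have : (2 * Complex.I : ℂ) ≠ 0 := by simp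
  field_simp
  push_cast
  ring

lemma Phi_hinf {a : ℂ} (ha : ‖a‖ < 1) {R : ℝ} (h0 : 0 ≤ R) (h1 : R < 1) {u : Circ → ℂ}
    (hu : InHinf u) : Phi a R u = (ext u a - ext u (wpt a R)) * (2 * Complex.I)⁻¹ := by
  have hwp := norm_wpt ha h0 h1
  have hh := hk_inHinf ha h0 h1
  have e1 : ∫ x, (u x * hk a R x) * (pois a x : ℂ) ∂mes = ext u a := by
    have h := PI_eq_ext (hu.mul hh) ha
    rw [ext_mul hu hh ha, ext_hk ha h0 h1, mul_one] at h
    exact h
  have e2 : ∫ x, u x * (pois a x : ℂ) ∂mes = ext u a := PI_eq_ext hu ha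
  have e3 : ∫ x, u x * (pois (wpt a R) x : ℂ) ∂mes = ext u (wpt a R) := PI_eq_ext hu hwp
  have i1 : Integrable (fun x => (u x * hk a R x) * (pois a x : ℂ)) mes :=
    ((hu.mul hh).1.mul (pois_inLinf ha)).integrable
  have i2 : Integrable (fun x => u x * (pois a x : ℂ)) mes := (hu.1.mul (pois_inLinf ha)).integrable
  have i3 : Integrable (fun x => u x * (pois (wpt a R) x : ℂ)) mes :=
    (hu.1.mul (pois_inLinf hwp)).integrable
  unfold Phi
  have e4 : (fun x => u x * (((hk a R x).im : ℂ) * (pois a x : ℂ))) = fun x =>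
      ((2 * ((u x * hk a R x) * (pois a x : ℂ)) - u x * (pois a x : ℂ)) -
        u x * (pois (wpt a R) x : ℂ)) * (2 * Complex.I)⁻¹ := by
    ext x
    rw [im_eq, ← pois_conf ha h0 h1]
    ring
  have i4 : Integrable (fun x => 2 * ((u x * hk a R x) * (pois a x : ℂ)) -
      u x * (pois a x : ℂ)) mes := (i1.const_mul 2).sub i2
  rw [e4, integral_mul_const, integral_sub i4 i3, integral_sub (i1.const_mul 2) i2,
    integral_const_mul, e1, e2, e3]
  ring

lemma norm_two_I : ‖(2 * Complex.I : ℂ)⁻¹‖ = 1 / 2 := by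
  rw [norm_inv, norm_mul, Complex.norm_I]; simp

lemma norm_Phi_hinf {a : ℂ} (ha : ‖a‖ < 1) {R : ℝ} (h0 : 0 ≤ R) (h1 : R < 1) {u : Circ → ℂ}
    (hu : InHinf u) {N : ℝ} (hN : ∀ᵐ x ∂mes, ‖u x‖ ≤ N) : ‖Phi a R u‖ ≤ N := by
  rw [Phi_hinf ha h0 h1 hu, norm_mul, norm_two_I]
  have h2 := norm_ext_le hu hN ha
  have h3 := norm_ext_le hu hN (norm_wpt ha h0 h1)
  have h4 := norm_sub_le (ext u a) (ext u (wpt a R))
  linarith

lemma Phi_cj (a : ℂ) (R : ℝ) (v : Circ → ℂ) : Phi a R (cj v) = conj (Phi a R v) := by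
  unfold Phi
  rw [← integral_conj]
  congr 1
  ext x
  simp [cj]

lemma norm_Phi_cj {a : ℂ} (ha : ‖a‖ < 1) {R : ℝ} (h0 : 0 ≤ R) (h1 : R < 1) {v : Circ → ℂ}
    (hv : InHinf v) {N : ℝ} (hN : ∀ᵐ x ∂mes, ‖v x‖ ≤ N) : ‖Phi a R (cj v)‖ ≤ N := by
  rw [Phi_cj, Complex.norm_conj]
  exact norm_Phi_hinf ha h0 h1 hv hN

lemma kern_continuous {a : ℂ} (ha : ‖a‖ < 1) {R : ℝ} (h0 : 0 ≤ R) (h1 : R < 1) :
    Continuous (fun x => (((hk a R x).im : ℂ) * (pois a x : ℂ))) :=
  (Complex.continuous_ofReal.comp (Complex.continuous_im.comp (hk_continuous ha h0 h1))).mul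
    (Complex.continuous_ofReal.comp (pois_continuous ha))

lemma kern_inLinf {a : ℂ} (ha : ‖a‖ < 1) {R : ℝ} (h0 : 0 ≤ R) (h1 : R < 1) :
    InLinf (fun x => (((hk a R x).im : ℂ) * (pois a x : ℂ))) :=
  InLinf.of_continuous (kern_continuous ha h0 h1)

lemma Phi_add {a : ℂ} (ha : ‖a‖ < 1) {R : ℝ} (h0 : 0 ≤ R) (h1 : R < 1) {F G : Circ → ℂ}
    (hF : InLinf F) (hG : InLinf G) : Phi a R (fun x => F x + G x) = Phi a R F + Phi a R G := by
  have i1 : Integrable (fun x => F x * (((hk a R x).im : ℂ) * (pois a x : ℂ))) mes :=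
    (hF.mul (kern_inLinf ha h0 h1)).integrable
  have i2 : Integrable (fun x => G x * (((hk a R x).im : ℂ) * (pois a x : ℂ))) mes :=
    (hG.mul (kern_inLinf ha h0 h1)).integrable
  unfold Phi
  rw [← integral_add i1 i2]
  congr 1
  ext x
  ring

lemma Phi_const_mul (a : ℂ) (R : ℝ) (F : Circ → ℂ) (c : ℂ) :
    Phi a R (fun x => c * F x) = c * Phi a R F := by
  unfold Phi
  rw [← integral_const_mul]
  congr 1
  ext x
  ring

lemma Phi_sub {a : ℂ} (ha : ‖a‖ < 1) {R : ℝ} (h0 : 0 ≤ R) (h1 : R < 1) {F G : Circ → ℂ}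
    (hF : InLinf F) (hG : InLinf G) : Phi a R (fun x => F x - G x) = Phi a R F - Phi a R G := by
  have h : (fun x => F x - G x) = fun x => F x + (-1) * G x := by ext x; ring
  rw [h, Phi_add ha h0 h1 hF ((InLinf.const _).mul hG), Phi_const_mul]; ring

/-- The `L^1` norm of the test functional. -/
noncomputable def Lam (a : ℂ) (R : ℝ) : ℝ := ∫ x, |(hk a R x).im| * pois a x ∂mes

lemma norm_kern {a : ℂ} (ha : ‖a‖ < 1) (R : ℝ) (x : Circ) :
    ‖(((hk a R x).im : ℂ) * (pois a x : ℂ))‖ = |(hk a R x).im| * pois a x := by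
  rw [norm_mul, Complex.norm_real, Complex.norm_real, Real.norm_eq_abs,
    Real.norm_of_nonneg (pois_pos ha x).le]

lemma norm_Phi_le {a : ℂ} (ha : ‖a‖ < 1) {R : ℝ} (h0 : 0 ≤ R) (h1 : R < 1) {F : Circ → ℂ}
    {ε : ℝ} (hF : ∀ᵐ x ∂mes, ‖F x‖ ≤ ε) : ‖Phi a R F‖ ≤ ε * Lam a R := by
  unfold Phi Lam
  rw [← integral_const_mul]
  apply norm_integral_le_of_norm_le
  · refine Integrable.const_mul ?_ ε
    have := (kern_inLinf ha h0 h1).integrable.norm
    refine this.congr (Eventually.of_forall fun x => ?_)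
    exact norm_kern ha R x
  · filter_upwards [hF] with x hx
    rw [norm_mul, norm_kern ha]
    exact mul_le_mul_of_nonneg_right hx (mul_nonneg (abs_nonneg _) (pois_pos ha x).le)

lemma norm_hk_le {a : ℂ} (ha : ‖a‖ < 1) {R : ℝ} (h0 : 0 ≤ R) (h1 : R < 1) (x : Circ) :
    ‖hk a R x‖ ≤ 1 / (1 - R) := by
  unfold hk
  rw [norm_inv, one_div]
  apply inv_anti₀ (by linarith)
  have h := norm_sub_norm_le (1 : ℂ) (R * bl a x)
  rw [norm_mul, norm_bl ha, Complex.norm_real, Real.norm_of_nonneg h0] at h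
  simpa using h

/-- Crude bound: for a function with small Poisson-`L^1` norm. -/
lemma norm_Phi_le_pois {a : ℂ} (ha : ‖a‖ < 1) {R : ℝ} (h0 : 0 ≤ R) (h1 : R < 1) {F : Circ → ℂ}
    (hF : InLinf F) : ‖Phi a R F‖ ≤ 1 / (1 - R) * ∫ x, ‖F x‖ * pois a x ∂mes := by
  unfold Phi
  rw [← integral_const_mul]
  apply norm_integral_le_of_norm_le
  · refine Integrable.const_mul ?_ _
    have := (hF.mul (pois_inLinf ha)).integrable.norm
    refine this.congr (Eventually.of_forall fun x => ?_)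
    simp only
    rw [norm_mul, Complex.norm_real, Real.norm_of_nonneg (pois_pos ha x).le]
  · refine Eventually.of_forall fun x => ?_
    rw [norm_mul, norm_kern ha]
    have h2 : |(hk a R x).im| ≤ 1 / (1 - R) := (Complex.abs_im_le_norm _).trans (norm_hk_le ha h0 h1 x)
    calc ‖F x‖ * (|(hk a R x).im| * pois a x) = |(hk a R x).im| * (‖F x‖ * pois a x) := by ring
      _ ≤ 1 / (1 - R) * (‖F x‖ * pois a x) :=
        mul_le_mul_of_nonneg_right h2 (mul_nonneg (norm_nonneg _) (pois_pos ha x).le)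

/-- The `L^2` norm of `hk` for the Poisson measure. -/
lemma integral_normSq_hk {a : ℂ} (ha : ‖a‖ < 1) {R : ℝ} (h0 : 0 ≤ R) (h1 : R < 1) :
    ∫ x, ‖hk a R x‖ ^ 2 * pois a x ∂mes = 1 / (1 - R ^ 2) := by
  have hR : 0 < 1 - R ^ 2 := by nlinarith
  have h2 : (fun x => ‖hk a R x‖ ^ 2 * pois a x) = fun x => 1 / (1 - R ^ 2) * pois (wpt a R) x := by
    ext x
    have h3 := pois_conf ha h0 h1 x
    rw [hk_add_conj ha h0 h1, Complex.mul_conj, Complex.normSq_eq_norm_sq] at h3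
    have h4 : (1 - R ^ 2) * ‖hk a R x‖ ^ 2 * pois a x = pois (wpt a R) x := by exact_mod_cast h3
    rw [← h4]
    field_simp
  rw [h2, integral_const_mul, integral_pois (norm_wpt ha h0 h1), mul_one]

/-- The dyadic radii. -/
noncomputable def Rm (m : ℕ) : ℝ := 1 - (1 / 2) ^ m

lemma Rm_nonneg (m : ℕ) : 0 ≤ Rm m := by
  unfold Rm
  have : ((1 : ℝ) / 2) ^ m ≤ 1 := pow_le_one₀ (by norm_num) (by norm_num)
  linarith

lemma Rm_lt (m : ℕ) : Rm m < 1 := by
  unfold Rm
  have : (0 : ℝ) < (1 / 2) ^ m := by positivity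
  linarith

lemma integrable_of_cont {f : Circ → ℝ} (hf : Continuous f) : Integrable f mes := by
  obtain ⟨C, hC⟩ := (isCompact_univ (X := Circ)).exists_bound_of_continuousOn hf.continuousOn
  exact Integrable.of_bound hf.aestronglyMeasurable C
    (Eventually.of_forall fun x => hC x (Set.mem_univ x))

lemma normSq_integrable {a : ℂ} (ha : ‖a‖ < 1) {R : ℝ} (h0 : 0 ≤ R) (h1 : R < 1) :
    Integrable (fun x => ‖hk a R x‖ ^ 2 * pois a x) mes :=
  integrable_of_cont (((hk_continuous ha h0 h1).norm.pow 2).mul (pois_continuous ha))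

lemma absIm_integrable {a : ℂ} (ha : ‖a‖ < 1) {R : ℝ} (h0 : 0 ≤ R) (h1 : R < 1) :
    Integrable (fun x => |(hk a R x).im| * pois a x) mes := by
  have := (kern_inLinf ha h0 h1).integrable.norm
  refine this.congr (Eventually.of_forall fun x => ?_)
  exact norm_kern ha R x

lemma Lam_le {a : ℂ} (ha : ‖a‖ < 1) (m : ℕ) : Lam a (Rm m) ≤ 3 / 4 * m := by
  induction m with
  | zero =>
    unfold Lam
    have h : ∀ x, |(hk a (Rm 0) x).im| * pois a x = 0 := by
      intro x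
      have : hk a (Rm 0) x = 1 := by simp [hk, Rm]
      rw [this]; simp
    simp [h]
  | succ m ih =>
    have r0 := Rm_nonneg m
    have r1 := Rm_lt m
    have r0' := Rm_nonneg (m + 1)
    have r1' := Rm_lt (m + 1)
    set t : ℝ := (1 / 2) ^ m with ht
    have htpos : 0 < t := by positivity
    have hR : Rm m = 1 - t := rfl
    have hR' : Rm (m + 1) = 1 - t / 2 := by unfold Rm; rw [pow_succ, ← ht]; ring
    have key : Lam a (Rm (m + 1)) ≤ Lam a (Rm m) +
        (t / 4) * (1 / (1 - Rm m ^ 2) + 1 / (1 - Rm (m + 1) ^ 2)) := by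
      rw [← integral_normSq_hk ha r0 r1, ← integral_normSq_hk ha r0' r1', ← integral_add
        (normSq_integrable ha r0 r1) (normSq_integrable ha r0' r1'), ← integral_const_mul]
      have i5 : Integrable (fun x => t / 4 * (‖hk a (Rm m) x‖ ^ 2 * pois a x +
          ‖hk a (Rm (m + 1)) x‖ ^ 2 * pois a x)) mes :=
        ((normSq_integrable ha r0 r1).add (normSq_integrable ha r0' r1')).const_mul (t / 4)
      unfold Lam
      rw [← integral_add (absIm_integrable ha r0 r1) i5]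
      apply integral_mono (absIm_integrable ha r0' r1') ((absIm_integrable ha r0 r1).add i5)
      intro x
      simp only [Pi.add_apply]
      have hp := (pois_pos ha x).le
      have e1 : hk a (Rm (m + 1)) x - hk a (Rm m) x =
          ((t / 2 : ℝ) : ℂ) * (bl a x * (hk a (Rm m) x * hk a (Rm (m + 1)) x)) := by
        have f1 := mul_inv_cancel₀ (one_sub_R_bl_ne ha r0 r1 x)
        have f2 := mul_inv_cancel₀ (one_sub_R_bl_ne ha r0' r1' x)
        have f3 : ((t / 2 : ℝ) : ℂ) = (Rm (m + 1) : ℂ) - (Rm m : ℂ) := by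
          rw [hR, hR']; push_cast; ring
        unfold hk
        rw [f3]
        linear_combination (-(1 - (Rm (m + 1) : ℂ) * bl a x)⁻¹) * f1 + (1 - (Rm m : ℂ) * bl a x)⁻¹ * f2
      have e2 : ‖hk a (Rm (m + 1)) x - hk a (Rm m) x‖ ≤
          t / 4 * (‖hk a (Rm m) x‖ ^ 2 + ‖hk a (Rm (m + 1)) x‖ ^ 2) := by
        rw [e1, norm_mul, norm_mul, norm_mul, norm_bl ha, Complex.norm_real,
          Real.norm_of_nonneg (by positivity), one_mul]
        nlinarith [sq_nonneg (‖hk a (Rm m) x‖ - ‖hk a (Rm (m + 1)) x‖)]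
      have e3 : |(hk a (Rm (m + 1)) x).im| ≤ |(hk a (Rm m) x).im| +
          t / 4 * (‖hk a (Rm m) x‖ ^ 2 + ‖hk a (Rm (m + 1)) x‖ ^ 2) := by
        have e4 := Complex.abs_im_le_norm (hk a (Rm (m + 1)) x - hk a (Rm m) x)
        rw [Complex.sub_im] at e4
        have e5 := abs_sub_abs_le_abs_sub (hk a (Rm (m + 1)) x).im (hk a (Rm m) x).im
        linarith
      calc |(hk a (Rm (m + 1)) x).im| * pois a x ≤ (|(hk a (Rm m) x).im| +
          t / 4 * (‖hk a (Rm m) x‖ ^ 2 + ‖hk a (Rm (m + 1)) x‖ ^ 2)) * pois a x :=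
            mul_le_mul_of_nonneg_right e3 hp
        _ = _ := by ring
    have g1 : 1 / (1 - Rm m ^ 2) ≤ 1 / t := by
      apply one_div_le_one_div_of_le htpos
      rw [hR] at r0 ⊢
      nlinarith
    have g2 : 1 / (1 - Rm (m + 1) ^ 2) ≤ 1 / (t / 2) := by
      apply one_div_le_one_div_of_le (by positivity)
      rw [hR'] at r0' ⊢
      nlinarith
    have g3 : (t / 4) * (1 / (1 - Rm m ^ 2) + 1 / (1 - Rm (m + 1) ^ 2)) ≤ 3 / 4 := by
      calc (t / 4) * (1 / (1 - Rm m ^ 2) + 1 / (1 - Rm (m + 1) ^ 2)) ≤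
          (t / 4) * (1 / t + 1 / (t / 2)) := by
            apply mul_le_mul_of_nonneg_left (by linarith) (by positivity)
        _ = 3 / 4 := by field_simp; ring
    push_cast
    linarith

end Pool.Agent.Lib.MP_7a0cb1_an
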