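import Pool.Agent.Lib.MP_7a0cb1_an.Eval

/-!
# Poisson integrals and Blaschke factors on the circle
-/

open MeasureTheory AddCircle
open scoped ENNReal ComplexConjugate

namespace Pool.Agent.Lib.MP_7a0cb1_an

/-- The Poisson kernel. -/
noncomputable def pois (w : ℂ) (x : Circ) : ℝ := (1 - ‖w‖ ^ 2) / ‖1 - conj w * ee x‖ ^ 2

/-- The Poisson integral. -/
noncomputable def PI (F : Circ → ℂ) (w : ℂ) : ℂ := ∫ x, F x * (pois w x : ℂ) ∂mes

lemma norm_one_sub_ge {w : ℂ} (x : Circ) : 1 - ‖w‖ ≤ ‖1 - conj w * ee x‖ := by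
  have h := norm_sub_norm_le (1 : ℂ) (conj w * ee x)
  simpa [norm_ee] using h

lemma pois_eq {w : ℂ} (hw : ‖w‖ < 1) (x : Circ) :
    (pois w x : ℂ) = ck w x + conj (ck w x) - 1 := by
  have h1 := one_sub_ne hw (z := conj (ee x)) (by simp [norm_ee])
  have hw' : ‖conj w‖ < 1 := by simpa using hw
  have h2 := one_sub_ne hw' (z := ee x) (by simp [norm_ee])
  have h3 : ((‖1 - conj w * ee x‖ ^ 2 : ℝ) : ℂ) = (1 - w * conj (ee x)) * (1 - conj w * ee x) := by
    rw [← Complex.normSq_eq_norm_sq, ← Complex.mul_conj]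
    simp
    ring
  have h4 : ((‖w‖ ^ 2 : ℝ) : ℂ) = w * conj w := by
    rw [← Complex.normSq_eq_norm_sq, Complex.mul_conj]
  unfold pois ck
  rw [Complex.ofReal_div, h3, Complex.ofReal_sub, h4, map_inv₀]
  simp only [map_sub, map_one, map_mul, Complex.conj_conj, Complex.ofReal_one]
  field_simp
  have := ee_mul_conj x
  linear_combination (w * conj w) * this

lemma pois_pos {w : ℂ} (hw : ‖w‖ < 1) (x : Circ) : 0 < pois w x := by
  unfold pois
  have h1 := norm_one_sub_ge (w := w) x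
  have h2 : 0 < 1 - ‖w‖ ^ 2 := by nlinarith [norm_nonneg w]
  have h3 : 0 < ‖1 - conj w * ee x‖ := by linarith
  positivity

lemma pois_le {w : ℂ} (hw : ‖w‖ < 1) (x : Circ) : pois w x ≤ 2 / (1 - ‖w‖) := by
  unfold pois
  have h1 := norm_one_sub_ge (w := w) x
  have h0 : 0 < 1 - ‖w‖ := by linarith
  have h3 : 0 < ‖1 - conj w * ee x‖ := by linarith
  rw [div_le_div_iff₀ (by positivity) h0]
  have h4 : (1 - ‖w‖) ^ 2 ≤ ‖1 - conj w * ee x‖ ^ 2 := by
    apply pow_le_pow_left₀ h0.le h1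
  have h5 : (1 - ‖w‖ ^ 2) * (1 - ‖w‖) = (1 + ‖w‖) * (1 - ‖w‖) ^ 2 := by ring
  rw [h5]
  apply mul_le_mul (by linarith) h4 (by positivity) (by norm_num)

lemma pois_continuous {w : ℂ} (hw : ‖w‖ < 1) : Continuous (pois w) := by
  unfold pois
  refine Continuous.div continuous_const ?_ ?_
  · exact ((continuous_const.sub (continuous_const.mul ee_continuous)).norm.pow 2)
  · intro x
    have h1 := norm_one_sub_ge (w := w) x
    have h3 : 0 < ‖1 - conj w * ee x‖ := by linarith
    positivity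

lemma pois_inLinf {w : ℂ} (hw : ‖w‖ < 1) : InLinf (fun x => (pois w x : ℂ)) :=
  InLinf.of_continuous (Complex.continuous_ofReal.comp (pois_continuous hw))

lemma pois_integrable {w : ℂ} (hw : ‖w‖ < 1) : Integrable (pois w) mes := by
  refine Integrable.of_bound (pois_continuous hw).aestronglyMeasurable (2 / (1 - ‖w‖))
    (Filter.Eventually.of_forall fun x => ?_)
  rw [Real.norm_of_nonneg (pois_pos hw x).le]
  exact pois_le hw x

lemma ck_inLinf {w : ℂ} (hw : ‖w‖ < 1) : InLinf (ck w) :=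
  InLinf.of_continuous (ck_continuous hw)

lemma integral_eq_coeff (f : Circ → ℂ) : ∫ x, f x ∂mes = fourierCoeff f 0 := by
  unfold fourierCoeff
  congr 1
  ext x
  simp

/-- For `u ∈ H^∞` the Poisson integral is the evaluation. -/
lemma PI_eq_ext {u : Circ → ℂ} (hu : InHinf u) {w : ℂ} (hw : ‖w‖ < 1) : PI u w = ext u w := by
  have h1 : ∫ x, u x * conj (ck w x) ∂mes = ∫ x, u x ∂mes := by
    have h2 : ∫ x, cj u x * ck w x ∂mes = conj (fourierCoeff u 0) := by
      rw [← ext_eq hu.1.cj hw]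
      unfold ext
      rw [tsum_eq_single 0]
      · rw [fourierCoeff_cj]; simp
      · intro n hn
        rw [fourierCoeff_cj, hu.2 (-(n : ℤ)) (by omega)]; simp
    have h3 : ∫ x, u x * conj (ck w x) ∂mes = conj (∫ x, cj u x * ck w x ∂mes) := by
      rw [← integral_conj]
      congr 1
      ext x
      simp [cj]
    rw [h3, h2, Complex.conj_conj, integral_eq_coeff]
  have hck := ck_inLinf hw
  unfold PI
  have h4 : (fun x => u x * (pois w x : ℂ)) =
      fun x => u x * ck w x + (u x * conj (ck w x) - u x) := by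
    ext x
    rw [pois_eq hw]; ring
  have i1 : Integrable (fun x => u x * ck w x) mes := (hu.1.mul hck).integrable
  have i2 : Integrable (fun x => u x * conj (ck w x)) mes := (hu.1.mul hck.cj).integrable
  have i3 : Integrable (fun x => u x * conj (ck w x) - u x) mes := i2.sub hu.1.integrable
  rw [h4, integral_add i1 i3, integral_sub i2 hu.1.integrable,
    h1, sub_self, add_zero, ext_eq hu.1 hw]

lemma PI_cj {u : Circ → ℂ} (hu : InHinf u) {w : ℂ} (hw : ‖w‖ < 1) :
    PI (cj u) w = conj (ext u w) := by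
  rw [← PI_eq_ext hu hw]
  unfold PI
  rw [← integral_conj]
  congr 1
  ext x
  simp [cj]

lemma integral_pois {w : ℂ} (hw : ‖w‖ < 1) : ∫ x, pois w x ∂mes = 1 := by
  have h1 := PI_eq_ext (InHinf.const 1) hw
  rw [ext_const] at h1
  unfold PI at h1
  simp only [one_mul] at h1
  rw [integral_complex_ofReal] at h1
  exact_mod_cast h1

lemma norm_PI_le {F : Circ → ℂ} {C : ℝ} (hC : ∀ᵐ x ∂mes, ‖F x‖ ≤ C) {w : ℂ} (hw : ‖w‖ < 1) :
    ‖PI F w‖ ≤ C := by
  unfold PI
  calc ‖∫ x, F x * (pois w x : ℂ) ∂mes‖ ≤ ∫ x, C * pois w x ∂mes := by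
        apply norm_integral_le_of_norm_le
        · exact (pois_integrable hw).const_mul C
        · filter_upwards [hC] with x hx
          rw [norm_mul, Complex.norm_real, Real.norm_of_nonneg (pois_pos hw x).le]
          exact mul_le_mul_of_nonneg_right hx (pois_pos hw x).le
    _ = C := by rw [integral_const_mul, integral_pois hw, mul_one]

lemma norm_ext_le {u : Circ → ℂ} (hu : InHinf u) {C : ℝ} (hC : ∀ᵐ x ∂mes, ‖u x‖ ≤ C) {w : ℂ}
    (hw : ‖w‖ < 1) : ‖ext u w‖ ≤ C := by
  rw [← PI_eq_ext hu hw]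
  exact norm_PI_le hC hw

end Pool.Agent.Lib.MP_7a0cb1_an
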