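import Pool.Agent.Lib.MP_7a0cb1_an.Lfun

/-!
# Hyperbolic Taylor coefficients
-/

open MeasureTheory AddCircle Filter Topology
open scoped ENNReal ComplexConjugate

namespace Pool.Agent.Lib.MP_7a0cb1_an

/-- Remove the value at `a` and divide by the Blaschke factor. -/
noncomputable def TT (a : ℂ) (v : Circ → ℂ) (x : Circ) : ℂ := (v x - ext v a) * conj (bl a x)

lemma TT_inHinf {a : ℂ} (ha : ‖a‖ < 1) {v : Circ → ℂ} (hv : InHinf v) : InHinf (TT a v) :=
  div_bl (hv.sub (InHinf.const _)) ha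
    (by rw [ext_sub hv.1 (InLinf.const _) ha, ext_const, sub_self])

/-- Iterates of `TT`. -/
noncomputable def tk (a : ℂ) (v : Circ → ℂ) : ℕ → Circ → ℂ
  | 0 => v
  | n + 1 => TT a (tk a v n)

/-- Coefficients of the expansion in powers of `b_a`. -/
noncomputable def tc (a : ℂ) (v : Circ → ℂ) (j : ℕ) : ℂ := ext (tk a v j) a

lemma tk_inHinf {a : ℂ} (ha : ‖a‖ < 1) {v : Circ → ℂ} (hv : InHinf v) (n : ℕ) :
    InHinf (tk a v n) := by
  induction n with
  | zero => exact hv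
  | succ n ih => exact TT_inHinf ha ih

lemma bl_mul_tk {a : ℂ} (ha : ‖a‖ < 1) (v : Circ → ℂ) (n : ℕ) (x : Circ) :
    bl a x * tk a v (n + 1) x = tk a v n x - tc a v n := by
  show bl a x * ((tk a v n x - ext (tk a v n) a) * conj (bl a x)) = tk a v n x - ext (tk a v n) a
  linear_combination (tk a v n x - ext (tk a v n) a) * bl_mul_conj ha x

lemma tk_expand {a : ℂ} (ha : ‖a‖ < 1) (v : Circ → ℂ) (n : ℕ) (x : Circ) :
    v x = ∑ i ∈ Finset.range n, tc a v i * bl a x ^ i + bl a x ^ n * tk a v n x := by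
  induction n with
  | zero => simp [tk]
  | succ n ih =>
    rw [Finset.sum_range_succ, pow_succ, mul_assoc (bl a x ^ n), bl_mul_tk ha]
    linear_combination ih

lemma conj_tk {a : ℂ} (ha : ‖a‖ < 1) (v : Circ → ℂ) (n : ℕ) (x : Circ) :
    ‖v x * conj (bl a x) ^ n - tk a v n x‖ ≤ ∑ i ∈ Finset.range n, ‖tc a v i‖ := by
  have h1 : v x * conj (bl a x) ^ n - tk a v n x =
      (∑ i ∈ Finset.range n, tc a v i * bl a x ^ i) * conj (bl a x) ^ n := by
    have h2 : bl a x ^ n * conj (bl a x) ^ n = 1 := by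
      rw [← mul_pow, bl_mul_conj ha, one_pow]
    have h3 := tk_expand ha v n x
    linear_combination (conj (bl a x) ^ n) * h3 + (tk a v n x) * h2
  rw [h1, norm_mul, norm_pow, Complex.norm_conj, norm_bl ha, one_pow, mul_one]
  refine (norm_sum_le _ _).trans (le_of_eq ?_)
  apply Finset.sum_congr rfl
  intro i _
  rw [norm_mul, norm_pow, norm_bl ha, one_pow, mul_one]

lemma norm_tk_le {a : ℂ} (ha : ‖a‖ < 1) (v : Circ → ℂ) (n : ℕ) (x : Circ) :
    ‖tk a v n x‖ ≤ ‖v x‖ + ∑ i ∈ Finset.range n, ‖tc a v i‖ := by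
  have h1 := conj_tk ha v n x
  have h2 : ‖tk a v n x‖ ≤ ‖v x * conj (bl a x) ^ n‖ + ‖v x * conj (bl a x) ^ n - tk a v n x‖ := by
    have := norm_sub_le (v x * conj (bl a x) ^ n) (v x * conj (bl a x) ^ n - tk a v n x)
    simpa using this
  rw [norm_mul, norm_pow, Complex.norm_conj, norm_bl ha, one_pow, mul_one] at h2
  linarith

lemma ext_expand {a w : ℂ} (ha : ‖a‖ < 1) (hw : ‖w‖ < 1) {v : Circ → ℂ} (hv : InHinf v) (n : ℕ) :
    ext v w = ∑ i ∈ Finset.range n, tc a v i * bd a w ^ i + bd a w ^ n * ext (tk a v n) w := by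
  have h1 : v = fun x => (∑ i ∈ Finset.range n, tc a v i * bl a x ^ i) +
      bl a x ^ n * tk a v n x := by
    ext x; exact tk_expand ha v n x
  have h2 : ∀ i ∈ Finset.range n, InHinf (fun x => tc a v i * bl a x ^ i) := fun i _ =>
    ((bl_inHinf ha).pow i).const_mul _
  have h3 : InHinf (fun x => bl a x ^ n * tk a v n x) :=
    ((bl_inHinf ha).pow n).mul (tk_inHinf ha hv n)
  conv_lhs => rw [h1]
  rw [ext_add (InHinf.sum _ h2).1 h3.1 hw, ext_sum _ h2 hw,
    ext_mul ((bl_inHinf ha).pow n) (tk_inHinf ha hv n) hw, ext_pow (bl_inHinf ha) _ hw,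
    ext_bl ha hw]
  congr 1
  apply Finset.sum_congr rfl
  intro i _
  rw [ext_const_mul, ext_pow (bl_inHinf ha) _ hw, ext_bl ha hw]

/-- The analytic function with `G = I Im Lp` approximately. -/
noncomputable def GG (a : ℂ) (R : ℝ) (M : ℕ) (I : Circ → ℂ) (x : Circ) : ℂ :=
  (2 * Complex.I)⁻¹ * ((∑ j ∈ Finset.range M, (cf R j : ℂ) * (I x * bl a x ^ (j + 1))) -
    ∑ j ∈ Finset.range M, (cf R j : ℂ) * tk a I (j + 1) x)

lemma GG_inHinf {a : ℂ} (ha : ‖a‖ < 1) (R : ℝ) (M : ℕ) {I : Circ → ℂ} (hI : InHinf I) :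
    InHinf (GG a R M I) := by
  refine InHinf.const_mul (InHinf.sub (InHinf.sum _ fun j _ => ?_) (InHinf.sum _ fun j _ => ?_)) _
  · exact (hI.mul ((bl_inHinf ha).pow (j + 1))).const_mul _
  · exact (tk_inHinf ha hI (j + 1)).const_mul _

lemma GG_sub {a : ℂ} (ha : ‖a‖ < 1) {R : ℝ} (h0 : 0 ≤ R) (h1 : R < 1) (M : ℕ) (I : Circ → ℂ)
    {d : ℝ} (hd0 : 0 ≤ d) (hd : ∀ j < M, ‖tc a I j‖ ≤ d) (x : Circ) :
    ‖GG a R M I x - I x * ((Lp a R M x).im : ℂ)‖ ≤ M * d := by
  have e1 : GG a R M I x - I x * ((Lp a R M x).im : ℂ) = (2 * Complex.I)⁻¹ *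
      ∑ j ∈ Finset.range M, (cf R j : ℂ) * (I x * conj (bl a x) ^ (j + 1) - tk a I (j + 1) x) := by
    rw [im_eq]
    unfold GG Lp
    simp only [map_sum, map_mul, map_pow, Complex.conj_ofReal, mul_sub, Finset.sum_sub_distrib,
      Finset.mul_sum]
    rw [sub_mul, mul_sub, Finset.sum_mul, Finset.sum_mul, Finset.mul_sum, Finset.mul_sum]
    have e2 : ∑ j ∈ Finset.range M, (2 * Complex.I)⁻¹ * ((cf R j : ℂ) * (I x * bl a x ^ (j + 1))) =
      ∑ j ∈ Finset.range M, I x * ((cf R j : ℂ) * bl a x ^ (j + 1) * (2 * Complex.I)⁻¹) := by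
      apply Finset.sum_congr rfl; intro j _; ring
    have e3 : ∑ j ∈ Finset.range M, (2 * Complex.I)⁻¹ * ((cf R j : ℂ) * (I x * conj (bl a x) ^ (j + 1))) =
      ∑ j ∈ Finset.range M, I x * ((cf R j : ℂ) * conj (bl a x) ^ (j + 1) * (2 * Complex.I)⁻¹) := by
      apply Finset.sum_congr rfl; intro j _; ring
    rw [e2, e3]
    ring
  rw [e1, norm_mul, norm_two_I]
  have e4 : ‖∑ j ∈ Finset.range M, (cf R j : ℂ) * (I x * conj (bl a x) ^ (j + 1) - tk a I (j + 1) x)‖
      ≤ ∑ j ∈ Finset.range M, d := by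
    refine (norm_sum_le _ _).trans (Finset.sum_le_sum fun j hj => ?_)
    have hjM := Finset.mem_range.mp hj
    rw [norm_mul, Complex.norm_real]
    have e5 : ∑ i ∈ Finset.range (j + 1), ‖tc a I i‖ ≤ ((j : ℝ) + 1) * d := by
      calc ∑ i ∈ Finset.range (j + 1), ‖tc a I i‖ ≤ ∑ i ∈ Finset.range (j + 1), d :=
            Finset.sum_le_sum fun i hi => hd i (by have := Finset.mem_range.mp hi; omega)
        _ = ((j : ℝ) + 1) * d := by rw [Finset.sum_const, Finset.card_range, nsmul_eq_mul]; push_cast; ring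
    have e6 := (conj_tk ha I (j + 1) x).trans e5
    have e7 : ‖cf R j‖ = cf R j := by
      rw [Real.norm_of_nonneg]; unfold cf; positivity
    have e8 : cf R j * (((j : ℝ) + 1) * d) ≤ d := by
      have : cf R j * (((j : ℝ) + 1) * d) = R ^ (j + 1) * d := by
        unfold cf
        have : (j : ℝ) + 1 ≠ 0 := by positivity
        field_simp
      rw [this]
      have := pow_le_one₀ h0 h1.le (n := j + 1)
      nlinarith
    rw [e7]
    refine le_trans (mul_le_mul_of_nonneg_left e6 ?_) e8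
    unfold cf; positivity
  rw [Finset.sum_const, Finset.card_range, nsmul_eq_mul] at e4
  have : 0 ≤ (M : ℝ) * d := by positivity
  linarith

end Pool.Agent.Lib.MP_7a0cb1_an
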